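import Pool.Agent.MP_e4fe74_an.Conv

noncomputable section

namespace Pool.Agent.MP_e4fe74_an

open MeasureTheory Set Real Filter Topology FourierTransform SchwartzMap
open scoped ENNReal ContDiff

theorem hc_criterion {X : Type*} [NormedAddCommGroup X] [NormedSpace ℂ X] [CompleteSpace X]
    [SecondCountableTopology X] (T : X →L[ℂ] X) {Y : Set X} (hY : Dense Y)
    (h1 : ∀ y ∈ Y, Tendsto (fun n => T^[n] y) atTop (𝓝 0))
    (h2 : ∀ y ∈ Y, ∃ x : ℕ → X, Tendsto x atTop (𝓝 0) ∧ ∀ᶠ n in atTop, T^[n] (x n) = y) :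
    ∃ F, Dense (range fun n => T^[n] F) := by
  have hd : ∀ V ∈ TopologicalSpace.countableBasis X, Dense (⋃ n : ℕ, T^[n] ⁻¹' V) := by
    intro V hV
    have hVo := TopologicalSpace.isOpen_of_mem_countableBasis hV
    obtain ⟨y1, hy1, hy1'⟩ := hY.inter_open_nonempty V hVo
      (TopologicalSpace.nonempty_of_mem_countableBasis hV)
    rw [dense_iff_inter_open]
    intro W hW hWn
    obtain ⟨y0, hy0, hy0'⟩ := hY.inter_open_nonempty W hW hWn
    obtain ⟨x, hx, hx'⟩ := h2 y1 hy1'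
    have a1 : Tendsto (fun n => y0 + x n) atTop (𝓝 y0) := by simpa using hx.const_add y0
    have a2 : Tendsto (fun n => T^[n] y0 + y1) atTop (𝓝 y1) := by
      simpa using (h1 y0 hy0').add_const y1
    obtain ⟨n, ⟨b1, b2⟩, b3⟩ := (((a1.eventually (hW.mem_nhds hy0)).and
      (a2.eventually (hVo.mem_nhds hy1))).and hx').exists
    refine ⟨y0 + x n, b1, mem_iUnion.2 ⟨n, ?_⟩⟩
    rw [mem_preimage, iterate_map_add, b3]
    exact b2
  have ho : ∀ V ∈ TopologicalSpace.countableBasis X, IsOpen (⋃ n : ℕ, T^[n] ⁻¹' V) :=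
    fun V hV => isOpen_iUnion fun n =>
      (TopologicalSpace.isOpen_of_mem_countableBasis hV).preimage (T.continuous.iterate n)
  obtain ⟨F, hF⟩ := (dense_biInter_of_isOpen ho (TopologicalSpace.countable_countableBasis X)
    hd).nonempty
  refine ⟨F, (TopologicalSpace.isBasis_countableBasis X).dense_iff.2 fun V hV _ => ?_⟩
  obtain ⟨n, hn⟩ := mem_iUnion.1 (mem_iInter₂.1 hF V hV)
  exact ⟨_, hn, n, rfl⟩

variable {E : Type} [NormedAddCommGroup E] [InnerProductSpace ℝ E] [FiniteDimensional ℝ E]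
  [MeasurableSpace E] [BorelSpace E] [Fact (Module.finrank ℝ E = 3)]

set_option linter.unusedSectionVars false

lemma eq_of_lor_le_one {x z : E} (h : lor (lift x) (lift z) ≤ 1) : x = z := by
  have hg := isLorentz_swap z
  rw [← hg.lor_act, act_swap_self, lift_zero, lor_origin_right, lift_fst] at h
  have h1 := x0_sq (act (swap z) x)
  have h2 := x0_pos (act (swap z) x)
  have h3 : ‖act (swap z) x‖ ^ 2 ≤ 0 := by nlinarith
  have h4 : act (swap z) x = 0 := by
    rw [← norm_eq_zero]; exact pow_eq_zero_iff (two_ne_zero) |>.1 (le_antisymm h3 (by positivity))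
  rw [← act_swap_swap z x, h4, act_swap_zero]

lemma norm_le_of_dst {x z : E} (h : dst x z ≤ 1) : ‖x‖ ≤ 2 * cosh 1 * (1 + ‖z‖) := by
  have h1 := one_le_lor_lift x z
  have h2 : lor (lift x) (lift z) ≤ cosh 1 := by
    rw [← cosh_arcosh h1, cosh_le_cosh, abs_one]
    exact (abs_of_nonneg (dst_nonneg x z)).trans_le h
  rw [lor_lift_lift] at h2
  have h3 := real_inner_le_norm x z
  have h4 := norm_lt_x0 x
  have h5 := norm_lt_x0 z
  have h6 := x0_sq z
  have h7 := norm_nonneg x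
  have h8 := norm_nonneg z
  have h9 : x0 x * (x0 z - ‖z‖) ≤ cosh 1 := by nlinarith
  have h10 : x0 x = x0 x * (x0 z - ‖z‖) * (x0 z + ‖z‖) := by
    rw [mul_assoc]; nth_rw 1 [← mul_one (x0 x)]; congr 1; nlinarith
  have h11 : x0 z ≤ 1 + ‖z‖ := by
    apply le_of_sq_le_sq _ (by positivity) |>.trans le_rfl
    nlinarith
  have h12 : x0 x ≤ cosh 1 * (x0 z + ‖z‖) := by
    rw [h10]; gcongr; linarith
  have h13 := cosh_pos 1
  nlinarith

lemma uniform_dst {f : E → ℂ} (hf : Continuous f) (hc : HasCompactSupport f) :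
    ∃ K : Set E, IsCompact K ∧ (∀ x z, x ∉ K → dst x z ≤ 1 → f z = 0 ∧ f x = 0) ∧
      ∀ η > 0, ∃ δ > 0, δ ≤ 1 ∧ ∀ x z, dst x z < δ → ‖f z - f x‖ ≤ η := by
  obtain ⟨R, hR0, hR⟩ := hc.exists_pos_le_norm
  have h1 := one_le_cosh 1
  have hK : ∀ x z : E, x ∉ Metric.closedBall (0 : E) (2 * cosh 1 * (1 + R)) → dst x z ≤ 1 →
      f z = 0 ∧ f x = 0 := by
    intro x z hx hd
    rw [mem_closedBall_zero_iff, not_le] at hx
    have := norm_le_of_dst hd
    refine ⟨hR z ?_, hR x (by nlinarith)⟩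
    by_contra hz
    have : 2 * cosh 1 * (1 + ‖z‖) ≤ 2 * cosh 1 * (1 + R) := by
      gcongr; exact (not_le.1 hz).le
    linarith
  refine ⟨_, isCompact_closedBall _ _, hK, fun η hη => ?_⟩
  set K := Metric.closedBall (0 : E) (2 * cosh 1 * (1 + R))
  have hS : IsCompact ((K ×ˢ K) ∩ {q : E × E | η ≤ ‖f q.2 - f q.1‖}) :=
    ((isCompact_closedBall _ _).prod (isCompact_closedBall _ _)).inter_right
      (isClosed_le continuous_const (by fun_prop))
  obtain ⟨a, ha, ha'⟩ := hS.exists_forall_le' (continuous_lor_lift (E := E)).continuousOn (a := 1)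
    fun q hq => by
      by_contra hle
      have h2 := eq_of_lor_le_one (not_lt.1 hle)
      have h3 : η ≤ ‖f q.2 - f q.1‖ := hq.2
      rw [h2, sub_self, norm_zero] at h3
      linarith
  refine ⟨min 1 (arcosh a), lt_min one_pos (arcosh_pos ha), min_le_left _ _, fun x z hd => ?_⟩
  have hd1 : dst x z ≤ 1 := hd.le.trans (min_le_left _ _)
  by_cases hx : x ∈ K
  · by_cases hz : z ∈ K
    · by_contra hlt
      have h2 := ha' (x, z) ⟨⟨hx, hz⟩, (not_le.1 hlt).le⟩
      have h3 : arcosh a ≤ dst x z :=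
        (arcosh_le_arcosh (by linarith) (by linarith)).2 h2
      exact absurd (hd.trans_le (min_le_right _ _)) (not_lt.2 h3)
    · obtain ⟨a1, a2⟩ := hK z x hz (by rwa [dst_comm])
      simp [a1, a2, hη.le]
  · obtain ⟨a1, a2⟩ := hK x z hx hd1
    simp [a1, a2, hη.le]

lemma exists_profile {δ : ℝ} (hδ : 0 < δ) : ∃ (G : ℝ → ℂ) (W : ℝ → ℝ), ContDiff ℝ ∞ G ∧
    HasCompactSupport G ∧ (∀ r, G (-r) = -G r) ∧ (∀ r, 0 ≤ W r) ∧ (∀ r, δ ≤ r → W r = 0) ∧
    (∀ r, G r / (sinh r : ℝ) = W r) ∧ ∀ x : E, Integrable (fun z => W (dst x z)) (hypVol E) ∧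
      ∫ z, W (dst x z) ∂(hypVol E) = 1 := by
  let χ : ContDiffBump (0 : ℝ) := ⟨δ / 2, δ, by positivity, by linarith⟩
  have hχ := χ.continuous
  let V : ℝ → ℝ := fun r => χ r * |sinh r| / |sinh r|
  have hVm : Measurable V := by unfold V; fun_prop
  have hV0 : ∀ r, 0 ≤ V r := fun r => div_nonneg (mul_nonneg χ.nonneg (abs_nonneg _)) (abs_nonneg _)
  have hVe : ∀ r, r ≠ 0 → V r = χ r := fun r hr =>
    mul_div_cancel_right₀ _ (abs_ne_zero.2 (sinh_ne_zero.2 hr))
  set J := ∫⁻ r in Ioi (0 : ℝ), ENNReal.ofReal (4 * π * sinh r ^ 2) * ENNReal.ofReal (V r) with hJ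
  have hJx : ∀ x : E, ∫⁻ z, ENNReal.ofReal (V (dst x z)) ∂(hypVol E) = J := by
    intro x
    simp_rw [dst_comm x]
    exact lintegral_dst x (fun r => ENNReal.ofReal (V r)) (by fun_prop)
  have hJ0 : J ≠ 0 := by
    apply ne_of_gt
    rw [hJ, setLIntegral_pos_iff (by fun_prop)]
    refine lt_of_lt_of_le ?_ (measure_mono (s := Ioo 0 δ) fun r hr => ⟨?_, hr.1⟩)
    · simpa using hδ
    · have h1 : 0 < sinh r := sinh_pos_iff.2 hr.1
      have h2 : 0 < χ r := χ.pos_of_mem_ball (by simpa [χ, abs_of_pos hr.1] using hr.2)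
      rw [Function.mem_support, hVe r hr.1.ne']
      exact mul_ne_zero (ENNReal.ofReal_pos.2 (by positivity)).ne' (ENNReal.ofReal_pos.2 h2).ne'
  have hJt : J ≠ ⊤ := by
    have hi : Integrable fun r : ℝ => 4 * π * sinh r ^ 2 * χ r :=
      Continuous.integrable_of_hasCompactSupport (by fun_prop) χ.hasCompactSupport.mul_left
    refine ne_top_of_le_ne_top hi.lintegral_lt_top.ne ?_
    refine le_trans (le_of_eq ?_) (setLIntegral_le_lintegral (Ioi 0) _)
    refine setLIntegral_congr_fun measurableSet_Ioi fun r hr => ?_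
    rw [hVe r (ne_of_gt hr), ← ENNReal.ofReal_mul (by positivity)]
  have hI : 0 < J.toReal := ENNReal.toReal_pos hJ0 hJt
  refine ⟨fun r => ((J.toReal⁻¹ * (χ r * sinh r) : ℝ) : ℂ), fun r => J.toReal⁻¹ * V r,
    Complex.ofRealCLM.contDiff.comp (f := fun r => J.toReal⁻¹ * (χ r * sinh r))
      (contDiff_const.mul (χ.contDiff.mul contDiff_sinh)), ?_, fun r => ?_,
    fun r => mul_nonneg (by positivity) (hV0 r), fun r hr => ?_, fun r => ?_, fun x => ?_⟩
  · exact (χ.hasCompactSupport.mul_right (f' := sinh)).mul_left.comp_left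
      (g := fun t : ℝ => (t : ℂ)) (by simp)
  · simp [χ.neg]
  · simp only
    rw [hVe r (hδ.trans_le hr).ne', χ.zero_of_le_dist
      (by simpa [χ, abs_of_pos (hδ.trans_le hr)] using hr), mul_zero]
  · by_cases hr : r = 0
    · simp [hr, V]
    · have : ((sinh r : ℝ) : ℂ) ≠ 0 := by exact_mod_cast sinh_ne_zero.2 hr
      simp only [hVe r hr]
      rw [div_eq_iff this]
      push_cast; ring
  · have hd : Measurable fun z => dst x z := measurable_dst.of_uncurry_left (f := dst)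
    have hm : Measurable fun z => V (dst x z) := hVm.comp hd
    have hi : Integrable (fun z => V (dst x z)) (hypVol E) := by
      refine ⟨hm.aestronglyMeasurable, ?_⟩
      rw [hasFiniteIntegral_iff_ofReal (Eventually.of_forall fun z => hV0 _), hJx]
      exact hJt.lt_top
    refine ⟨hi.const_mul _, ?_⟩
    rw [integral_const_mul, integral_eq_lintegral_of_nonneg_ae
      (Eventually.of_forall fun z => hV0 _) hm.aestronglyMeasurable, hJx,
      inv_mul_cancel₀ hI.ne']

lemma approx {f : E → ℂ} (hf : Continuous f) (hc : HasCompactSupport f) :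
    ∃ K : Set E, IsCompact K ∧ ∀ η > 0, ∃ G : ℝ → ℂ, ContDiff ℝ ∞ G ∧ HasCompactSupport G ∧
      (∀ r, G (-r) = -G r) ∧ ∀ x, ‖BB f G x - f x‖ ≤ K.indicator (fun _ => η) x := by
  obtain ⟨K, hK, h1, h2⟩ := uniform_dst hf hc
  refine ⟨K, hK, fun η hη => ?_⟩
  obtain ⟨δ, hδ, hδ1, h3⟩ := h2 η hη
  obtain ⟨G, W, g1, g2, g3, w0, w1, w2, w3⟩ := exists_profile (E := E) hδ
  refine ⟨G, g1, g2, g3, fun x => ?_⟩
  obtain ⟨C, hC⟩ := hc.exists_bound_of_continuous hf
  obtain ⟨i1, i2⟩ := w3 x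
  have i3 : Integrable (fun z => ((W (dst x z) : ℝ) : ℂ)) (hypVol E) := i1.ofReal
  have e : BB f G x - f x = ∫ z, (f z - f x) * (W (dst x z) : ℝ) ∂(hypVol E) := by
    simp_rw [sub_mul]
    rw [integral_sub (i3.bdd_mul hf.aestronglyMeasurable (Eventually.of_forall hC))
      (i3.const_mul _), integral_const_mul, integral_complex_ofReal, i2]
    simp only [BB, UU, w2, Complex.ofReal_one, mul_one]
  rw [e]
  refine (norm_integral_le_of_norm_le (i1.const_mul (K.indicator (fun _ => η) x))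
    (Eventually.of_forall fun z => ?_)).trans (by rw [integral_const_mul, i2, mul_one])
  rw [norm_mul, Complex.norm_real, Real.norm_of_nonneg (w0 _)]
  by_cases hd : dst x z < δ
  · refine mul_le_mul_of_nonneg_right ?_ (w0 _)
    by_cases hx : x ∈ K
    · rw [indicator_of_mem hx]; exact h3 x z hd
    · obtain ⟨a1, a2⟩ := h1 x z hx (hd.le.trans hδ1)
      simp [a1, a2, hx]
  · simp [w1 _ (not_lt.1 hd)]

end Pool.Agent.MP_e4fe74_an
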