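import Pool.Agent.MP_e4fe74_an.Norms

noncomputable section

namespace Pool.Agent.MP_e4fe74_an

open MeasureTheory Set Real Filter Topology FourierTransform SchwartzMap
open scoped ENNReal ContDiff

variable {E : Type} [NormedAddCommGroup E] [InnerProductSpace ℝ E] [FiniteDimensional ℝ E]
  [MeasurableSpace E] [BorelSpace E] [Fact (Module.finrank ℝ E = 3)]

set_option linter.unusedSectionVars false

/-- superposition of translated radial profiles -/
def BB (f : E → ℂ) (G : ℝ → ℂ) (x : E) : ℂ := ∫ z, f z * UU G x z ∂(hypVol E)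

lemma stronglyMeasurable_BB {f : E → ℂ} {G : ℝ → ℂ} (hf : Measurable f) (hG : Measurable G) :
    StronglyMeasurable (BB f G) := by
  have hU := measurable_UU (E := E) hG
  apply StronglyMeasurable.integral_prod_right (f := fun x z => f z * UU G x z)
  apply Measurable.stronglyMeasurable
  exact (hf.comp measurable_snd).mul hU

lemma young {p : ℝ} (hp : 1 < p) {f : E → ℂ} (hf : Measurable f) (hi : Integrable f (hypVol E)) :
    ∃ C : ℝ≥0∞, C ≠ ⊤ ∧ ∀ G : ℝ → ℂ, Measurable G →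
      ∫⁻ x, ‖BB f G x‖ₑ ^ p ∂(hypVol E) ≤ C * Nrm p G := by
  set A := ∫⁻ z, ‖f z‖ₑ ∂(hypVol E) with hA
  have hAt : A ≠ ⊤ := hi.2.ne
  have hp0 : 0 < p := by linarith
  have hq : 0 ≤ 1 - 1 / p := by rw [sub_nonneg, div_le_one hp0]; linarith
  refine ⟨(A ^ (1 - 1 / p)) ^ p * A, ENNReal.mul_ne_top
    (ENNReal.rpow_ne_top_of_nonneg hp0.le (ENNReal.rpow_ne_top_of_nonneg hq hAt)) hAt,
    fun G hG => ?_⟩
  have hU := measurable_UU (E := E) hG
  have hm : Measurable fun w : E × E => ‖f w.2‖ₑ * ‖UU G w.1 w.2‖ₑ ^ p :=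
    (hf.comp measurable_snd).enorm.mul (hU.enorm.pow_const p)
  have h1 : ∀ x, ‖BB f G x‖ₑ ^ p ≤ (A ^ (1 - 1 / p)) ^ p *
      ∫⁻ z, ‖f z‖ₑ * ‖UU G x z‖ₑ ^ p ∂(hypVol E) := by
    intro x
    have h2 := ENNReal.lintegral_mul_norm_pow_le (μ := hypVol E)
      (f := fun z => ‖f z‖ₑ * ‖UU G x z‖ₑ ^ p) (g := fun z => ‖f z‖ₑ)
      (hm.comp (measurable_prodMk_left (x := x))).aemeasurable hf.enorm.aemeasurable
      (p := 1 / p) (q := 1 - 1 / p) (by positivity) hq (by ring)
    have h3 : ∀ z, (‖f z‖ₑ * ‖UU G x z‖ₑ ^ p) ^ (1 / p) * ‖f z‖ₑ ^ (1 - 1 / p) =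
        ‖f z * UU G x z‖ₑ := by
      intro z
      rw [ENNReal.mul_rpow_of_nonneg _ _ (by positivity), ← ENNReal.rpow_mul,
        mul_one_div_cancel hp0.ne', ENNReal.rpow_one, mul_right_comm,
        ← ENNReal.rpow_add_of_nonneg _ _ (by positivity) hq, enorm_mul]
      simp
    simp_rw [h3] at h2
    have h4 := (enorm_integral_le_lintegral_enorm (μ := hypVol E)
      (fun z => f z * UU G x z)).trans h2
    refine (ENNReal.rpow_le_rpow h4 hp0.le).trans (le_of_eq ?_)
    rw [ENNReal.mul_rpow_of_nonneg _ _ hp0.le, ← ENNReal.rpow_mul, one_div_mul_cancel hp0.ne',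
      ENNReal.rpow_one, mul_comm]
  refine (lintegral_mono h1).trans (le_of_eq ?_)
  rw [lintegral_const_mul _ hm.lintegral_prod_right', mul_assoc]
  congr 1
  rw [lintegral_lintegral_swap hm.aemeasurable, hA, ← lintegral_mul_const _ hf.enorm]
  congr 1
  ext z
  rw [← lintegral_UU p hG z]
  have h5 : Measurable fun x => ‖UU G x z‖ₑ ^ p :=
    (hU.comp (measurable_prodMk_right (y := z))).enorm.pow_const p
  exact lintegral_const_mul (‖f z‖ₑ) h5

lemma norm_UU_le {G : ℝ → ℂ} {C b : ℝ} (hC : 0 ≤ C) (hb : b ≤ 1)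
    (h : ∀ r, ‖G r‖ ≤ C * sinh (b * |r|)) (x z : E) : ‖UU G x z‖ ≤ C := by
  have h0 := dst_nonneg x z
  have h1 : 0 ≤ sinh (dst x z) := sinh_nonneg_iff.2 h0
  rw [UU, norm_div, Complex.norm_real, Real.norm_of_nonneg h1]
  apply div_le_of_le_mul₀ h1 hC
  exact (h _).trans (mul_le_mul_of_nonneg_left (sinh_mul_le hb h0) hC)

lemma integrable_BB {f : E → ℂ} (hi : Integrable f (hypVol E)) {G : ℝ → ℂ} (hG : Measurable G)
    {C b : ℝ} (hC : 0 ≤ C) (hb : b ≤ 1) (h : ∀ r, ‖G r‖ ≤ C * sinh (b * |r|)) (x : E) :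
    Integrable (fun z => f z * UU G x z) (hypVol E) :=
  hi.mul_bdd ((measurable_UU hG).comp (measurable_prodMk_left (x := x))).aestronglyMeasurable
    (Eventually.of_forall fun z => norm_UU_le hC hb h x z)

lemma cv_sinh {k b : ℝ} (hk : 0 < k) (hb0 : 0 ≤ b) (hb : b ≤ k / 2) (s : ℝ) :
    ‖cv k (fun r => ((sinh (b * r) : ℝ) : ℂ)) s‖ ≤ 2 * sinh (b * |s|) := by
  have e : ∀ r : ℝ, ((sinh (b * r) : ℝ) : ℂ) = -Complex.I * Complex.sin (b * Complex.I * r) := by
    intro r
    rw [mul_right_comm, Complex.sin_mul_I]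
    push_cast
    linear_combination (Complex.sinh (b * r)) * Complex.I_mul_I
  have him : |((b : ℂ) * Complex.I).im| ≤ k / 2 := by simpa [abs_of_nonneg hb0] using hb
  have h1 : cv k (fun r => ((sinh (b * r) : ℝ) : ℂ)) s =
      sg k (b * Complex.I) * ((sinh (b * s) : ℝ) : ℂ) := by
    unfold cv
    simp_rw [e, mul_left_comm _ (-Complex.I)]
    rw [integral_const_mul, cv_sin hk (by linarith)]
  rw [h1, norm_mul, Complex.norm_real, Real.norm_eq_abs, abs_sinh, abs_mul, abs_of_nonneg hb0]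
  have : 0 ≤ sinh (b * |s|) := sinh_nonneg_iff.2 (by positivity)
  gcongr
  exact norm_sg_le hk him

lemma integral_norm_KU {k b C : ℝ} (hk : 0 < k) (hb0 : 0 ≤ b) (hb : b ≤ k / 2) (hb1 : b ≤ 1)
    (hC : 0 ≤ C) {G : ℝ → ℂ} (h : ∀ r, ‖G r‖ ≤ C * sinh (b * |r|)) {y z : E} (hyz : y ≠ z) :
    ∫ x, ‖(KK k y x : ℂ) * UU G x z‖ ∂(hypVol E) ≤ C * 2 := by
  obtain ⟨h1, h2⟩ := radial_conv (C := 1) hk hb0 (by linarith : b < k)
    (F := fun r => ((sinh (b * r) : ℝ) : ℂ)) (by fun_prop) (fun r => by simp) (fun r => by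
      rw [Complex.norm_real, Real.norm_eq_abs, abs_sinh, abs_mul, abs_of_nonneg hb0, one_mul]
      exact sinh_le_exp _) hyz
  have e : ∀ x, (KK k y x : ℂ) * UU (fun r => ((sinh (b * r) : ℝ) : ℂ)) x z =
      ((KK k y x * (sinh (b * dst x z) / sinh (dst x z)) : ℝ) : ℂ) := by
    intro x; simp [UU]
  simp_rw [e] at h1 h2
  rw [integral_complex_ofReal] at h2
  have h3 := norm_UU_le (by norm_num) hb1 (cv_sinh hk hb0 hb) y z
  rw [← h2] at h3
  have h4 : ∫ x, KK k y x * (sinh (b * dst x z) / sinh (dst x z)) ∂(hypVol E) ≤ 2 := by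
    refine le_trans (le_abs_self _) (le_trans (le_of_eq ?_) h3)
    exact (Complex.norm_real _).symm
  have h5 : Integrable (fun x => KK k y x * (sinh (b * dst x z) / sinh (dst x z))) (hypVol E) := by
    exact h1.re
  calc _ ≤ ∫ x, C * (KK k y x * (sinh (b * dst x z) / sinh (dst x z))) ∂(hypVol E) := by
        refine integral_mono_of_nonneg (Eventually.of_forall fun x => norm_nonneg _)
          (h5.const_mul C) (Eventually.of_forall fun x => ?_)
        have h0 := dst_nonneg x z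
        have h1 : 0 ≤ sinh (dst x z) := sinh_nonneg_iff.2 h0
        have h6 := h (dst x z)
        rw [abs_of_nonneg h0] at h6
        have h7 := KK_nonneg k y x
        simp only [UU, norm_mul, norm_div, Complex.norm_real, Real.norm_of_nonneg h1,
          Real.norm_of_nonneg h7]
        calc _ ≤ KK k y x * (C * sinh (b * dst x z) / sinh (dst x z)) := by gcongr
          _ = _ := by ring
    _ ≤ _ := by rw [integral_const_mul]; gcongr

lemma Sf_BB {k b C : ℝ} (hk : 0 < k) (hb0 : 0 ≤ b) (hb : b ≤ k / 2) (hb1 : b ≤ 1)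
    (hC : 0 ≤ C) {G : ℝ → ℂ} (hG : Measurable G) (hodd : ∀ r, G (-r) = -G r)
    (h : ∀ r, ‖G r‖ ≤ C * sinh (b * |r|)) {f : E → ℂ} (hf : Measurable f)
    (hi : Integrable f (hypVol E)) : Sf k (BB f G) = BB f (cv k G) := by
  ext y
  have hU := measurable_UU (E := E) hG
  have hK := measurable_KK_right (E := E) k y
  have hexp : ∀ r, ‖G r‖ ≤ C * exp (b * |r|) := fun r =>
    (h r).trans (mul_le_mul_of_nonneg_left (sinh_le_exp _) hC)
  have hae : ∀ᵐ z ∂(hypVol E), y ≠ z := by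
    have : ∀ᵐ z ∂(hypVol E), z ∉ ({y} : Set E) := compl_mem_ae_iff.2 (measure_singleton y)
    filter_upwards [this] with z hz using fun h => hz h.symm
  have hm : Measurable fun w : E × E => f w.2 * ((KK k y w.1 : ℂ) * UU G w.1 w.2) :=
    (hf.comp measurable_snd).mul
      ((Complex.measurable_ofReal.comp (hK.comp measurable_fst)).mul hU)
  have hI : Integrable (fun w : E × E => f w.2 * ((KK k y w.1 : ℂ) * UU G w.1 w.2))
      ((hypVol E).prod (hypVol E)) := by
    rw [integrable_prod_iff' hm.aestronglyMeasurable]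
    constructor
    · filter_upwards [hae] with z hz
      exact (radial_conv hk hb0 (by linarith) hG hodd hexp hz).1.const_mul _
    · refine (hi.norm.mul_const (C * 2)).mono'
        (hm.stronglyMeasurable.norm.integral_prod_left').aestronglyMeasurable ?_
      filter_upwards [hae] with z hz
      rw [Real.norm_of_nonneg (integral_nonneg fun x => norm_nonneg _)]
      simp_rw [norm_mul (f z)]
      rw [integral_const_mul]
      gcongr
      exact integral_norm_KU hk hb0 hb hb1 hC h hz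
  unfold Sf BB
  simp_rw [← integral_const_mul, mul_left_comm _ (f _)]
  rw [integral_integral_swap hI]
  apply integral_congr_ae
  filter_upwards [hae] with z hz
  rw [integral_const_mul, (radial_conv hk hb0 (by linarith) hG hodd hexp hz).2]

section Op

variable {p : ℝ≥0∞} [Fact (1 ≤ p)]

/-- the hypercyclic operator -/
def Top (h2 : 2 < p) (ht : p ≠ ⊤) : Lp ℂ p (hypVol E) →L[ℂ] Lp ℂ p (hypVol E) :=
  ContinuousLinearMap.id ℂ _ - (Sop h2 ht).comp (Sop h2 ht)

lemma kp_pos (h2 : 2 < p) (ht : p ≠ ⊤) : 0 < kp p := by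
  have hp := two_lt_toReal h2 ht
  have : 2 / p.toReal < 1 := by rw [div_lt_one (by linarith)]; exact hp
  unfold kp; linarith

lemma kp_half_le : kp p / 2 ≤ 1 := by
  have : 0 ≤ 2 / p.toReal := by positivity
  unfold kp; linarith

lemma coeFn_Top (h2 : 2 < p) (ht : p ≠ ⊤) (F : Lp ℂ p (hypVol E)) {f : E → ℂ}
    (h : F =ᵐ[hypVol E] f) :
    Top h2 ht F =ᵐ[hypVol E] fun x => f x - Sf (kp p) (Sf (kp p) f) x := by
  have h1 := coeFn_Sop h2 ht _ (coeFn_Sop h2 ht F h)
  filter_upwards [Lp.coeFn_sub F (Sop h2 ht (Sop h2 ht F)), h, h1] with x a b c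
  rw [← b, ← c]
  exact a

lemma Sf_BB_WP {k β : ℝ} (hk : 0 < k) (hk1 : k / 2 ≤ 1) (hβ : |β| ≤ k / 2) {a : ℝ → ℂ}
    (ha : Good a) {f : E → ℂ} (hf : Measurable f) (hi : Integrable f (hypVol E)) :
    Sf k (BB f (WP β a)) = BB f (WP β fun x => sg k (lam β x) * a x) := by
  have := NA_nonneg a
  rw [Sf_BB hk (half_pos hk).le le_rfl hk1 (by positivity) (measurable_WP ha.meas β)
    (WP_neg β a) (norm_WP_le ha (half_pos hk) hβ) hf hi, cv_WP hk hβ ha]

lemma Top_BB (h2 : 2 < p) (ht : p ≠ ⊤) {β : ℝ} (hβ : |β| ≤ kp p / 2) {a : ℝ → ℂ} (ha : Good a)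
    {f : E → ℂ} (hf : Measurable f) (hi : Integrable f (hypVol E)) (F : Lp ℂ p (hypVol E))
    (h : F =ᵐ[hypVol E] BB f (WP β a)) :
    Top h2 ht F =ᵐ[hypVol E] BB f (WP β fun x => mm (kp p) (lam β x) * a x) := by
  have hk := kp_pos h2 ht
  have hs : Measurable fun x => sg (kp p) (lam β x) :=
    (measurable_sg _).comp (continuous_lam β).measurable
  have hs2 : ∀ x, ‖sg (kp p) (lam β x)‖ ≤ 2 := fun x => norm_sg_le hk (by rwa [lam_im])
  have ha1 := ha.mul hs hs2
  have ha2 := ha1.mul hs hs2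
  refine (coeFn_Top h2 ht F h).trans (Eventually.of_forall fun x => ?_)
  simp only
  rw [Sf_BB_WP hk kp_half_le hβ ha hf hi, Sf_BB_WP hk kp_half_le hβ ha1 hf hi]
  have n0 := NA_nonneg a
  have n2 := NA_nonneg fun x => sg (kp p) (lam β x) * (sg (kp p) (lam β x) * a x)
  unfold BB
  rw [← integral_sub (integrable_BB hi (measurable_WP ha.meas β) (by positivity) kp_half_le
    (norm_WP_le ha (half_pos hk) hβ) x) (integrable_BB hi (measurable_WP ha2.meas β)
    (by positivity) kp_half_le (norm_WP_le ha2 (half_pos hk) hβ) x)]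
  congr 1
  ext z
  have e : (fun x => mm (kp p) (lam β x) * a x) =
      fun x => a x - sg (kp p) (lam β x) * (sg (kp p) (lam β x) * a x) := by
    ext x; unfold mm; ring
  rw [e, UU, UU, UU, WP_sub ha ha2]
  ring

lemma good_pow (h2 : 2 < p) (ht : p ≠ ⊤) {β : ℝ} (hβ : |β| ≤ kp p / 2) {a : ℝ → ℂ} (ha : Good a)
    (n : ℕ) : Good fun x => mm (kp p) (lam β x) ^ n * a x :=
  ha.mul (((measurable_mm _).comp (continuous_lam β).measurable).pow_const n) (C := 1) fun x => by
    rw [norm_pow]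
    exact pow_le_one₀ (norm_nonneg _) (norm_mm_le (kp_pos h2 ht) (by rwa [lam_im]))

lemma Top_iterate_BB (h2 : 2 < p) (ht : p ≠ ⊤) {β : ℝ} (hβ : |β| ≤ kp p / 2) {a : ℝ → ℂ}
    (ha : Good a) {f : E → ℂ} (hf : Measurable f) (hi : Integrable f (hypVol E))
    (F : Lp ℂ p (hypVol E)) (h : F =ᵐ[hypVol E] BB f (WP β a)) (n : ℕ) :
    (Top h2 ht)^[n] F =ᵐ[hypVol E] BB f (WP β fun x => mm (kp p) (lam β x) ^ n * a x) := by
  induction n with
  | zero => simpa using h
  | succ n ih =>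
    rw [Function.iterate_succ_apply']
    have := Top_BB h2 ht hβ (good_pow h2 ht hβ ha n) hf hi _ ih
    simpa only [pow_succ', mul_assoc] using this

end Op

end Pool.Agent.MP_e4fe74_an
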