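import Pool.Agent.MP_e4fe74_an.Geom

noncomputable section

namespace Pool.Agent.MP_e4fe74_an

open MeasureTheory Set Real
open scoped ENNReal

variable {E : Type} [NormedAddCommGroup E] [InnerProductSpace ℝ E] [FiniteDimensional ℝ E]
  [MeasurableSpace E] [BorelSpace E] [Fact (Module.finrank ℝ E = 3)]

set_option linter.unusedSectionVars false

lemma measurePreserving_coords :
    MeasurePreserving (fun x : E => ((onb E).repr x 0, ((onb E).repr x 1, (onb E).repr x 2))) volume
      (volume : Measure (ℝ × (ℝ × ℝ))) := by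
  have h0 := (onb E).measurePreserving_repr
  have h1 := PiLp.volume_preserving_ofLp (Fin 3)
  have h2 := volume_preserving_piFinSuccAbove (fun _ : Fin 3 => ℝ) 0
  have h3 := (MeasurePreserving.id (volume : Measure ℝ)).prod (volume_preserving_finTwoArrow ℝ)
  exact h3.comp (h2.comp (h1.comp h0))

lemma lintegral_radial_two (G : ℝ → ℝ≥0∞) (hG : Measurable G) :
    ∫⁻ q : ℝ × ℝ, G (q.1 ^ 2 + q.2 ^ 2) =
      ENNReal.ofReal (2 * π) * ∫⁻ r in Ioi (0 : ℝ), ENNReal.ofReal r * G (r ^ 2) := by
  rw [← lintegral_comp_polarCoord_symm, polarCoord_target]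
  have : ∀ p : ℝ × ℝ, ENNReal.ofReal p.1 • G ((polarCoord.symm p).1 ^ 2 + (polarCoord.symm p).2 ^ 2)
      = ENNReal.ofReal p.1 * G (p.1 ^ 2) := by
    intro p
    simp only [polarCoord_symm_apply, smul_eq_mul]
    congr 2
    nlinarith [sin_sq_add_cos_sq p.2]
  simp_rw [this]
  rw [Measure.volume_eq_prod, ← Measure.prod_restrict, lintegral_prod _ (by fun_prop)]
  simp only [lintegral_const, MeasurableSet.univ, Measure.restrict_apply, univ_inter,
    Real.volume_Ioo]
  rw [lintegral_mul_const _ (by fun_prop), mul_comm]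
  congr 2; ring

lemma lintegral_sqrt_subst (c : ℝ) (hc : 0 < c) (G : ℝ → ℝ≥0∞) :
    ∫⁻ r in Ioi (0 : ℝ), ENNReal.ofReal r * (ENNReal.ofReal (√(c + r ^ 2))⁻¹ * G (√(c + r ^ 2))) =
      ∫⁻ t in Ioi (√c), G t := by
  have himg : (fun r : ℝ => √(c + r ^ 2)) '' Ioi 0 = Ioi (√c) := by
    ext t
    simp only [mem_image, mem_Ioi]
    constructor
    · rintro ⟨r, hr, rfl⟩
      apply Real.sqrt_lt_sqrt hc.le; nlinarith
    · intro ht
      have h0 : 0 < t := lt_of_le_of_lt (Real.sqrt_nonneg _) ht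
      have h1 : c < t ^ 2 := (Real.sqrt_lt' h0).1 ht
      refine ⟨√(t ^ 2 - c), Real.sqrt_pos.2 (by linarith), ?_⟩
      rw [Real.sq_sqrt (by linarith)]
      simp [h0.le]
  have hd : ∀ r ∈ Ioi (0 : ℝ), HasDerivWithinAt (fun r : ℝ => √(c + r ^ 2))
      (r * (√(c + r ^ 2))⁻¹) (Ioi 0) r := by
    intro r _
    have h1 : HasDerivAt (fun r : ℝ => c + r ^ 2) (2 * r) r := by
      simpa using (hasDerivAt_pow 2 r).const_add c
    have h2 := h1.sqrt (by positivity)
    refine (h2.congr_deriv ?_).hasDerivWithinAt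
    have : 0 < √(c + r ^ 2) := Real.sqrt_pos.2 (by positivity)
    field_simp
  have hinj : InjOn (fun r : ℝ => √(c + r ^ 2)) (Ioi 0) := by
    intro a ha b hb hab
    have h := Real.sqrt_inj (by positivity) (by positivity) |>.1 hab
    have : a ^ 2 = b ^ 2 := by linarith
    exact (pow_left_inj₀ (le_of_lt ha) (le_of_lt hb) two_ne_zero).1 this
  rw [← himg, lintegral_image_eq_lintegral_abs_deriv_mul measurableSet_Ioi hd hinj]
  apply setLIntegral_congr_fun measurableSet_Ioi
  intro r hr
  have hr' : 0 < r := hr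
  simp only
  rw [abs_of_nonneg (by positivity), ENNReal.ofReal_mul hr'.le, mul_assoc]

/-- The region filled by `(x0, ⟪e,x⟫)`. -/
def regD : Set (ℝ × ℝ) := {q | 0 < q.1 ∧ 1 + q.2 ^ 2 < q.1 ^ 2}

lemma measurableSet_regD : MeasurableSet regD := by
  unfold regD
  exact (measurableSet_lt measurable_const measurable_fst).inter
    (measurableSet_lt (f := fun q : ℝ × ℝ => 1 + q.2 ^ 2) (g := fun q : ℝ × ℝ => q.1 ^ 2)
      (by fun_prop) (by fun_prop))

lemma lintegral_cyl_zero (F : ℝ × ℝ → ℝ≥0∞) (hF : Measurable F) :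
    ∫⁻ x : E, F (x0 x, (onb E).repr x 0) ∂(hypVol E) =
      ENNReal.ofReal (2 * π) * ∫⁻ q in regD, F q := by
  have hx0 : Measurable (x0 : E → ℝ) := continuous_x0.measurable
  rw [lintegral_hypVol _ (by fun_prop)]
  let G : ℝ × (ℝ × ℝ) → ℝ≥0∞ := fun q =>
    ENNReal.ofReal (√(1 + q.1 ^ 2 + (q.2.1 ^ 2 + q.2.2 ^ 2)))⁻¹ *
      F (√(1 + q.1 ^ 2 + (q.2.1 ^ 2 + q.2.2 ^ 2)), q.1)
  have hG : Measurable G := by unfold G; fun_prop
  have h1 : ∀ x : E, ENNReal.ofReal (x0 x)⁻¹ * F (x0 x, (onb E).repr x 0) =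
      G ((onb E).repr x 0, ((onb E).repr x 1, (onb E).repr x 2)) := by
    intro x
    have : x0 x = √(1 + (onb E).repr x 0 ^ 2 + ((onb E).repr x 1 ^ 2 + (onb E).repr x 2 ^ 2)) := by
      unfold x0
      rw [← (onb E).repr.norm_map, EuclideanSpace.real_norm_sq_eq, Fin.sum_univ_three]
      congr 1; ring
    simp only [G, this]
  simp_rw [h1]
  rw [measurePreserving_coords.lintegral_comp hG, Measure.volume_eq_prod,
    lintegral_prod _ hG.aemeasurable]
  have h2 : ∀ s : ℝ, ∫⁻ q : ℝ × ℝ, G (s, q) =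
      ENNReal.ofReal (2 * π) * ∫⁻ t, regD.indicator F (t, s) := by
    intro s
    have := lintegral_radial_two (fun u => ENNReal.ofReal (√(1 + s ^ 2 + u))⁻¹ *
      F (√(1 + s ^ 2 + u), s)) (by fun_prop)
    simp only [G]
    rw [this, lintegral_sqrt_subst (1 + s ^ 2) (by positivity) (fun t => F (t, s)),
      ← lintegral_indicator measurableSet_Ioi]
    congr 2
    ext t
    have : t ∈ Ioi (√(1 + s ^ 2)) ↔ (t, s) ∈ regD := by
      simp only [mem_Ioi, regD, mem_ofPred_eq]
      constructor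
      · intro ht
        have h0 : 0 < t := lt_of_le_of_lt (Real.sqrt_nonneg _) ht
        exact ⟨h0, (Real.sqrt_lt' h0).1 ht⟩
      · rintro ⟨h0, h⟩
        exact (Real.sqrt_lt' h0).2 h
    by_cases h : (t, s) ∈ regD
    · rw [indicator_of_mem h, indicator_of_mem (this.2 h)]
    · rw [indicator_of_notMem h, indicator_of_notMem (fun h' => h (this.1 h'))]
  simp_rw [h2]
  have hI : Measurable (regD.indicator F) := hF.indicator measurableSet_regD
  rw [lintegral_const_mul _ (by fun_prop), ← lintegral_indicator measurableSet_regD,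
    Measure.volume_eq_prod, lintegral_prod_symm _ hI.aemeasurable]

lemma lintegral_cyl {e : E} (he : ‖e‖ = 1) (F : ℝ × ℝ → ℝ≥0∞) (hF : Measurable F) :
    ∫⁻ x : E, F (x0 x, inner ℝ e x) ∂(hypVol E) = ENNReal.ofReal (2 * π) * ∫⁻ q in regD, F q := by
  have hx0 : Measurable (x0 : E → ℝ) := continuous_x0.measurable
  rw [← lintegral_cyl_zero (E := E) F hF, lintegral_hypVol _ (by fun_prop),
    lintegral_hypVol _ (by fun_prop)]
  let e0 : E := onb E 0
  have he0 : ‖e0‖ = ‖e‖ := by simp [e0, he]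
  let R := Submodule.reflection (ℝ ∙ (e0 - e))ᗮ
  have hR : R e0 = e := Submodule.reflection_sub he0
  rw [← R.measurePreserving.lintegral_comp (by fun_prop)]
  congr 1
  ext x
  have h1 : x0 (R x) = x0 x := by simp [x0]
  have h2 : inner ℝ e (R x) = (onb E).repr x 0 := by
    rw [← hR, R.inner_map_map, (onb E).repr_apply_apply]
  rw [h1, h2]

lemma lintegral_cosh_subst (a : ℝ) (ha : 0 ≤ a) (G : ℝ → ℝ≥0∞) :
    ∫⁻ t in Ioi (cosh a), G t = ∫⁻ r in Ioi a, ENNReal.ofReal (sinh r) * G (cosh r) := by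
  have himg : cosh '' Ioi a = Ioi (cosh a) := by
    ext t
    simp only [mem_image, mem_Ioi]
    constructor
    · rintro ⟨r, hr, rfl⟩
      rw [cosh_lt_cosh, abs_of_nonneg ha, abs_of_nonneg (by linarith)]; exact hr
    · intro ht
      have h1 : 1 ≤ t := (one_le_cosh a).trans ht.le
      refine ⟨arcosh t, ?_, cosh_arcosh h1⟩
      rw [← cosh_arcosh h1, cosh_lt_cosh, abs_of_nonneg ha, abs_of_nonneg (arcosh_nonneg h1)] at ht
      exact ht
  have hinj : InjOn cosh (Ioi a) := cosh_injOn.mono fun x hx => ha.trans (le_of_lt hx)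
  rw [← himg, lintegral_image_eq_lintegral_abs_deriv_mul measurableSet_Ioi
    (fun r _ => (hasDerivAt_cosh r).hasDerivWithinAt) hinj]
  apply setLIntegral_congr_fun measurableSet_Ioi
  intro r hr
  have : 0 ≤ sinh r := sinh_nonneg_iff.2 (ha.trans (le_of_lt hr))
  simp only
  rw [abs_of_nonneg this]

lemma lintegral_regD_polar (F : ℝ × ℝ → ℝ≥0∞) (hF : Measurable F) :
    ∫⁻ q in regD, F q = ∫⁻ r in Ioi (0 : ℝ), ENNReal.ofReal (sinh r) *
      ∫⁻ s in Ioo (-sinh r) (sinh r), F (cosh r, s) := by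
  have hI : Measurable (regD.indicator F) := hF.indicator measurableSet_regD
  rw [← lintegral_indicator measurableSet_regD, Measure.volume_eq_prod,
    lintegral_prod _ hI.aemeasurable]
  have h1 : ∀ t : ℝ, ∫⁻ s, regD.indicator F (t, s) =
      (Ioi (cosh 0)).indicator (fun t => ∫⁻ s, regD.indicator F (t, s)) t := by
    intro t
    by_cases h : t ∈ Ioi (cosh 0)
    · rw [indicator_of_mem h]
    · rw [indicator_of_notMem h]
      have : ∀ s, regD.indicator F (t, s) = 0 := by
        intro s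
        apply indicator_of_notMem
        rintro ⟨h0, h2⟩
        apply h
        simp only [cosh_zero, mem_Ioi] at *
        nlinarith [sq_nonneg s]
      simp [this]
  rw [lintegral_congr h1, lintegral_indicator measurableSet_Ioi, lintegral_cosh_subst 0 le_rfl]
  apply setLIntegral_congr_fun measurableSet_Ioi
  intro r hr
  have hr' : 0 < sinh r := sinh_pos_iff.2 hr
  simp only
  congr 1
  rw [← lintegral_indicator measurableSet_Ioo]
  congr 1
  ext s
  have : s ∈ Ioo (-sinh r) (sinh r) ↔ (cosh r, s) ∈ regD := by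
    simp only [mem_Ioo, regD, mem_ofPred_eq, cosh_sq']
    rw [← abs_lt, ← sq_lt_sq₀ (abs_nonneg _) hr'.le, sq_abs]
    constructor
    · intro h; exact ⟨cosh_pos r, by linarith⟩
    · intro h; linarith [h.2]
  by_cases h : (cosh r, s) ∈ regD
  · rw [indicator_of_mem h, indicator_of_mem (this.2 h)]
  · rw [indicator_of_notMem h, indicator_of_notMem (fun h' => h (this.1 h'))]

lemma lintegral_regD_horo (F : ℝ × ℝ → ℝ≥0∞) (hF : Measurable F) :
    ∫⁻ q in regD, F q = ∫⁻ v : ℝ, ENNReal.ofReal (exp v) *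
      ∫⁻ t in Ioi (cosh v), F (t, t - exp v) := by
  have hI : Measurable (regD.indicator F) := hF.indicator measurableSet_regD
  have hmp : MeasurePreserving (fun z : ℝ × ℝ => (z.2, z.2 - z.1)) volume volume := by
    have h1 := measurePreserving_prod_sub_swap (volume : Measure ℝ) (volume : Measure ℝ)
    have h2 := (MeasurePreserving.id (volume : Measure ℝ)).prod
      (Measure.measurePreserving_neg (volume : Measure ℝ))
    have h3 := h2.comp h1
    refine h3.congr (by fun_prop) (Filter.Eventually.of_forall fun z => ?_)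
    simp
  rw [← lintegral_indicator measurableSet_regD, ← hmp.lintegral_comp hI, Measure.volume_eq_prod,
    lintegral_prod _ (by fun_prop)]
  have h1 : ∀ w : ℝ, ∫⁻ t, regD.indicator F (t, t - w) =
      (Ioi 0).indicator (fun w => ∫⁻ t, regD.indicator F (t, t - w)) w := by
    intro w
    by_cases h : w ∈ Ioi (0 : ℝ)
    · rw [indicator_of_mem h]
    · rw [indicator_of_notMem h]
      have : ∀ t, regD.indicator F (t, t - w) = 0 := by
        intro t
        apply indicator_of_notMem
        rintro ⟨h0, h2⟩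
        apply h
        simp only [mem_Ioi] at *
        by_contra hw
        push Not at hw
        nlinarith [sq_nonneg w]
      simp [this]
  rw [lintegral_congr h1, lintegral_indicator measurableSet_Ioi, ← Real.range_exp, ← image_univ,
    lintegral_image_eq_lintegral_abs_deriv_mul MeasurableSet.univ
    (fun r _ => (hasDerivAt_exp r).hasDerivWithinAt) exp_injective.injOn, Measure.restrict_univ]
  congr 1
  ext v
  have hv := exp_pos v
  rw [abs_of_pos hv]
  congr 1
  rw [← lintegral_indicator measurableSet_Ioi]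
  congr 1
  ext t
  have : t ∈ Ioi (cosh v) ↔ (t, t - exp v) ∈ regD := by
    simp only [mem_Ioi, regD, mem_ofPred_eq, cosh_eq, exp_neg]
    have e1 : exp v * (exp v)⁻¹ = 1 := mul_inv_cancel₀ hv.ne'
    have hv' : 0 < (exp v)⁻¹ := inv_pos.2 hv
    constructor
    · intro h
      refine ⟨by linarith, ?_⟩
      nlinarith
    · rintro ⟨h0, h⟩
      by_contra hc
      push Not at hc
      nlinarith
  by_cases h : (t, t - exp v) ∈ regD
  · rw [indicator_of_mem h, indicator_of_mem (this.2 h)]
  · rw [indicator_of_notMem h, indicator_of_notMem (fun h' => h (this.1 h'))]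

lemma measurable_arcosh : Measurable arcosh := by
  unfold arcosh; fun_prop

/-- Polar coordinates. -/
lemma lintegral_rad (G : ℝ → ℝ≥0∞) (hG : Measurable G) :
    ∫⁻ x : E, G (arcosh (x0 x)) ∂(hypVol E) =
      ∫⁻ r in Ioi (0 : ℝ), ENNReal.ofReal (4 * π * sinh r ^ 2) * G r := by
  have ha := measurable_arcosh
  have := lintegral_cyl_zero (E := E) (fun q => G (arcosh q.1)) (by fun_prop)
  simp only at this
  rw [this, lintegral_regD_polar _ (by fun_prop), ← lintegral_const_mul' _ _ ENNReal.ofReal_ne_top]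
  apply setLIntegral_congr_fun measurableSet_Ioi
  intro r hr
  have hr' : 0 < sinh r := sinh_pos_iff.2 hr
  simp only [lintegral_const, MeasurableSet.univ, Measure.restrict_apply, univ_inter,
    Real.volume_Ioo, arcosh_cosh (le_of_lt hr)]
  rw [mul_comm (G r), ← mul_assoc, ← mul_assoc, ← ENNReal.ofReal_mul (by positivity),
    ← ENNReal.ofReal_mul (by positivity)]
  congr 2; ring

/-- Transfer of a push-forward identity from lower integrals to Bochner integrals. -/
lemma transfer {α β : Type*} [MeasurableSpace α] [MeasurableSpace β] {μ : Measure α}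
    {ν : Measure β} {φ : α → β} (hφ : Measurable φ) {w₁ : α → ℝ} {w₂ : β → ℝ}
    (h₁ : Measurable w₁) (h₂ : Measurable w₂) (p₁ : ∀ x, 0 ≤ w₁ x) (p₂ : ∀ᵐ x ∂ν, 0 ≤ w₂ x)
    (h : ∀ G : β → ℝ≥0∞, Measurable G →
      ∫⁻ x, ENNReal.ofReal (w₁ x) * G (φ x) ∂μ = ∫⁻ y, ENNReal.ofReal (w₂ y) * G y ∂ν)
    (G : β → ℂ) (hG : Measurable G) (hi : Integrable (fun y => (w₂ y : ℂ) * G y) ν) :
    Integrable (fun x => (w₁ x : ℂ) * G (φ x)) μ ∧
      ∫ x, (w₁ x : ℂ) * G (φ x) ∂μ = ∫ y, (w₂ y : ℂ) * G y ∂ν := by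
  have m1 : Measurable fun x => (w₁ x).toNNReal := h₁.real_toNNReal
  have m2 : Measurable fun x => (w₂ x).toNNReal := h₂.real_toNNReal
  have hmap : (μ.withDensity fun x => ((w₁ x).toNNReal : ℝ≥0∞)).map φ =
      ν.withDensity fun x => ((w₂ x).toNNReal : ℝ≥0∞) := by
    apply Measure.ext_of_lintegral
    intro G hG
    rw [lintegral_map hG hφ, lintegral_withDensity_eq_lintegral_mul _ (by fun_prop) hG,
      lintegral_withDensity_eq_lintegral_mul _ (by fun_prop) (by fun_prop)]
    exact h G hG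
  have e1 : (fun x => (w₁ x : ℂ) * G (φ x)) = fun x => (w₁ x).toNNReal • G (φ x) := by
    ext x; rw [NNReal.smul_def, Real.coe_toNNReal _ (p₁ x), Complex.real_smul]
  have e2 : (fun x => (w₂ x : ℂ) * G x) =ᵐ[ν] fun x => (w₂ x).toNNReal • G x := by
    filter_upwards [p₂] with x hx
    rw [NNReal.smul_def, Real.coe_toNNReal _ hx, Complex.real_smul]
  rw [e1, integral_congr_ae e2]
  have hi2 : Integrable G (ν.withDensity fun x => ((w₂ x).toNNReal : ℝ≥0∞)) :=
    (integrable_withDensity_iff_integrable_smul m2).2 (hi.congr e2)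
  constructor
  · rw [← hmap] at hi2
    exact (integrable_withDensity_iff_integrable_smul m1).1 (hi2.comp_measurable hφ)
  · rw [← integral_withDensity_eq_integral_smul m1, ← integral_withDensity_eq_integral_smul m2,
      ← hmap, integral_map hφ.aemeasurable hG.aestronglyMeasurable]

end Pool.Agent.MP_e4fe74_an
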