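import Mathlib

/-!
Real hyperbolic space in the hyperboloid model over a Euclidean space `E`, read in the global
chart `x ↦ (√(1+‖x‖²), x)` of the upper sheet.
-/

noncomputable section

namespace Pool.Agent.MP_e4fe74_an

open MeasureTheory

variable {E : Type} [NormedAddCommGroup E] [InnerProductSpace ℝ E]

/-- The point of the upper sheet of the hyperboloid above `x`. -/
def lift (x : E) : ℝ × E := (√(1 + ‖x‖ ^ 2), x)

/-- The Lorentz form. -/
def lor (u v : ℝ × E) : ℝ := u.1 * v.1 - inner ℝ u.2 v.2

/-- The orthochronous Lorentz group, the isometry group of hyperbolic space. -/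
def IsLorentz (g : (ℝ × E) →ₗ[ℝ] (ℝ × E)) : Prop :=
  (∀ u v, lor (g u) (g v) = lor u v) ∧ 0 < (g (1, 0)).1

/-- The action of a Lorentz transformation in the chart. -/
def act (g : (ℝ × E) →ₗ[ℝ] (ℝ × E)) (x : E) : E := (g (lift x)).2

/-- The kernel `exp ((-i l + ρ) A(x,b))` of the Helgason Fourier transform in dimension three,
where `ρ = 1`. -/
def helgasonKernel (l : ℂ) (b x : E) : ℂ :=
  ((lor (lift x) (1, b) : ℝ) : ℂ) ^ (Complex.I * l - 1)

/-- The invariant measure `dx / √(1+‖x‖²)`. -/
def hypVol (E : Type) [NormedAddCommGroup E] [InnerProductSpace ℝ E] [FiniteDimensional ℝ E]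
    [MeasurableSpace E] [BorelSpace E] : Measure E :=
  volume.withDensity fun x => ENNReal.ofReal (1 / √(1 + ‖x‖ ^ 2))

end Pool.Agent.MP_e4fe74_an
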