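import Pool.Agent.MP_e4fe74_an.Kernel

noncomputable section

namespace Pool.Agent.MP_e4fe74_an

open MeasureTheory Set Real Filter Topology
open scoped ENNReal

variable {E : Type} [NormedAddCommGroup E] [InnerProductSpace ℝ E] [FiniteDimensional ℝ E]
  [MeasurableSpace E] [BorelSpace E] [Fact (Module.finrank ℝ E = 3)]

set_option linter.unusedSectionVars false

/-- The two-point kernel. -/
def KK (k : ℝ) (y x : E) : ℝ := kt k (lor (lift y) (lift x))

lemma KK_nonneg (k : ℝ) (y x : E) : 0 ≤ KK k y x := kt_nonneg _ _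

lemma KK_comm (k : ℝ) (y x : E) : KK k y x = KK k x y := by unfold KK; rw [lor_comm]

lemma measurable_KK (k : ℝ) : Measurable fun p : E × E => KK k p.1 p.2 :=
  (measurable_kt k).comp continuous_lor_lift.measurable

lemma measurable_KK_right (k : ℝ) (y : E) : Measurable fun x => KK k y x :=
  (measurable_kt k).comp (continuous_lor.comp (continuous_const.prodMk continuous_lift)).measurable

lemma IsLorentz.KK_act {g : (ℝ × E) →ₗ[ℝ] (ℝ × E)} (hg : IsLorentz g) (k : ℝ) (y x : E) :
    KK k (act g y) (act g x) = KK k y x := by unfold KK; rw [hg.lor_act]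

lemma act_swap_zero (z : E) : act (swap z) 0 = z := by
  unfold act; rw [lift_zero, swap_origin]; rfl

lemma act_swap_self (z : E) : act (swap z) z = 0 := by
  unfold act; rw [swap_lift]

lemma act_swap_swap (z x : E) : act (swap z) (act (swap z) x) = x := by
  unfold act
  change (swap z (lift (act (swap z) x))).2 = x
  rw [(isLorentz_swap z).lift_act, swap_swap]; rfl

lemma KK_zero (k : ℝ) (x : E) : KK k 0 x = kt k (x0 x) := by
  unfold KK; rw [lift_zero, lor_origin_left]; rfl

lemma lor_null_pos {b : E} (hb : ‖b‖ = 1) (x : E) : 0 < lor (lift x) (1, b) := by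
  have h1 := real_inner_le_norm x b
  have h2 := norm_lt_x0 x
  simp only [lor, lift_fst, lift_snd, mul_one]
  rw [hb] at h1; linarith

lemma IsLorentz.measurableEmbedding {g : (ℝ × E) →ₗ[ℝ] (ℝ × E)} (hg : IsLorentz g) :
    MeasurableEmbedding (act g) :=
  (continuous_act g).measurableEmbedding hg.act_injective

lemma eigen_origin {k : ℝ} (hk : 0 < k) {e : E} (he : ‖e‖ = 1) {s : ℂ} (hs : |(s + 1).re| < k) :
    Integrable (fun x => (kt k (x0 x) : ℂ) * ((lor (lift x) (1, e) : ℝ) : ℂ) ^ s) (hypVol E) ∧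
    ∫ x, (kt k (x0 x) : ℂ) * ((lor (lift x) (1, e) : ℝ) : ℂ) ^ s ∂(hypVol E) =
      1 / Complex.cos (π * (s + 1) / (2 * k)) := by
  have hx0 : Measurable (x0 : E → ℝ) := continuous_x0.measurable
  have hg := continuous_gk k
  have e2 : (fun v : ℝ => ((exp v * gk k v : ℝ) : ℂ) * Complex.exp (s * v)) =
      fun v : ℝ => (gk k v : ℂ) * Complex.exp ((s + 1) * v) := by
    ext v; push_cast; rw [add_mul, Complex.exp_add]; ring_nf
  have := transfer (μ := (hypVol E)) (ν := volume) (φ := fun x : E => log (x0 x - inner ℝ e x))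
    (by fun_prop) (w₁ := fun x => kt k (x0 x)) (w₂ := fun v => exp v * gk k v)
    ((measurable_kt k).comp hx0) (by fun_prop) (fun x => kt_nonneg _ _)
    (Eventually.of_forall fun v => (mul_pos (exp_pos v) (gk_pos hk v)).le)
    (lintegral_kt_horo hk he) (fun v : ℝ => Complex.exp (s * v)) (by fun_prop)
    (by rw [e2]; exact integrable_gk_mul_cexp hk hs)
  rw [e2, integral_gk_mul_cexp hk hs] at this
  have e1 : ∀ x : E, ((lor (lift x) (1, e) : ℝ) : ℂ) ^ s =
      Complex.exp (s * (log (x0 x - inner ℝ e x) : ℝ)) := by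
    intro x
    have hp := lor_null_pos he x
    have : lor (lift x) (1, e) = x0 x - inner ℝ e x := by
      simp [lor, real_inner_comm]
    rw [Complex.cpow_def_of_ne_zero (by exact_mod_cast hp.ne'), ← Complex.ofReal_log hp.le, this,
      mul_comm]
  simp_rw [e1]
  exact this

/-- The Poisson kernel powers are eigenfunctions. -/
lemma eigen {k : ℝ} (hk : 0 < k) {b : E} (hb : ‖b‖ = 1) {s : ℂ} (hs : |(s + 1).re| < k) (y : E) :
    Integrable (fun x => (KK k y x : ℂ) * ((lor (lift x) (1, b) : ℝ) : ℂ) ^ s) (hypVol E) ∧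
    ∫ x, (KK k y x : ℂ) * ((lor (lift x) (1, b) : ℝ) : ℂ) ^ s ∂(hypVol E) =
      1 / Complex.cos (π * (s + 1) / (2 * k)) * ((lor (lift y) (1, b) : ℝ) : ℂ) ^ s := by
  have hg := isLorentz_swap y
  set N := swap y (1, b) with hN
  set c := lor (lift y) (1, b) with hc
  have hc0 : 0 < c := lor_null_pos hb y
  have hN1 : N.1 = c := by
    rw [← lor_origin_left, hN, ← lor_swap, swap_origin]
  have hNN : lor N N = 0 := by
    rw [hN, hg.1]; simp [lor, hb]
  have hN2 : ‖N.2‖ = c := by
    simp only [lor, real_inner_self_eq_norm_sq, hN1] at hNN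
    rw [← pow_left_inj₀ (norm_nonneg _) hc0.le two_ne_zero]; linarith
  have he : ‖(c⁻¹ • N.2 : E)‖ = 1 := by
    rw [norm_smul, hN2, norm_inv, Real.norm_of_nonneg hc0.le, inv_mul_cancel₀ hc0.ne']
  have hNe : N = c • ((1 : ℝ), c⁻¹ • N.2) := by
    refine Prod.ext (by simp [hN1]) ?_
    simp [smul_smul, mul_inv_cancel₀ hc0.ne']
  obtain ⟨h1, h2⟩ := eigen_origin hk he hs
  have key : (fun x => (KK k y x : ℂ) * ((lor (lift x) (1, b) : ℝ) : ℂ) ^ s) ∘ act (swap y) =
      fun x => (kt k (x0 x) : ℂ) * ((lor (lift x) (1, c⁻¹ • N.2) : ℝ) : ℂ) ^ s * (c : ℂ) ^ s := by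
    ext x
    simp only [Function.comp_apply]
    have a1 : KK k y (act (swap y) x) = kt k (x0 x) := by
      conv_lhs => rw [← act_swap_zero y]
      rw [act_swap_zero y]
      nth_rw 1 [← act_swap_zero y]
      rw [hg.KK_act, KK_zero]
    have a2 : lor (lift (act (swap y) x)) (1, b) = lor (lift x) (1, c⁻¹ • N.2) * c := by
      rw [hg.lift_act, lor_swap, ← hN]
      conv_lhs => rw [hNe, lor_smul_right]
      ring
    rw [a1, a2, Complex.ofReal_mul, Complex.mul_cpow_ofReal_nonneg (lor_null_pos he x).le hc0.le,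
      mul_assoc]
  constructor
  · rw [← hg.measurePreserving.integrable_comp_emb hg.measurableEmbedding, key]
    exact h1.mul_const _
  · rw [← hg.measurePreserving.integral_comp hg.measurableEmbedding]
    change ∫ x, ((fun x => (KK k y x : ℂ) * ((lor (lift x) (1, b) : ℝ) : ℂ) ^ s) ∘
      act (swap y)) x ∂(hypVol E) = _
    rw [key, integral_mul_const, h2]

lemma eigen_real {k : ℝ} (hk : 0 < k) {b : E} (hb : ‖b‖ = 1) {s : ℝ} (hs : |s + 1| < k) (y : E) :
    ∫⁻ x, ENNReal.ofReal (KK k y x) * ENNReal.ofReal (lor (lift x) (1, b) ^ s) ∂(hypVol E) =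
      ENNReal.ofReal (1 / cos (π * (s + 1) / (2 * k))) *
        ENNReal.ofReal (lor (lift y) (1, b) ^ s) := by
  obtain ⟨h1, h2⟩ := eigen hk hb (s := s) (by simpa using hs) y
  have e1 : ∀ x, (KK k y x : ℂ) * ((lor (lift x) (1, b) : ℝ) : ℂ) ^ (s : ℂ) =
      ((KK k y x * lor (lift x) (1, b) ^ s : ℝ) : ℂ) := by
    intro x
    rw [Complex.ofReal_mul, Complex.ofReal_cpow (lor_null_pos hb x).le]
  simp_rw [e1] at h1 h2
  rw [integral_complex_ofReal, ← Complex.ofReal_cpow (lor_null_pos hb y).le] at h2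
  have h3 : ∫ x, KK k y x * lor (lift x) (1, b) ^ s ∂(hypVol E) =
      1 / cos (π * (s + 1) / (2 * k)) * lor (lift y) (1, b) ^ s := by
    exact_mod_cast h2
  have h4 : Integrable (fun x => KK k y x * lor (lift x) (1, b) ^ s) (hypVol E) := by
    simpa using h1.re
  have hcos : 0 < cos (π * (s + 1) / (2 * k)) := by
    obtain ⟨a1, a2⟩ := abs_lt.1 hs
    apply cos_pos_of_mem_Ioo
    constructor
    · rw [lt_div_iff₀ (by positivity)]; nlinarith [pi_pos]
    · rw [div_lt_iff₀ (by positivity)]; nlinarith [pi_pos]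
  rw [← ENNReal.ofReal_mul (by positivity), ← h3, ofReal_integral_eq_lintegral_ofReal h4
    (Eventually.of_forall fun x => mul_nonneg (KK_nonneg _ _ _)
      (rpow_nonneg (lor_null_pos hb x).le _))]
  congr 1
  ext x
  rw [ENNReal.ofReal_mul (KK_nonneg _ _ _)]

/-- Hyperbolic distance. -/
def dst (x z : E) : ℝ := arcosh (lor (lift x) (lift z))

lemma dst_nonneg (x z : E) : 0 ≤ dst x z := arcosh_nonneg (one_le_lor_lift x z)

lemma dst_comm (x z : E) : dst x z = dst z x := by unfold dst; rw [lor_comm]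

lemma measurable_dst : Measurable fun p : E × E => dst p.1 p.2 :=
  measurable_arcosh.comp continuous_lor_lift.measurable

lemma IsLorentz.dst_act {g : (ℝ × E) →ₗ[ℝ] (ℝ × E)} (hg : IsLorentz g) (y x : E) :
    dst (act g y) (act g x) = dst y x := by unfold dst; rw [hg.lor_act]

lemma dst_zero (x : E) : dst x 0 = arcosh (x0 x) := by
  unfold dst; rw [lift_zero, lor_origin_right]; rfl

/-- The two-point function attached to a profile `F`. -/
def UU (F : ℝ → ℂ) (x z : E) : ℂ := F (dst x z) / (sinh (dst x z) : ℝ)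

lemma measurable_UU {F : ℝ → ℂ} (hF : Measurable F) :
    Measurable fun p : E × E => UU F p.1 p.2 := by
  have := measurable_dst (E := E)
  unfold UU; fun_prop

/-- One-dimensional convolution with the Abel transform of the kernel. -/
def cv (k : ℝ) (F : ℝ → ℂ) (s : ℝ) : ℂ := ∫ r, (gk k (r - s) : ℂ) * F r

lemma integrable_cv {k c C : ℝ} (hk : 0 < k) (hc0 : 0 ≤ c) (hc : c < k) {F : ℝ → ℂ}
    (hF : Measurable F) (hb : ∀ r, ‖F r‖ ≤ C * exp (c * |r|)) (s : ℝ) :
    Integrable fun r => (gk k (r - s) : ℂ) * F r := by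
  have hg := continuous_gk k
  have h1 := ((integrable_gk_mul_exp_abs hk hc).comp_sub_right s).const_mul (C * exp (c * |s|))
  refine h1.mono' (by fun_prop) (Eventually.of_forall fun r => ?_)
  have hC : 0 ≤ C := by
    have := (norm_nonneg _).trans (hb 0); simpa using this
  have hp := gk_pos hk (r - s)
  rw [norm_mul, Complex.norm_real, Real.norm_of_nonneg hp.le]
  have h2 : exp (c * |r|) ≤ exp (c * |s|) * exp (c * |r - s|) := by
    rw [← exp_add, exp_le_exp, ← mul_add]
    gcongr
    have := abs_add_le s (r - s)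
    simpa using this
  calc gk k (r - s) * ‖F r‖ ≤ gk k (r - s) * (C * (exp (c * |s|) * exp (c * |r - s|))) := by
        gcongr; exact (hb r).trans (by gcongr)
    _ = _ := by ring

lemma radial_conv {k c C : ℝ} (hk : 0 < k) (hc0 : 0 ≤ c) (hc : c < k) {F : ℝ → ℂ}
    (hF : Measurable F) (hodd : ∀ r, F (-r) = -F r) (hb : ∀ r, ‖F r‖ ≤ C * exp (c * |r|))
    {y z : E} (hyz : y ≠ z) :
    Integrable (fun x => (KK k y x : ℂ) * UU F x z) (hypVol E) ∧
      ∫ x, (KK k y x : ℂ) * UU F x z ∂(hypVol E) = UU (cv k F) y z := by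
  have hg := isLorentz_swap z
  set y' := act (swap z) y with hy'
  have hy0 : y' ≠ 0 := by
    intro h
    apply hyz
    rw [← act_swap_swap z y, ← hy', h, act_swap_zero]
  set s := arcosh (x0 y') with hs
  have hsd : dst y z = s := by
    rw [hs, ← dst_zero, hy', ← act_swap_self z, hg.dst_act]
  have hss : 0 < sinh s := by rw [hs, sinh_arcosh_x0]; exact norm_pos_iff.2 hy0
  have hs0 : 0 ≤ s := arcosh_nonneg (one_le_x0 _)
  have hx0 : Measurable (x0 : E → ℝ) := continuous_x0.measurable
  have hga := continuous_gk k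
  have i1 := integrable_cv hk hc0 hc hF hb s
  have i2 := integrable_cv hk hc0 hc hF hb (-s)
  simp only [sub_neg_eq_add] at i2
  have e2 : ∀ r ∈ Ioi (0 : ℝ), ((sinh r * (gk k (r - s) - gk k (r + s)) / sinh s : ℝ) : ℂ) *
      (F r / (sinh r : ℝ)) =
      ((gk k (r - s) : ℂ) * F r - (gk k (r + s) : ℂ) * F r) / (sinh s : ℝ) := by
    intro r hr
    have h1 : ((sinh r : ℝ) : ℂ) ≠ 0 := by exact_mod_cast (sinh_pos_iff.2 hr).ne'
    have h2 : ((sinh s : ℝ) : ℂ) ≠ 0 := by exact_mod_cast hss.ne'
    rw [Complex.ofReal_div, Complex.ofReal_mul, Complex.ofReal_sub]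
    field_simp
  have := transfer (μ := (hypVol E)) (ν := volume.restrict (Ioi 0)) (φ := fun x : E => arcosh (x0 x))
    (measurable_arcosh.comp hx0) (w₁ := fun x => KK k y' x)
    (w₂ := fun r => sinh r * (gk k (r - s) - gk k (r + s)) / sinh s)
    (measurable_KK_right k y') (by fun_prop) (fun x => KK_nonneg _ _ _)
    ((ae_restrict_iff' measurableSet_Ioi).2 (Eventually.of_forall fun r hr => by
      have hr0 : 0 < r := hr
      have h1 : 0 < sinh r := sinh_pos_iff.2 hr
      have hab : |r - s| ≤ |r + s| := by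
        rw [abs_of_nonneg (by linarith : 0 ≤ r + s), abs_le]; constructor <;> linarith
      have := sub_nonneg.2 (gk_anti hk hab)
      positivity))
    (lintegral_kt_rad hk hy0) (fun r : ℝ => F r / (sinh r : ℝ)) (by fun_prop)
    (IntegrableOn.congr_fun ((i1.sub i2).div_const _).integrableOn (fun r hr => (e2 r hr).symm)
      measurableSet_Ioi)
  obtain ⟨h1, h2⟩ := this
  have key : (fun x => (KK k y x : ℂ) * UU F x z) ∘ act (swap z) =
      fun x => (KK k y' x : ℂ) * (F (arcosh (x0 x)) / (sinh (arcosh (x0 x)) : ℝ)) := by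
    ext x
    simp only [Function.comp_apply]
    have a1 : KK k y (act (swap z) x) = KK k y' x := by
      rw [← hg.KK_act k y, act_swap_swap]
    have a2 : dst (act (swap z) x) z = arcosh (x0 x) := by
      rw [← hg.dst_act, act_swap_swap, act_swap_self, dst_zero]
    rw [a1, UU, a2]
  constructor
  · rw [← hg.measurePreserving.integrable_comp_emb hg.measurableEmbedding, key]
    exact h1
  · rw [← hg.measurePreserving.integral_comp hg.measurableEmbedding]
    change ∫ x, ((fun x => (KK k y x : ℂ) * UU F x z) ∘ act (swap z)) x ∂(hypVol E) = _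
    rw [key, h2, setIntegral_congr_fun measurableSet_Ioi e2, integral_div, UU, hsd,
      integral_sub i1.integrableOn i2.integrableOn]
    congr 1
    have h3 : ∫ r in Ioi (0 : ℝ), (gk k (r + s) : ℂ) * F r =
        -∫ r in Iic (0 : ℝ), (gk k (r - s) : ℂ) * F r := by
      have := integral_comp_neg_Ioi 0 (fun r => (gk k (r - s) : ℂ) * F r)
      rw [neg_zero] at this
      rw [← this, ← integral_neg]
      congr 1
      ext r
      rw [hodd, ← gk_neg k (r + s)]
      ring_nf
    rw [h3, sub_neg_eq_add, add_comm, cv, ← intervalIntegral.integral_Iic_add_Ioi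
      i1.integrableOn i1.integrableOn]

end Pool.Agent.MP_e4fe74_an
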