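import Pool.Agent.MP_e4fe74_an.Defs

noncomputable section

namespace Pool.Agent.MP_e4fe74_an

open MeasureTheory

variable {E : Type} [NormedAddCommGroup E] [InnerProductSpace ℝ E] [FiniteDimensional ℝ E]
  [MeasurableSpace E] [BorelSpace E] [Fact (Module.finrank ℝ E = 3)]

set_option linter.unusedSectionVars false


/-- time coordinate -/
def x0 (x : E) : ℝ := √(1 + ‖x‖ ^ 2)

lemma x0_sq (x : E) : x0 x ^ 2 = 1 + ‖x‖ ^ 2 := by
  unfold x0; rw [Real.sq_sqrt]; positivity

lemma one_le_x0 (x : E) : 1 ≤ x0 x := by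
  unfold x0
  rw [Real.le_sqrt (by norm_num) (by positivity)]
  nlinarith [sq_nonneg ‖x‖]

lemma x0_pos (x : E) : 0 < x0 x := lt_of_lt_of_le one_pos (one_le_x0 x)

lemma norm_lt_x0 (x : E) : ‖x‖ < x0 x := by
  have h := x0_sq x
  have h2 := x0_pos x
  nlinarith [norm_nonneg x]

lemma continuous_x0 : Continuous (x0 : E → ℝ) := by
  unfold x0; fun_prop

@[simp] lemma lift_fst (x : E) : (lift x).1 = x0 x := rfl
@[simp] lemma lift_snd (x : E) : (lift x).2 = x := rfl

lemma continuous_lift : Continuous (lift : E → ℝ × E) := by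
  unfold lift; fun_prop

lemma lift_zero : lift (0 : E) = (1, 0) := by simp [lift]

lemma lor_comm (u v : (ℝ × E)) : lor u v = lor v u := by
  unfold lor; rw [real_inner_comm, mul_comm]

lemma lor_add_left (u v w : (ℝ × E)) : lor (u + v) w = lor u w + lor v w := by
  simp [lor, inner_add_left]; ring

lemma lor_add_right (u v w : (ℝ × E)) : lor u (v + w) = lor u v + lor u w := by
  simp [lor, inner_add_right]; ring

lemma lor_smul_left (c : ℝ) (u v : (ℝ × E)) : lor (c • u) v = c * lor u v := by
  simp [lor, inner_smul_left]; ring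

lemma lor_smul_right (c : ℝ) (u v : (ℝ × E)) : lor u (c • v) = c * lor u v := by
  simp [lor, inner_smul_right]; ring

lemma lor_neg_left (u v : (ℝ × E)) : lor (-u) v = - lor u v := by
  simp [lor, inner_neg_left]; ring

lemma lor_neg_right (u v : (ℝ × E)) : lor u (-v) = - lor u v := by
  simp [lor, inner_neg_right]; ring

lemma lor_origin_right (u : (ℝ × E)) : lor u (1, 0) = u.1 := by simp [lor]

lemma lor_origin_left (u : (ℝ × E)) : lor (1, 0) u = u.1 := by simp [lor]

lemma lor_lift_self (x : E) : lor (lift x) (lift x) = 1 := by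
  have := x0_sq x
  simp only [lor, lift_fst, lift_snd, real_inner_self_eq_norm_sq]; nlinarith

lemma lor_lift_lift (x y : E) : lor (lift x) (lift y) = x0 x * x0 y - inner ℝ x y := rfl

lemma continuous_lor : Continuous fun p : (ℝ × E) × (ℝ × E) => lor p.1 p.2 := by
  unfold lor; fun_prop

lemma continuous_lor_lift : Continuous fun p : E × E => lor (lift p.1) (lift p.2) :=
  continuous_lor.comp ((continuous_lift.comp continuous_fst).prodMk
    (continuous_lift.comp continuous_snd))

lemma one_le_lor_lift (x y : E) : 1 ≤ lor (lift x) (lift y) := by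
  rw [lor_lift_lift]
  have h1 := real_inner_le_norm x y
  have hx := x0_sq x
  have hy := x0_sq y
  have px := x0_pos x
  have py := x0_pos y
  have h2 : 1 + ‖x‖ * ‖y‖ ≤ x0 x * x0 y := by
    rw [← pow_le_pow_iff_left₀ (by positivity) (by positivity) two_ne_zero, mul_pow, hx, hy]
    nlinarith [sq_nonneg (‖x‖ - ‖y‖)]
  linarith

lemma eq_lift_of {u : (ℝ × E)} (h : lor u u = 1) (h0 : 0 < u.1) : u = lift u.2 := by
  have : u.1 = x0 u.2 := by
    have h2 : u.1 ^ 2 = x0 u.2 ^ 2 := by
      rw [x0_sq]; simp only [lor, real_inner_self_eq_norm_sq] at h; nlinarith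
    exact (pow_left_inj₀ h0.le (x0_pos _).le two_ne_zero).1 h2
  exact Prod.ext this rfl

/-- A vector of non-negative square that pairs positively with a point of the upper sheet is
future directed. -/
lemma fst_pos_of_lor_pos {u : (ℝ × E)} {y : E} (h : 0 ≤ lor u u) (h0 : 0 < lor u (lift y)) :
    0 < u.1 := by
  by_contra hneg
  push Not at hneg
  simp only [lor, real_inner_self_eq_norm_sq, lift_fst, lift_snd] at h h0
  have h1 : -(‖u.2‖ * ‖y‖) ≤ inner ℝ u.2 y := by
    have := abs_real_inner_le_norm u.2 y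
    linarith [neg_abs_le (inner ℝ u.2 y)]
  have h2 : ‖u.2‖ ≤ -u.1 := by
    rw [← pow_le_pow_iff_left₀ (by positivity) (by linarith) two_ne_zero]
    nlinarith
  have h3 := norm_lt_x0 y
  have h4 := norm_nonneg y
  have h5 := norm_nonneg u.2
  nlinarith

variable {g : (ℝ × E) →ₗ[ℝ] (ℝ × E)}

lemma IsLorentz.origin_eq (hg : IsLorentz g) : g (1, 0) = lift (g (1, 0)).2 :=
  eq_lift_of (by rw [hg.1]; simp [lor]) hg.2

lemma IsLorentz.lift_act (hg : IsLorentz g) (x : E) : lift (act g x) = g (lift x) := by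
  symm
  apply eq_lift_of (by rw [hg.1, lor_lift_self])
  apply fst_pos_of_lor_pos (y := (g (1, 0)).2) (by rw [hg.1, lor_lift_self]; norm_num)
  rw [← hg.origin_eq, hg.1, lor_origin_right]
  exact x0_pos x

lemma IsLorentz.lor_act (hg : IsLorentz g) (x y : E) :
    lor (lift (act g x)) (lift (act g y)) = lor (lift x) (lift y) := by
  rw [hg.lift_act, hg.lift_act, hg.1]

lemma eq_zero_of_lor {u : (ℝ × E)} (h : ∀ v, lor u v = 0) : u = 0 := by
  have h1 := h (1, 0)
  have h2 := h (0, u.2)
  simp only [lor_origin_right] at h1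
  simp only [lor, mul_zero, zero_sub, neg_eq_zero, inner_self_eq_zero] at h2
  exact Prod.ext h1 h2

lemma IsLorentz.injective (hg : IsLorentz g) : Function.Injective g := by
  rw [injective_iff_map_eq_zero]
  intro u hu
  apply eq_zero_of_lor
  intro v
  rw [← hg.1, hu]; simp [lor]

lemma IsLorentz.surjective (hg : IsLorentz g) : Function.Surjective g :=
  LinearMap.injective_iff_surjective.1 hg.injective

lemma IsLorentz.act_injective (hg : IsLorentz g) : Function.Injective (act g) := by
  intro x y h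
  have : g (lift x) = g (lift y) := by rw [← hg.lift_act, ← hg.lift_act, h]
  have := hg.injective this
  exact congrArg Prod.snd this

lemma IsLorentz.act_surjective (hg : IsLorentz g) : Function.Surjective (act g) := by
  intro y
  obtain ⟨u, hu⟩ := hg.surjective (lift y)
  have h1 : lor u u = 1 := by rw [← hg.1, hu, lor_lift_self]
  have h2 : 0 < u.1 := by
    rw [← lor_origin_right, ← hg.1, hu, hg.origin_eq]
    exact lt_of_lt_of_le one_pos (one_le_lor_lift _ _)
  refine ⟨u.2, ?_⟩
  unfold act
  rw [← eq_lift_of h1 h2, hu]; rfl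

lemma continuous_act (g : (ℝ × E) →ₗ[ℝ] (ℝ × E)) : Continuous (act g) := by
  unfold act
  exact continuous_snd.comp (g.continuous_of_finiteDimensional.comp continuous_lift)

/-- The geodesic symmetry exchanging the origin and `z`. -/
def swap (z : E) : (ℝ × E) →ₗ[ℝ] (ℝ × E) where
  toFun u := -u + (lor u (lift z + (1, 0)) / (1 + x0 z)) • (lift z + (1, 0))
  map_add' u v := by
    rw [lor_add_left, add_div, add_smul]; abel
  map_smul' c u := by
    rw [lor_smul_left, RingHom.id_apply, smul_add c, smul_smul, mul_div_assoc, smul_neg]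

lemma swap_apply (z : E) (u : (ℝ × E)) :
    swap z u = -u + (lor u (lift z + (1, 0)) / (1 + x0 z)) • (lift z + (1, 0)) := rfl

lemma lor_n_n (z : E) : lor (lift z + (1, 0)) (lift z + (1, 0)) = 2 * (1 + x0 z) := by
  rw [lor_add_left, lor_add_right, lor_add_right, lor_lift_self, lor_origin_right, lor_origin_left,
    lor_origin_left]
  simp; ring

lemma swap_origin (z : E) : swap z (1, 0) = lift z := by
  have := x0_pos z
  rw [swap_apply, lor_origin_left]
  have h : ((lift z + (1, 0) : (ℝ × E)).1 / (1 + x0 z)) = 1 := by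
    simp; field_simp; ring
  rw [h, one_smul]; abel

lemma swap_lift (z : E) : swap z (lift z) = (1, 0) := by
  have := x0_pos z
  rw [swap_apply, lor_add_right, lor_lift_self, lor_origin_right, lift_fst,
    div_self (by positivity)]
  simp

lemma isLorentz_swap (z : E) : IsLorentz (swap z) := by
  refine ⟨fun u v => ?_, by rw [swap_origin]; exact x0_pos z⟩
  have := x0_pos z
  rw [swap_apply, swap_apply]
  set n : (ℝ × E) := lift z + (1, 0) with hn
  have hnn : lor n n = 2 * (1 + x0 z) := lor_n_n z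
  clear_value n
  simp only [lor_add_left, lor_add_right, lor_neg_left, lor_neg_right,
    lor_smul_right, lor_smul_left, hnn, lor_comm n v]
  field_simp
  ring

lemma swap_swap (z : E) (u : (ℝ × E)) : swap z (swap z u) = u := by
  have := x0_pos z
  rw [swap_apply z (swap z u), swap_apply z u]
  set n : (ℝ × E) := lift z + (1, 0) with hn
  have hnn : lor n n = 2 * (1 + x0 z) := lor_n_n z
  rw [lor_add_left, lor_neg_left, lor_smul_left, hnn]
  have : (-lor u n + lor u n / (1 + x0 z) * (2 * (1 + x0 z))) / (1 + x0 z) =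
      lor u n / (1 + x0 z) := by field_simp; ring
  rw [this]; simp

lemma lor_swap (z : E) (u v : (ℝ × E)) : lor (swap z u) v = lor u (swap z v) := by
  conv_lhs => rw [← swap_swap z v]
  exact (isLorentz_swap z).1 _ _

/-! ### Invariance of the measure -/

lemma hasFDerivAt_x0 (x : E) : HasFDerivAt x0 ((x0 x)⁻¹ • innerSL ℝ x) x := by
  have h1 : HasFDerivAt (fun y : E => 1 + ‖y‖ ^ 2) ((2 : ℝ) • innerSL ℝ x) x := by
    have := (hasStrictFDerivAt_norm_sq x).hasFDerivAt
    have h2 := this.const_add 1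
    refine h2.congr_fderiv ?_
    ext v; simp
  have h3 := h1.sqrt (by positivity)
  refine h3.congr_fderiv ?_
  ext v
  have := x0_pos x
  simp only [smul_apply, smul_eq_mul]
  change 1 / (2 * x0 x) * _ = _
  field_simp

/-- derivative of the lift -/
def dlift (x : E) : E →L[ℝ] (ℝ × E) := ((x0 x)⁻¹ • innerSL ℝ x).prod (ContinuousLinearMap.id ℝ E)

lemma dlift_apply (x v : E) : dlift x v = ((x0 x)⁻¹ * inner ℝ x v, v) := by
  simp [dlift]

lemma hasFDerivAt_lift (x : E) : HasFDerivAt lift (dlift x) x :=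
  (hasFDerivAt_x0 x).prodMk (hasFDerivAt_id x)

def dact (g : (ℝ × E) →ₗ[ℝ] (ℝ × E)) (x : E) : E →L[ℝ] E :=
  (ContinuousLinearMap.snd ℝ ℝ E).comp ((LinearMap.toContinuousLinearMap g).comp (dlift x))

lemma dact_apply (g : (ℝ × E) →ₗ[ℝ] (ℝ × E)) (x v : E) : dact g x v = (g (dlift x v)).2 := rfl

lemma hasFDerivAt_act (g : (ℝ × E) →ₗ[ℝ] (ℝ × E)) (x : E) : HasFDerivAt (act g) (dact g x) x := by
  have h := ((ContinuousLinearMap.snd ℝ ℝ E).comp
    (LinearMap.toContinuousLinearMap g)).hasFDerivAt.comp x (hasFDerivAt_lift x)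
  exact h

lemma lor_lift_dlift (x v : E) : lor (lift x) (dlift x v) = 0 := by
  have := x0_pos x
  rw [dlift_apply]; simp only [lor, lift_fst, lift_snd]; field_simp; ring

lemma IsLorentz.g_dlift (hg : IsLorentz g) (x v : E) :
    g (dlift x v) = dlift (act g x) (dact g x v) := by
  have h := lor_lift_dlift x v
  rw [← hg.1, ← hg.lift_act] at h
  have := x0_pos (act g x)
  rw [dlift_apply (act g x)]
  refine Prod.ext ?_ rfl
  simp only [lor, lift_fst, lift_snd] at h
  rw [dact_apply]
  field_simp
  linarith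

/-- The Gram operator of the induced metric. -/
def gram (x : E) : E →ₗ[ℝ] E :=
  LinearMap.id - ((x0 x)⁻¹ ^ 2) • (innerSL ℝ x).toLinearMap.smulRight x

lemma inner_gram (x v w : E) : inner ℝ (gram x v) w = - lor (dlift x v) (dlift x w) := by
  simp only [gram, LinearMap.sub_apply, LinearMap.id_apply, LinearMap.smul_apply,
    LinearMap.smulRight_apply, inner_sub_left, inner_smul_left, dlift_apply, lor]
  simp; ring

/-- an orthonormal basis -/
def onb (E : Type) [NormedAddCommGroup E] [InnerProductSpace ℝ E] [FiniteDimensional ℝ E]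
    [Fact (Module.finrank ℝ E = 3)] : OrthonormalBasis (Fin 3) ℝ E :=
  (stdOrthonormalBasis ℝ E).reindex (finCongr Fact.out)

lemma det_gram (x : E) : LinearMap.det (gram x) = (x0 x)⁻¹ ^ 2 := by
  rw [← LinearMap.det_toMatrix (onb E).toBasis, Matrix.det_fin_three]
  have h0 := x0_pos x
  have h1 := x0_sq x
  rw [← (onb E).repr.norm_map, EuclideanSpace.real_norm_sq_eq, Fin.sum_univ_three] at h1
  have h2 : ∀ i, inner ℝ x (onb E i) = (onb E).repr x i := fun i => by
    rw [(onb E).repr_apply_apply, real_inner_comm]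
  simp [LinearMap.toMatrix_apply, gram, h2]
  field_simp
  have h4 : x0 x ^ 4 = (x0 x ^ 2) ^ 2 := by ring
  rw [h4, h1]; ring

lemma IsLorentz.abs_det_dact (hg : IsLorentz g) (x : E) :
    |(dact g x).det| = x0 (act g x) / x0 x := by
  have key : LinearMap.adjoint (dact g x : E →ₗ[ℝ] E) ∘ₗ gram (act g x) ∘ₗ
      (dact g x : E →ₗ[ℝ] E) = gram x := by
    ext1 v
    apply ext_inner_right ℝ
    intro w
    simp only [LinearMap.comp_apply, LinearMap.adjoint_inner_left]
    rw [inner_gram, inner_gram]
    simp only [ContinuousLinearMap.coe_coe]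
    rw [← hg.g_dlift, ← hg.g_dlift, hg.1]
  have hdet := congrArg LinearMap.det key
  rw [LinearMap.det_comp, LinearMap.det_comp, det_gram, det_gram] at hdet
  have hadj : LinearMap.det (LinearMap.adjoint (dact g x : E →ₗ[ℝ] E)) =
      LinearMap.det (dact g x : E →ₗ[ℝ] E) := by
    rw [← LinearMap.det_toMatrix (onb E).toBasis, ← LinearMap.det_toMatrix (onb E).toBasis,
      LinearMap.toMatrix_adjoint, Matrix.det_conjTranspose]
    simp
  rw [hadj] at hdet
  have h1 := x0_pos x
  have h2 := x0_pos (act g x)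
  rw [← pow_left_inj₀ (abs_nonneg _) (by positivity) two_ne_zero, sq_abs]
  change (LinearMap.det (dact g x : E →ₗ[ℝ] E)) ^ 2 = _
  field_simp at hdet ⊢
  linarith

lemma measurable_dens : Measurable fun x : E => ENNReal.ofReal (1 / √(1 + ‖x‖ ^ 2)) := by
  fun_prop

lemma lintegral_hypVol (f : E → ENNReal) (hf : Measurable f) :
    ∫⁻ x, f x ∂(hypVol E) = ∫⁻ x, ENNReal.ofReal (x0 x)⁻¹ * f x := by
  unfold hypVol
  rw [lintegral_withDensity_eq_lintegral_mul _ measurable_dens hf]
  simp [x0]

lemma IsLorentz.measurePreserving (hg : IsLorentz g) :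
    MeasurePreserving (act g) (hypVol E) (hypVol E) := by
  have hm : Measurable (act g) := (continuous_act g).measurable
  refine ⟨hm, ?_⟩
  apply Measure.ext_of_lintegral
  intro f hf
  rw [lintegral_map hf hm, lintegral_hypVol _ hf, 
    lintegral_hypVol (fun a => f (act g a)) (hf.comp hm)]
  have h := lintegral_image_eq_lintegral_abs_det_fderiv_mul volume MeasurableSet.univ
    (fun x _ => (hasFDerivAt_act g x).hasFDerivWithinAt) hg.act_injective.injOn
    (fun x => ENNReal.ofReal (x0 x)⁻¹ * f x)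
  rw [Set.image_univ, hg.act_surjective.range_eq, Measure.restrict_univ] at h
  rw [h]
  congr 1
  ext x
  have h1 := x0_pos x
  have h2 := x0_pos (act g x)
  rw [hg.abs_det_dact, ← mul_assoc, ← ENNReal.ofReal_mul (by positivity)]
  congr 2
  field_simp

end Pool.Agent.MP_e4fe74_an
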