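import Mathlib

noncomputable section

namespace Pool.Agent.MP_e4fe74_an

open MeasureTheory Set Real Filter Topology
open scoped ENNReal

lemma integral_logistic {z : ℂ} (h0 : 0 < z.re) (h1 : z.re < 1) :
    ∫ w : ℝ, Complex.exp (z * w) / (1 + Complex.exp w) = π / Complex.sin (π * z) := by
  rw [← Complex.Gamma_mul_Gamma_one_sub,
    Complex.Gamma_mul_Gamma_eq_betaIntegral h0 (by simpa using h1)]
  simp only [add_sub_cancel, Complex.Gamma_one, one_mul, Complex.betaIntegral]
  rw [intervalIntegral.integral_of_le zero_le_one, integral_Ioc_eq_integral_Ioo,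
    ← Real.range_sigmoid, ← image_univ, integral_image_eq_integral_abs_deriv_smul
      MeasurableSet.univ (fun w _ => (hasDerivAt_sigmoid w).hasDerivWithinAt)
      sigmoid_injective.injOn, Measure.restrict_univ]
  congr 1
  ext w
  have hp := sigmoid_pos w
  have hq : 0 < 1 - sigmoid w := by linarith [sigmoid_lt_one w]
  have hw := exp_pos w
  have e1 : sigmoid w = exp (w - log (1 + exp w)) := by
    rw [exp_sub, exp_log (by positivity), sigmoid_def, exp_neg]; field_simp; ring
  have e2 : 1 - sigmoid w = exp (- log (1 + exp w)) := by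
    rw [exp_neg, exp_log (by positivity), sigmoid_def, exp_neg]; field_simp; ring
  have e3 : (1 : ℂ) - (sigmoid w : ℂ) = ((1 - sigmoid w : ℝ) : ℂ) := by push_cast; ring
  have e4 : (1 : ℂ) + Complex.exp w = Complex.exp (log (1 + exp w) : ℝ) := by
    rw [← Complex.ofReal_exp (log _), exp_log (by positivity)]; push_cast; ring
  rw [abs_of_pos (mul_pos hp hq), e3, e2, e4]
  rw [e1]
  rw [Complex.cpow_def_of_ne_zero (by exact_mod_cast (exp_pos _).ne'),
    Complex.cpow_def_of_ne_zero (by exact_mod_cast (exp_pos _).ne'),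
    ← Complex.ofReal_log (exp_pos _).le, ← Complex.ofReal_log (exp_pos _).le, log_exp, log_exp,
    Complex.real_smul, ← exp_add, Complex.ofReal_exp, ← Complex.exp_add, ← Complex.exp_add,
    ← Complex.exp_sub]
  congr 1
  push_cast
  ring

/-- The Abel transform of the kernel. -/
def gk (k v : ℝ) : ℝ := k / π / cosh (k * v)

lemma gk_pos {k : ℝ} (hk : 0 < k) (v : ℝ) : 0 < gk k v := by
  unfold gk; have := cosh_pos (k * v); positivity

lemma gk_neg (k v : ℝ) : gk k (-v) = gk k v := by simp [gk]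

lemma gk_abs (k v : ℝ) : gk k |v| = gk k v := by
  rcases abs_choice v with h | h <;> rw [h]; exact gk_neg k v

lemma continuous_gk (k : ℝ) : Continuous (gk k) := by
  unfold gk
  exact continuous_const.div (by fun_prop) fun v => (cosh_pos _).ne'

lemma gk_le {k : ℝ} (hk : 0 < k) (v : ℝ) : gk k v ≤ 2 * k / π * exp (-(k * |v|)) := by
  unfold gk
  have h1 : exp (k * |v|) ≤ 2 * cosh (k * v) := by
    rw [← cosh_abs (k * v), abs_mul, abs_of_pos hk, cosh_eq]
    linarith [exp_pos (-(k * |v|))]
  have h2 := cosh_pos (k * v)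
  have h3 := exp_pos (k * |v|)
  rw [exp_neg, div_le_iff₀ h2]
  calc k / π = k / π * ((exp (k * |v|))⁻¹ * exp (k * |v|)) := by field_simp
    _ ≤ k / π * ((exp (k * |v|))⁻¹ * (2 * cosh (k * v))) := by gcongr
    _ = _ := by ring

lemma integrable_exp_neg_mul_abs {c : ℝ} (hc : 0 < c) :
    Integrable (fun v : ℝ => exp (-(c * |v|))) := by
  rw [← integrableOn_univ, ← Iic_union_Ioi (a := (0 : ℝ)), integrableOn_union]
  constructor
  · refine (integrableOn_exp_mul_Iic hc 0).congr_fun (fun v hv => ?_) measurableSet_Iic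
    simp only; rw [abs_of_nonpos hv]; ring_nf
  · refine (integrableOn_exp_mul_Ioi (a := -c) (by linarith) 0).congr_fun (fun v hv => ?_)
      measurableSet_Ioi
    simp only; rw [abs_of_pos hv]; ring_nf

lemma integrable_gk_mul_exp_abs {k c : ℝ} (hk : 0 < k) (hc : c < k) :
    Integrable (fun v : ℝ => gk k v * exp (c * |v|)) := by
  have hg := continuous_gk k
  refine ((integrable_exp_neg_mul_abs (c := k - c) (by linarith)).const_mul (2 * k / π)).mono'
    (by fun_prop) (Eventually.of_forall fun v => ?_)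
  rw [Real.norm_of_nonneg (mul_pos (gk_pos hk v) (exp_pos _)).le]
  calc gk k v * exp (c * |v|) ≤ 2 * k / π * exp (-(k * |v|)) * exp (c * |v|) := by
        gcongr; exact gk_le hk v
    _ = _ := by rw [mul_assoc, ← exp_add]; ring_nf

lemma integrable_gk_mul_cexp {k : ℝ} (hk : 0 < k) {z : ℂ} (hz : |z.re| < k) :
    Integrable (fun v : ℝ => (gk k v : ℂ) * Complex.exp (z * v)) := by
  have hg := continuous_gk k
  refine (integrable_gk_mul_exp_abs hk hz).mono' (by fun_prop) (Eventually.of_forall fun v => ?_)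
  rw [norm_mul, Complex.norm_real, Real.norm_of_nonneg (gk_pos hk v).le, Complex.norm_exp]
  gcongr
  · exact (gk_pos hk v).le
  · simp only [Complex.mul_re, Complex.ofReal_re, Complex.ofReal_im, mul_zero, sub_zero]
    rw [← abs_mul]; exact le_abs_self _

lemma integral_gk_mul_cexp {k : ℝ} (hk : 0 < k) {z : ℂ} (hz : |z.re| < k) :
    ∫ v : ℝ, (gk k v : ℂ) * Complex.exp (z * v) = 1 / Complex.cos (π * z / (2 * k)) := by
  have hk' : (k : ℂ) ≠ 0 := by exact_mod_cast hk.ne'
  have hpi : (π : ℂ) ≠ 0 := by exact_mod_cast pi_ne_zero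
  obtain ⟨hz1, hz2⟩ := abs_lt.1 hz
  have hre : (1 / 2 + z / (2 * k) : ℂ).re = 1 / 2 + z.re / (2 * k) := by
    have : (2 * k : ℂ) = ((2 * k : ℝ) : ℂ) := by push_cast; ring
    rw [this, Complex.add_re, Complex.div_ofReal_re]; simp
  have h := integral_logistic (z := 1 / 2 + z / (2 * k))
    (by rw [hre]; have : -(1 / 2) < z.re / (2 * k) := by
          rw [lt_div_iff₀ (by positivity)]; linarith
        linarith)
    (by rw [hre]; have : z.re / (2 * k) < 1 / 2 := by
          rw [div_lt_iff₀ (by positivity)]; linarith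
        linarith)
  have h2 := Measure.integral_comp_mul_left
    (fun w : ℝ => Complex.exp ((1 / 2 + z / (2 * k)) * w) / (1 + Complex.exp w)) (2 * k)
  rw [h] at h2
  have h3 : ∀ v : ℝ, (gk k v : ℂ) * Complex.exp (z * v) = (2 * k / π) *
      (Complex.exp ((1 / 2 + z / (2 * k)) * ((2 * k * v : ℝ) : ℂ)) /
        (1 + Complex.exp ((2 * k * v : ℝ) : ℂ))) := by
    intro v
    have a1 : (1 / 2 + z / (2 * k)) * ((2 * k * v : ℝ) : ℂ) = k * v + z * v := by
      push_cast; field_simp
    have a2 : Complex.exp ((2 * k * v : ℝ) : ℂ) = Complex.exp (k * v) ^ 2 := by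
      rw [← Complex.exp_nat_mul]; push_cast; ring_nf
    have a3 : Complex.exp (k * v) = ((exp (k * v) : ℝ) : ℂ) := by push_cast; rfl
    rw [a1, a2, Complex.exp_add, a3, gk, cosh_eq, exp_neg]
    have a4 := exp_pos (k * v)
    have a5 : ((exp (k * v) : ℝ) : ℂ) ≠ 0 := by exact_mod_cast a4.ne'
    have a6 : (1 : ℂ) + ((exp (k * v) : ℝ) : ℂ) ^ 2 ≠ 0 := by
      have : (0 : ℝ) < 1 + exp (k * v) ^ 2 := by positivity
      exact_mod_cast this.ne'
    generalize exp (k * v) = E at *
    push_cast
    have a7 : (E : ℂ) + (E : ℂ)⁻¹ = (1 + (E : ℂ) ^ 2) / E := by field_simp; ring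
    rw [a7]
    field_simp
  simp_rw [h3]
  rw [integral_const_mul, h2, abs_of_pos (by positivity), Complex.real_smul]
  have : (π : ℂ) * (1 / 2 + z / (2 * k)) = π * z / (2 * k) + π / 2 := by ring
  rw [this, Complex.sin_add_pi_div_two]
  push_cast
  field_simp

end Pool.Agent.MP_e4fe74_an
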