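import Pool.Agent.MP_e4fe74_an.Coord
import Pool.Agent.MP_e4fe74_an.Sech

noncomputable section

namespace Pool.Agent.MP_e4fe74_an

open MeasureTheory Set Real Filter Topology
open scoped ENNReal

variable {E : Type} [NormedAddCommGroup E] [InnerProductSpace ℝ E] [FiniteDimensional ℝ E]
  [MeasurableSpace E] [BorelSpace E] [Fact (Module.finrank ℝ E = 3)]

set_option linter.unusedSectionVars false

/-- The radial kernel as a function of the distance. -/
def kr (k r : ℝ) : ℝ := k ^ 2 / (2 * π ^ 2) * (sinh (k * r) / cosh (k * r) ^ 2) / sinh r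

/-- The radial kernel as a function of the hyperbolic cosine of the distance. -/
def kt (k t : ℝ) : ℝ := max (kr k (arcosh t)) 0

lemma kt_nonneg (k t : ℝ) : 0 ≤ kt k t := le_max_right _ _

lemma measurable_kt (k : ℝ) : Measurable (kt k) := by
  have := measurable_arcosh
  unfold kt kr
  fun_prop

lemma kt_cosh {k r : ℝ} (hk : 0 < k) (hr : 0 ≤ r) : kt k (cosh r) = kr k r := by
  unfold kt
  rw [arcosh_cosh hr, max_eq_left]
  unfold kr
  have h1 : 0 ≤ sinh (k * r) := sinh_nonneg_iff.2 (by positivity)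
  have h2 : 0 ≤ sinh r := sinh_nonneg_iff.2 hr
  positivity

lemma hasDerivAt_gk (k r : ℝ) : HasDerivAt (fun r => -(gk k r / (2 * π)))
    (k ^ 2 / (2 * π ^ 2) * (sinh (k * r) / cosh (k * r) ^ 2)) r := by
  have h1 : HasDerivAt (fun r => cosh (k * r)) (sinh (k * r) * k) r := by
    simpa using ((hasDerivAt_id r).const_mul k).cosh
  have h2 := (((hasDerivAt_const r (k / π)).div h1 (cosh_pos _).ne').div_const (2 * π)).neg
  refine h2.congr_deriv ?_
  have := cosh_pos (k * r)
  field_simp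
  ring

lemma tendsto_gk {k : ℝ} (hk : 0 < k) : Tendsto (gk k) atTop (𝓝 0) := by
  have h1 : Tendsto (fun v : ℝ => 2 * k / π * exp (-(k * |v|))) atTop (𝓝 (2 * k / π * 0)) := by
    apply Tendsto.const_mul
    apply tendsto_exp_atBot.comp
    apply tendsto_neg_atTop_atBot.comp
    exact (tendsto_abs_atTop_atTop).const_mul_atTop hk
  rw [mul_zero] at h1
  exact squeeze_zero (fun v => (gk_pos hk v).le) (gk_le hk) h1

lemma lintegral_kt_Ioi {k a : ℝ} (hk : 0 < k) (ha : 0 ≤ a) :
    ∫⁻ t in Ioi (cosh a), ENNReal.ofReal (kt k t) = ENNReal.ofReal (gk k a / (2 * π)) := by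
  rw [lintegral_cosh_subst a ha]
  have hpos : ∀ r ∈ Ioi a, 0 ≤ k ^ 2 / (2 * π ^ 2) * (sinh (k * r) / cosh (k * r) ^ 2) := by
    intro r hr
    have : 0 ≤ r := ha.trans (le_of_lt hr)
    have h1 : 0 ≤ sinh (k * r) := sinh_nonneg_iff.2 (by positivity)
    positivity
  have hlim : Tendsto (fun r => -(gk k r / (2 * π))) atTop (𝓝 (-(0 / (2 * π)))) :=
    ((tendsto_gk hk).div_const _).neg
  have h1 := integral_Ioi_of_hasDerivAt_of_nonneg' (fun r _ => hasDerivAt_gk k r) hpos hlim
  have h2 := integrableOn_Ioi_deriv_of_nonneg' (fun r _ => hasDerivAt_gk k r) hpos hlim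
  have h3 := ofReal_integral_eq_lintegral_ofReal h2
    ((ae_restrict_iff' measurableSet_Ioi).2 (Eventually.of_forall hpos))
  rw [h1] at h3
  simp only [zero_div, neg_zero, zero_sub, neg_neg] at h3
  rw [h3]
  apply setLIntegral_congr_fun measurableSet_Ioi
  intro r hr
  have hr0 : 0 < r := lt_of_le_of_lt ha hr
  have hs : 0 < sinh r := sinh_pos_iff.2 hr0
  simp only
  rw [kt_cosh hk hr0.le, ← ENNReal.ofReal_mul hs.le, kr]
  congr 1
  field_simp

lemma gk_anti {k a b : ℝ} (hk : 0 < k) (hab : |a| ≤ |b|) : gk k b ≤ gk k a := by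
  unfold gk
  apply div_le_div_of_nonneg_left (by positivity) (cosh_pos _)
  rw [cosh_le_cosh, abs_mul, abs_mul]; gcongr

lemma lintegral_kt_Ioo {k a b : ℝ} (hk : 0 < k) (hab : |a| ≤ |b|) :
    ∫⁻ t in Ioo (cosh a) (cosh b), ENNReal.ofReal (kt k t) =
      ENNReal.ofReal ((gk k a - gk k b) / (2 * π)) := by
  have h1 := lintegral_kt_Ioi hk (abs_nonneg a)
  have h2 := lintegral_kt_Ioi hk (abs_nonneg b)
  rw [cosh_abs, gk_abs] at h1 h2
  have hc : cosh a ≤ cosh b := cosh_le_cosh.2 hab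
  rw [← Ioc_union_Ioi_eq_Ioi hc, lintegral_union measurableSet_Ioi Ioc_disjoint_Ioi_same, h2] at h1
  rw [setLIntegral_congr Ioo_ae_eq_Ioc, sub_div, ENNReal.ofReal_sub _ (by
    have := gk_pos hk b; positivity), ← h1, ENNReal.add_sub_cancel_right ENNReal.ofReal_ne_top]

/-- Horospherical push-forward of the kernel. -/
lemma lintegral_kt_horo {k : ℝ} (hk : 0 < k) {e : E} (he : ‖e‖ = 1) (G : ℝ → ℝ≥0∞)
    (hG : Measurable G) :
    ∫⁻ x : E, ENNReal.ofReal (kt k (x0 x)) * G (log (x0 x - inner ℝ e x)) ∂(hypVol E) =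
      ∫⁻ v : ℝ, ENNReal.ofReal (exp v * gk k v) * G v := by
  have hk' := measurable_kt k
  have := lintegral_cyl he (fun q => ENNReal.ofReal (kt k q.1) * G (log (q.1 - q.2)))
    (by fun_prop)
  simp only at this
  rw [this, lintegral_regD_horo _ (by fun_prop), ← lintegral_const_mul' _ _ ENNReal.ofReal_ne_top]
  congr 1
  ext v
  simp only [sub_sub_cancel, log_exp]
  rw [lintegral_mul_const _ (by fun_prop), ← cosh_abs, lintegral_kt_Ioi hk (abs_nonneg v), gk_abs,
    ← mul_assoc, ← mul_assoc, ← ENNReal.ofReal_mul (by positivity),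
    ← ENNReal.ofReal_mul (by positivity)]
  congr 2
  field_simp

lemma lintegral_affine (A B c : ℝ) (hB : 0 < B) (G : ℝ → ℝ≥0∞) :
    ∫⁻ s in Ioo (-c) c, G (A - B * s) =
      ENNReal.ofReal B⁻¹ * ∫⁻ u in Ioo (A - B * c) (A + B * c), G u := by
  have himg : (fun s => A - B * s) '' Ioo (-c) c = Ioo (A - B * c) (A + B * c) := by
    ext u
    simp only [mem_image, mem_Ioo]
    constructor
    · rintro ⟨s, ⟨h1, h2⟩, rfl⟩
      constructor <;> nlinarith
    · rintro ⟨h1, h2⟩
      refine ⟨(A - u) / B, ⟨?_, ?_⟩, by field_simp; ring⟩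
      · rw [lt_div_iff₀ hB]; linarith
      · rw [div_lt_iff₀ hB]; linarith
  have hd : ∀ s ∈ Ioo (-c) c, HasDerivWithinAt (fun s => A - B * s) (-B) (Ioo (-c) c) s := by
    intro s _
    simpa using (((hasDerivAt_id s).const_mul B).const_sub A).hasDerivWithinAt
  have hinj : InjOn (fun s => A - B * s) (Ioo (-c) c) := by
    intro a _ b _ h
    simp only at h
    exact mul_left_cancel₀ hB.ne' (by linarith)
  rw [← himg, lintegral_image_eq_lintegral_abs_deriv_mul measurableSet_Ioo hd hinj,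
    lintegral_const_mul' _ _ ENNReal.ofReal_ne_top, ← mul_assoc,
    ← ENNReal.ofReal_mul (by positivity), abs_neg, abs_of_pos hB, inv_mul_cancel₀ hB.ne']
  simp

lemma sinh_arcosh_x0 (y : E) : sinh (arcosh (x0 y)) = ‖y‖ := by
  rw [sinh_arcosh (one_le_x0 y), x0_sq]; simp

/-- Radial push-forward of the kernel centred at `y`. -/
lemma lintegral_kt_rad {k : ℝ} (hk : 0 < k) {y : E} (hy : y ≠ 0) (G : ℝ → ℝ≥0∞)
    (hG : Measurable G) :
    ∫⁻ x : E, ENNReal.ofReal (kt k (lor (lift y) (lift x))) * G (arcosh (x0 x)) ∂(hypVol E) =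
      ∫⁻ r in Ioi (0 : ℝ), ENNReal.ofReal (sinh r * (gk k (r - arcosh (x0 y)) -
        gk k (r + arcosh (x0 y))) / sinh (arcosh (x0 y))) * G r := by
  have hk' := measurable_kt k
  have ha := measurable_arcosh
  have hn : 0 < ‖y‖ := norm_pos_iff.2 hy
  set s := arcosh (x0 y) with hs
  have hcs : cosh s = x0 y := cosh_arcosh (one_le_x0 y)
  have hss : sinh s = ‖y‖ := sinh_arcosh_x0 y
  have hs0 : 0 ≤ s := arcosh_nonneg (one_le_x0 y)
  have he : ‖(‖y‖⁻¹ • y : E)‖ = 1 := by
    rw [norm_smul, norm_inv, norm_norm, inv_mul_cancel₀ hn.ne']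
  have := lintegral_cyl he
    (fun q => ENNReal.ofReal (kt k (cosh s * q.1 - sinh s * q.2)) * G (arcosh q.1)) (by fun_prop)
  have e1 : ∀ x : E, lor (lift y) (lift x) =
      cosh s * x0 x - sinh s * inner ℝ (‖y‖⁻¹ • y) x := by
    intro x
    rw [lor_lift_lift, hcs, hss, inner_smul_left]
    simp only [conj_trivial]
    field_simp
  simp_rw [e1]
  simp only at this
  rw [this, lintegral_regD_polar _ (by fun_prop), ← lintegral_const_mul' _ _ ENNReal.ofReal_ne_top]
  apply setLIntegral_congr_fun measurableSet_Ioi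
  intro r hr
  have hr0 : 0 < r := hr
  have hr' : 0 < sinh r := sinh_pos_iff.2 hr
  simp only [arcosh_cosh hr0.le]
  rw [lintegral_mul_const _ (by fun_prop),
    lintegral_affine _ _ _ (hss ▸ hn) (fun u => ENNReal.ofReal (kt k u))]
  have c1 : cosh s * cosh r - sinh s * sinh r = cosh (r - s) := by rw [cosh_sub]; ring
  have c2 : cosh s * cosh r + sinh s * sinh r = cosh (r + s) := by rw [cosh_add]; ring
  have hab : |r - s| ≤ |r + s| := by
    rw [abs_of_nonneg (by linarith : 0 ≤ r + s), abs_le]; constructor <;> linarith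
  have hg := gk_anti hk hab
  rw [c1, c2, lintegral_kt_Ioo hk hab, ← mul_assoc, ← mul_assoc, ← mul_assoc,
    ← ENNReal.ofReal_mul (by positivity), ← ENNReal.ofReal_mul (by positivity),
    ← ENNReal.ofReal_mul (by rw [hss]; positivity)]
  congr 2
  rw [hss]
  field_simp

end Pool.Agent.MP_e4fe74_an
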