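import Pool.Agent.MP_e4fe74_an.Approx

noncomputable section

namespace Pool.Agent.MP_e4fe74_an

open MeasureTheory Set Real Filter Topology FourierTransform SchwartzMap
open scoped ENNReal ContDiff

variable {E : Type} [NormedAddCommGroup E] [InnerProductSpace ℝ E] [FiniteDimensional ℝ E]
  [MeasurableSpace E] [BorelSpace E] [Fact (Module.finrank ℝ E = 3)]

set_option linter.unusedSectionVars false

variable {p : ℝ≥0∞} [Fact (1 ≤ p)]

/-- the dense set of the criterion -/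
def YY (E : Type) [NormedAddCommGroup E] [InnerProductSpace ℝ E] [FiniteDimensional ℝ E]
    [MeasurableSpace E] [BorelSpace E] (p : ℝ≥0∞) : Set (Lp ℂ p (hypVol E)) :=
  {F | ∃ (f : E → ℂ) (G : ℝ → ℂ), Continuous f ∧ HasCompactSupport f ∧ ContDiff ℝ ∞ G ∧
    HasCompactSupport G ∧ (∀ r, G (-r) = -G r) ∧ F =ᵐ[hypVol E] BB f G}

lemma dense_YY (ht : p ≠ ⊤) : Dense (YY E p) := by
  rw [Metric.dense_iff]
  intro F ε hε
  obtain ⟨f, hc, h1, hf, hm⟩ := (Lp.memLp F).exists_hasCompactSupport_eLpNorm_sub_le ht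
    (ε := ENNReal.ofReal (ε / 3)) (ENNReal.ofReal_pos.2 (by positivity)).ne'
  obtain ⟨K, hK, h2⟩ := approx hf hc
  set M := hypVol E K ^ (1 / p.toReal) with hM
  have hMt : M ≠ ⊤ := ENNReal.rpow_ne_top_of_nonneg (by positivity) hK.measure_lt_top.ne
  have hM0 : 0 < M.toReal + 1 := by positivity
  obtain ⟨G, g1, g2, g3, g4⟩ := h2 (ε / 3 / (M.toReal + 1)) (by positivity)
  have hB := (stronglyMeasurable_BB hf.measurable g1.continuous.measurable).aestronglyMeasurable
    (μ := hypVol E)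
  have h3 : eLpNorm (BB f G - f) p (hypVol E) ≤ ENNReal.ofReal (ε / 3) := by
    refine (eLpNorm_mono_real (g := K.indicator fun _ => ε / 3 / (M.toReal + 1)) g4).trans
      ((eLpNorm_indicator_const_le _ _).trans ?_)
    rw [← hM, Real.enorm_eq_ofReal (by positivity), ← ENNReal.ofReal_toReal hMt,
      ← ENNReal.ofReal_mul (by positivity), ENNReal.toReal_ofReal ENNReal.toReal_nonneg]
    apply ENNReal.ofReal_le_ofReal
    rw [div_mul_eq_mul_div, div_le_iff₀ hM0]
    nlinarith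
  have h4 : MemLp (BB f G) p (hypVol E) := by
    have : MemLp (BB f G - f) p (hypVol E) :=
      ⟨hB.sub hf.aestronglyMeasurable, h3.trans_lt ENNReal.ofReal_lt_top⟩
    simpa using this.add hm
  refine ⟨h4.toLp _, ?_, f, G, hf, hc, g1, g2, g3, h4.coeFn_toLp⟩
  rw [Metric.mem_ball, Lp.dist_def]
  have h5 : eLpNorm (⇑(h4.toLp _) - ⇑F) p (hypVol E) ≤
      ENNReal.ofReal (ε / 3) + ENNReal.ofReal (ε / 3) := by
    have e : (⇑(h4.toLp _) - ⇑F : E → ℂ) =ᵐ[hypVol E] (BB f G - f) - (⇑F - f) := by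
      filter_upwards [h4.coeFn_toLp] with x hx
      simp [hx]
    rw [eLpNorm_congr_ae e]
    exact (eLpNorm_sub_le (hB.sub hf.aestronglyMeasurable)
      ((Lp.aestronglyMeasurable F).sub hf.aestronglyMeasurable) Fact.out).trans
      (add_le_add h3 h1)
  rw [← ENNReal.ofReal_add (by positivity) (by positivity)] at h5
  exact (ENNReal.toReal_le_of_le_ofReal (by positivity) h5).trans_lt (by linarith)

lemma tendsto_eLpNorm_BB (h2 : 2 < p) (ht : p ≠ ⊤) {f : E → ℂ} (hf : Measurable f)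
    (hi : Integrable f (hypVol E)) {G : ℕ → ℝ → ℂ} (hG : ∀ n, Measurable (G n))
    (h : Tendsto (fun n => Nrm p.toReal (G n)) atTop (𝓝 0)) :
    Tendsto (fun n => eLpNorm (BB f (G n)) p (hypVol E)) atTop (𝓝 0) := by
  have hp := two_lt_toReal h2 ht
  have h0 : p ≠ 0 := (lt_trans (by norm_num) h2).ne'
  obtain ⟨C, hC, hy⟩ := young (p := p.toReal) (by linarith) hf hi
  have h1 : Tendsto (fun n => (C * Nrm p.toReal (G n)) ^ (1 / p.toReal)) atTop (𝓝 0) := by
    have a := ENNReal.Tendsto.const_mul h (Or.inr hC)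
    have b := ((ENNReal.continuous_rpow_const (y := 1 / p.toReal)).tendsto _).comp a
    rwa [mul_zero, ENNReal.zero_rpow_of_pos (by positivity)] at b
  refine tendsto_of_tendsto_of_tendsto_of_le_of_le tendsto_const_nhds h1 (fun _ => zero_le)
    fun n => ?_
  simp only
  rw [eLpNorm_eq_lintegral_rpow_enorm_toReal h0 ht]
  exact ENNReal.rpow_le_rpow (hy _ (hG n)) (by positivity)

lemma tendsto_zero_of_ae {F : ℕ → Lp ℂ p (hypVol E)} {g : ℕ → E → ℂ}
    (h : ∀ᶠ n in atTop, F n =ᵐ[hypVol E] g n)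
    (h' : Tendsto (fun n => eLpNorm (g n) p (hypVol E)) atTop (𝓝 0)) :
    Tendsto F atTop (𝓝 0) := by
  rw [tendsto_zero_iff_norm_tendsto_zero]
  have := (ENNReal.tendsto_toReal ENNReal.zero_ne_top).comp h'
  refine this.congr' ?_
  filter_upwards [h] with n hn
  rw [Lp.norm_def, eLpNorm_congr_ae hn]
  rfl

lemma hypercyclic (h2 : 2 < p) (ht : p ≠ ⊤) :
    ∃ F : Lp ℂ p (hypVol E), Dense (range fun n : ℕ => (Top h2 ht)^[n] F) := by
  have : Fact (p ≠ ⊤) := ⟨ht⟩
  have hp := two_lt_toReal h2 ht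
  have hk := kp_pos h2 ht
  apply hc_criterion (Top h2 ht) (dense_YY ht)
  · rintro F ⟨f, G, hf, hc, g1, g2, g3, hF⟩
    obtain ⟨a, rfl⟩ := exists_WP_eq g1 g2 g3 0
    have hi : Integrable f (hypVol E) := hf.integrable_of_hasCompactSupport hc
    have hβ : |(0 : ℝ)| ≤ kp p / 2 := by rw [abs_zero]; positivity
    exact tendsto_zero_of_ae (Eventually.of_forall fun n =>
      Top_iterate_BB h2 ht hβ (good_schwartz a) hf.measurable hi F hF n)
      (tendsto_eLpNorm_BB h2 ht hf.measurable hi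
        (fun n => measurable_WP (good_pow h2 ht hβ (good_schwartz a) n).meas 0)
        (tendsto_Nrm_forward hp hk (good_schwartz a)))
  · rintro F ⟨f, G, hf, hc, g1, g2, g3, hF⟩
    have hb : kp p / 2 = 1 - 2 / p.toReal := by unfold kp; ring
    obtain ⟨a, rfl⟩ := exists_WP_eq g1 g2 g3 (kp p / 2)
    have hi : Integrable f (hypVol E) := hf.integrable_of_hasCompactSupport hc
    have hβ : |kp p / 2| ≤ kp p / 2 := by rw [abs_of_pos (by positivity)]
    have hc0 : 0 < 2 * π ^ 2 / kp p := by positivity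
    have hm : ∀ n, Measurable (WP (kp p / 2) (amp (2 * π ^ 2 / kp p) a n)) := fun n =>
      measurable_WP (good_schwartz _).meas _
    have h3 := tendsto_eLpNorm_BB h2 ht hf.measurable hi hm
      (by rw [hb]; exact tendsto_Nrm_amp hp hc0 a)
    have h4 : ∀ᶠ n in atTop,
        MemLp (BB f (WP (kp p / 2) (amp (2 * π ^ 2 / kp p) a n))) p (hypVol E) := by
      filter_upwards [h3.eventually (gt_mem_nhds ENNReal.zero_lt_top)] with n hn
      exact ⟨(stronglyMeasurable_BB hf.measurable (hm n)).aestronglyMeasurable, hn⟩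
    classical
    let x : ℕ → Lp ℂ p (hypVol E) := fun n =>
      if h : MemLp (BB f (WP (kp p / 2) (amp (2 * π ^ 2 / kp p) a n))) p (hypVol E) then
        h.toLp _ else 0
    have h5 : ∀ᶠ n in atTop,
        x n =ᵐ[hypVol E] BB f (WP (kp p / 2) (amp (2 * π ^ 2 / kp p) a n)) := by
      filter_upwards [h4] with n hn
      simp only [x, dif_pos hn]
      exact hn.coeFn_toLp
    refine ⟨x, tendsto_zero_of_ae h5 h3, ?_⟩
    filter_upwards [h5] with n hn
    have h6 := Top_iterate_BB h2 ht hβ (good_schwartz _) hf.measurable hi _ hn n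
    have e : (fun y => mm (kp p) (lam (kp p / 2) y) ^ n * amp (2 * π ^ 2 / kp p) a n y) = a := by
      ext y
      rw [amp_apply, ← mul_assoc, ← mul_pow, lam, mm_mul_phase hk, one_pow, one_mul]
    rw [e] at h6
    exact Lp.ext (h6.trans hF.symm)

lemma Top_act (h2 : 2 < p) (ht : p ≠ ⊤) {g : (ℝ × E) →ₗ[ℝ] (ℝ × E)} (hg : IsLorentz g)
    (F H : Lp ℂ p (hypVol E)) (h : H =ᵐ[hypVol E] F ∘ act g) :
    Top h2 ht H =ᵐ[hypVol E] Top h2 ht F ∘ act g := by
  have h1 := hg.measurePreserving.quasiMeasurePreserving.ae_eq_comp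
    (coeFn_Top h2 ht F EventuallyEq.rfl)
  refine (coeFn_Top h2 ht H h).trans (EventuallyEq.trans (Eventually.of_forall fun x => ?_) h1.symm)
  rw [hg.Sf_act, hg.Sf_act]
  rfl

lemma Top_symbol (h2 : 2 < p) (ht : p ≠ ⊤) {f : E → ℂ} (hf : Continuous f)
    (hc : HasCompactSupport f) (F : Lp ℂ p (hypVol E)) (hF : F =ᵐ[hypVol E] f) {l : ℂ}
    (hl : |l.im| ≤ kp p / 2) {b : E} (hb : ‖b‖ = 1) :
    Integrable (fun x => Top h2 ht F x * helgasonKernel l b x) (hypVol E) ∧
      ∫ x, Top h2 ht F x * helgasonKernel l b x ∂hypVol E =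
        mm (kp p) l * ∫ x, f x * helgasonKernel l b x ∂hypVol E := by
  have hk := kp_pos h2 ht
  have hs : |(Complex.I * l - 1 + 1).re| < kp p := by
    simp only [sub_add_cancel, Complex.I_mul_re, abs_neg]; linarith
  have hP : Continuous fun x : E => ((lor (lift x) (1, b) : ℝ) : ℂ) ^ (Complex.I * l - 1) := by
    have : Continuous fun x : E => lor (lift x) (1, b) :=
      continuous_lor.comp (continuous_lift.prodMk continuous_const)
    exact (Complex.continuous_ofReal.comp this).cpow continuous_const fun x =>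
      Complex.ofReal_mem_slitPlane.2 (lor_null_pos hb x)
  have i0 : Integrable (fun x => f x * ((lor (lift x) (1, b) : ℝ) : ℂ) ^ (Complex.I * l - 1))
      (hypVol E) := (hf.mul hP).integrable_of_hasCompactSupport hc.mul_right
  obtain ⟨i1, e1⟩ := symbol_Sf hk hb hs hf.measurable i0
  obtain ⟨i2, e2⟩ := symbol_Sf hk hb hs
    (stronglyMeasurable_Sf _ hf.stronglyMeasurable).measurable i1
  have e : (fun x => Top h2 ht F x * helgasonKernel l b x) =ᵐ[hypVol E] fun x =>
      f x * ((lor (lift x) (1, b) : ℝ) : ℂ) ^ (Complex.I * l - 1) -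
      Sf (kp p) (Sf (kp p) f) x * ((lor (lift x) (1, b) : ℝ) : ℂ) ^ (Complex.I * l - 1) := by
    filter_upwards [coeFn_Top h2 ht F hF] with x hx
    rw [hx, sub_mul]; rfl
  refine ⟨(i0.sub i2).congr e.symm, ?_⟩
  rw [integral_congr_ae e, integral_sub i0 i2, e2, e1]
  have c : (π : ℂ) * (Complex.I * l - 1 + 1) / (2 * kp p) = π * l / (2 * kp p) * Complex.I := by
    ring
  rw [c, Complex.cos_mul_I, mm, sg]
  unfold helgasonKernel
  ring

end Pool.Agent.MP_e4fe74_an

open MeasureTheory in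
theorem Pool.Agent.MP_e4fe74_an.main (E : Type) [NormedAddCommGroup E]
    [InnerProductSpace ℝ E] [FiniteDimensional ℝ E] [MeasurableSpace E] [BorelSpace E]
    (hE : Module.finrank ℝ E = 3) (p : ENNReal) [Fact (1 ≤ p)] (h2 : 2 < p) (ht : p ≠ ⊤) :
    ∃ (T : Lp ℂ p (hypVol E) → Lp ℂ p (hypVol E)) (m : ℂ → ℂ), IsBoundedLinearMap ℂ T ∧
      (∀ g, IsLorentz g → ∀ F H : Lp ℂ p (hypVol E),
        H =ᵐ[hypVol E] F ∘ act g → T H =ᵐ[hypVol E] T F ∘ act g) ∧
      DifferentiableOn ℂ m {l | |l.im| < |2 / p.toReal - 1|} ∧ (∀ l, m (-l) = m l) ∧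
      (∀ l : ℂ, |l.im| ≤ |2 / p.toReal - 1| → ‖m l‖ ≤ 1) ∧
      (∀ f : E → ℂ, Continuous f → HasCompactSupport f →
        ∀ F : Lp ℂ p (hypVol E), F =ᵐ[hypVol E] f → ∀ l : ℂ, |l.im| ≤ |2 / p.toReal - 1| →
          ∀ b : E, ‖b‖ = 1 → Integrable (fun x => T F x * helgasonKernel l b x) (hypVol E) ∧
            ∫ x, T F x * helgasonKernel l b x ∂hypVol E =
              m l * ∫ x, f x * helgasonKernel l b x ∂hypVol E) ∧
      ∃ F : Lp ℂ p (hypVol E), Dense (Set.range fun n : ℕ => T^[n] F) := by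
  have : Fact (Module.finrank ℝ E = 3) := ⟨hE⟩
  have hk := kp_pos h2 ht
  have hb : |2 / p.toReal - 1| = kp p / 2 := by
    rw [abs_sub_comm, abs_of_pos (by unfold kp at hk; linarith)]; unfold kp; ring
  rw [hb]
  exact ⟨Top h2 ht, mm (kp p), (Top h2 ht).isBoundedLinearMap, fun g hg => Top_act h2 ht hg,
    fun l hl => (differentiableAt_mm hk (le_of_lt hl)).differentiableWithinAt, mm_neg _,
    fun l hl => norm_mm_le hk hl,
    fun f hf hc F hF l hl b hb => Top_symbol h2 ht hf hc F hF hl hb, hypercyclic h2 ht⟩
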