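import Mathlib

noncomputable section

namespace Pool.Agent.MP_e4fe74_an

open MeasureTheory Set Real Filter Topology
open scoped ENNReal ContDiff

/-- symbol of the convolution operator -/
def sg (k : ℝ) (l : ℂ) : ℂ := 1 / Complex.cosh (π * l / (2 * k))

/-- symbol of the hypercyclic operator -/
def mm (k : ℝ) (l : ℂ) : ℂ := 1 - sg k l ^ 2

lemma normSq_cosh (x y : ℝ) : ‖Complex.cosh (x + y * Complex.I)‖ ^ 2 = sinh x ^ 2 + cos y ^ 2 := by
  rw [Complex.cosh_add, Complex.cosh_mul_I, Complex.sinh_mul_I, ← Complex.ofReal_cosh,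
    ← Complex.ofReal_sinh, ← Complex.ofReal_cos, ← Complex.ofReal_sin, ← mul_assoc,
    ← Complex.ofReal_mul, ← Complex.ofReal_mul, Complex.sq_norm, Complex.normSq_add_mul_I]
  nlinarith [cosh_sq x, sin_sq_add_cos_sq y]

lemma normSq_sinh (x y : ℝ) : ‖Complex.sinh (x + y * Complex.I)‖ ^ 2 = sinh x ^ 2 + sin y ^ 2 := by
  rw [Complex.sinh_add, Complex.cosh_mul_I, Complex.sinh_mul_I, ← Complex.ofReal_cosh,
    ← Complex.ofReal_sinh, ← Complex.ofReal_cos, ← Complex.ofReal_sin, ← mul_assoc,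
    ← Complex.ofReal_mul, ← Complex.ofReal_mul, Complex.sq_norm, Complex.normSq_add_mul_I]
  nlinarith [cosh_sq x, sin_sq_add_cos_sq y]

lemma normSq_sin (x y : ℝ) : ‖Complex.sin (x + y * Complex.I)‖ ^ 2 = sin x ^ 2 + sinh y ^ 2 := by
  rw [Complex.sin_add, Complex.cos_mul_I, Complex.sin_mul_I, ← Complex.ofReal_cosh,
    ← Complex.ofReal_sinh, ← Complex.ofReal_cos, ← Complex.ofReal_sin, ← mul_assoc,
    ← Complex.ofReal_mul, ← Complex.ofReal_mul, Complex.sq_norm, Complex.normSq_add_mul_I]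
  nlinarith [cosh_sq y, sin_sq_add_cos_sq x]

lemma arg_eq {k : ℝ} (hk : 0 < k) (l : ℂ) : (π * l / (2 * k) : ℂ) =
    ((π * l.re / (2 * k) : ℝ) : ℂ) + ((π * l.im / (2 * k) : ℝ) : ℂ) * Complex.I := by
  have : (k : ℂ) ≠ 0 := by exact_mod_cast hk.ne'
  conv_lhs => rw [← Complex.re_add_im l]
  push_cast
  field_simp

lemma half_le_cos_sq {y : ℝ} (hy : |y| ≤ π / 4) : 1 / 2 ≤ cos y ^ 2 := by
  have h1 : 0 ≤ cos (2 * y) := by
    obtain ⟨a, b⟩ := abs_le.1 hy
    apply cos_nonneg_of_mem_Icc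
    constructor <;> linarith
  rw [cos_two_mul] at h1
  linarith

lemma im_bound {k : ℝ} (hk : 0 < k) {l : ℂ} (hl : |l.im| ≤ k / 2) :
    |π * l.im / (2 * k)| ≤ π / 4 := by
  rw [abs_div, abs_mul, abs_of_pos pi_pos, abs_of_pos (by positivity : 0 < 2 * k),
    div_le_iff₀ (by positivity)]
  nlinarith [pi_pos]

lemma half_le_normSq_cosh {k : ℝ} (hk : 0 < k) {l : ℂ} (hl : |l.im| ≤ k / 2) :
    1 / 2 ≤ ‖Complex.cosh (π * l / (2 * k))‖ ^ 2 := by
  rw [arg_eq hk, normSq_cosh]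
  linarith [half_le_cos_sq (im_bound hk hl), sq_nonneg (sinh (π * l.re / (2 * k)))]

lemma cosh_ne_zero {k : ℝ} (hk : 0 < k) {l : ℂ} (hl : |l.im| ≤ k / 2) :
    Complex.cosh (π * l / (2 * k)) ≠ 0 := by
  intro h
  have := half_le_normSq_cosh hk hl
  rw [h] at this; norm_num at this

lemma norm_sg_le {k : ℝ} (hk : 0 < k) {l : ℂ} (hl : |l.im| ≤ k / 2) : ‖sg k l‖ ≤ 2 := by
  have h := half_le_normSq_cosh hk hl
  have h0 := norm_pos_iff.2 (cosh_ne_zero hk hl)
  rw [sg, norm_div, norm_one, div_le_iff₀ h0]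
  nlinarith

lemma mm_eq {k : ℝ} (hk : 0 < k) {l : ℂ} (hl : |l.im| ≤ k / 2) :
    mm k l = Complex.sinh (π * l / (2 * k)) ^ 2 / Complex.cosh (π * l / (2 * k)) ^ 2 := by
  have := cosh_ne_zero hk hl
  rw [mm, sg, Complex.sinh_sq]
  field_simp

lemma norm_mm_le {k : ℝ} (hk : 0 < k) {l : ℂ} (hl : |l.im| ≤ k / 2) : ‖mm k l‖ ≤ 1 := by
  have h0 := norm_pos_iff.2 (cosh_ne_zero hk hl)
  rw [mm_eq hk hl, norm_div, norm_pow, norm_pow, div_le_one (by positivity), arg_eq hk,
    normSq_cosh, normSq_sinh]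
  have := half_le_cos_sq (im_bound hk hl)
  nlinarith [sin_sq_add_cos_sq (π * l.im / (2 * k))]

lemma norm_mm_lt {k : ℝ} (hk : 0 < k) {l : ℂ} (hl : l.im = 0) : ‖mm k l‖ < 1 := by
  have hl' : |l.im| ≤ k / 2 := by rw [hl, abs_zero]; positivity
  have h0 := norm_pos_iff.2 (cosh_ne_zero hk hl')
  rw [mm_eq hk hl', norm_div, norm_pow, norm_pow, div_lt_one (by positivity), arg_eq hk,
    normSq_cosh, normSq_sinh, hl]
  simp

lemma mm_neg (k : ℝ) (l : ℂ) : mm k (-l) = mm k l := by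
  simp only [mm, sg]
  rw [mul_neg, neg_div, Complex.cosh_neg]

lemma differentiableAt_mm {k : ℝ} (hk : 0 < k) {l : ℂ} (hl : |l.im| ≤ k / 2) :
    DifferentiableAt ℂ (mm k) l := by
  have := cosh_ne_zero hk hl
  unfold mm sg
  fun_prop (disch := assumption)

lemma measurable_sg (k : ℝ) : Measurable (sg k) := by
  have := Complex.continuous_cosh.measurable
  unfold sg; fun_prop

lemma measurable_mm (k : ℝ) : Measurable (mm k) := by
  have := measurable_sg k
  unfold mm; fun_prop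

/-- the phase on the boundary line -/
def th (c x : ℝ) : ℝ := 4 * arctan (exp (c * x))
def th' (c x : ℝ) : ℝ := 4 * c * exp (c * x) / (1 + exp (c * x) ^ 2)
def th'' (c x : ℝ) : ℝ := 4 * c ^ 2 * exp (c * x) * (1 - exp (c * x) ^ 2) / (1 + exp (c * x) ^ 2) ^ 2

lemma hasDerivAt_exp_mul (c x : ℝ) : HasDerivAt (fun x => exp (c * x)) (exp (c * x) * c) x :=
  ((hasDerivAt_id x).const_mul c).exp.congr_deriv (by simp)

lemma hasDerivAt_th (c x : ℝ) : HasDerivAt (th c) (th' c x) x := by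
  refine ((hasDerivAt_exp_mul c x).arctan.const_mul 4).congr_deriv ?_
  unfold th'; field_simp

lemma hasDerivAt_th' (c x : ℝ) : HasDerivAt (th' c) (th'' c x) x := by
  refine (((hasDerivAt_exp_mul c x).const_mul (4 * c)).div
    (((hasDerivAt_exp_mul c x).pow 2).const_add 1)
    (by simp only [Pi.pow_apply]; positivity)).congr_deriv ?_
  unfold th''
  simp only [Pi.pow_apply]
  congr 1
  simp; ring

lemma continuous_th'' (c : ℝ) : Continuous (th'' c) := by
  unfold th''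
  exact Continuous.div (by fun_prop) (by fun_prop) fun x => by positivity

lemma th''_neg {c : ℝ} (hc : 0 < c) {x : ℝ} (hx : 0 < x) : th'' c x < 0 := by
  unfold th''
  have h1 : 1 < exp (c * x) := one_lt_exp_iff.2 (by positivity)
  apply div_neg_of_neg_of_pos _ (by positivity)
  apply mul_neg_of_pos_of_neg (by positivity)
  nlinarith

lemma th''_pos {c : ℝ} (hc : 0 < c) {x : ℝ} (hx : x < 0) : 0 < th'' c x := by
  unfold th''
  have h1 : exp (c * x) < 1 := exp_lt_one_iff.2 (mul_neg_of_pos_of_neg hc hx)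
  have h2 := exp_pos (c * x)
  apply div_pos _ (by positivity)
  apply mul_pos (by positivity)
  nlinarith

/-- auxiliary function with `w' = c (w² - w)` -/
def ww (c x : ℝ) : ℂ := (1 - Complex.I * (exp (c * x) : ℝ))⁻¹

lemma one_le_norm_den (s : ℝ) : 1 ≤ ‖1 - Complex.I * (s : ℂ)‖ := by
  have := Complex.re_le_norm (1 - Complex.I * (s : ℂ))
  simpa using this

lemma den_ne (s : ℝ) : 1 - Complex.I * (s : ℂ) ≠ 0 := by
  intro h; have := one_le_norm_den s; rw [h] at this; norm_num at this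

lemma norm_ww_le (c x : ℝ) : ‖ww c x‖ ≤ 1 := by
  rw [ww, norm_inv]; exact inv_le_one_of_one_le₀ (one_le_norm_den _)

lemma hasDerivAt_ww (c x : ℝ) : HasDerivAt (ww c) (c * (ww c x ^ 2 - ww c x)) x := by
  have h1 := (((hasDerivAt_exp_mul c x).ofReal_comp.const_mul Complex.I).const_sub 1).inv
    (den_ne _)
  refine h1.congr_deriv ?_
  have := den_ne (exp (c * x))
  unfold ww
  rw [Complex.ofReal_mul]
  field_simp
  ring

lemma contDiff_ww (c : ℝ) : ContDiff ℝ ∞ (ww c) := by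
  unfold ww
  apply ContDiff.inv _ fun x => den_ne _
  have : ContDiff ℝ ∞ fun x : ℝ => ((exp (c * x) : ℝ) : ℂ) :=
    Complex.ofRealCLM.contDiff.comp (f := fun x : ℝ => exp (c * x)) (by fun_prop)
  fun_prop

lemma iteratedDeriv_poly_ww (c : ℝ) (n : ℕ) : ∀ P : Polynomial ℂ, ∃ Q : Polynomial ℂ,
    iteratedDeriv n (fun x => P.eval (ww c x)) = fun x => Q.eval (ww c x) := by
  induction n with
  | zero => intro P; exact ⟨P, by simp⟩
  | succ n ih =>
    intro P
    obtain ⟨Q, hQ⟩ := ih (P.derivative * (Polynomial.C (c : ℂ) * (Polynomial.X ^ 2 - Polynomial.X)))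
    refine ⟨Q, ?_⟩
    rw [iteratedDeriv_succ', ← hQ]
    congr 1
    ext x
    have := (P.hasDerivAt (ww c x)).comp_of_eq x (hasDerivAt_ww c x) rfl
    rw [show (fun x => P.eval (ww c x)) = (fun z => P.eval z) ∘ ww c from rfl, this.deriv]
    simp

lemma temperate_ww (c : ℝ) : (ww c).HasTemperateGrowth := by
  refine ⟨contDiff_ww c, fun n => ?_⟩
  obtain ⟨Q, hQ⟩ := iteratedDeriv_poly_ww c n Polynomial.X
  simp only [Polynomial.eval_X] at hQ
  obtain ⟨C, hC⟩ := (isCompact_closedBall (0 : ℂ) 1).exists_bound_of_continuousOn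
    Q.continuous.continuousOn
  refine ⟨0, C, fun x => ?_⟩
  rw [norm_iteratedFDeriv_eq_norm_iteratedDeriv, show ww c = fun x => ww c x from rfl, hQ]
  simpa using hC _ (by simpa using norm_ww_le c x)

lemma exp_I_arctan (s : ℝ) : Complex.exp (Complex.I * ((4 * arctan s : ℝ) : ℂ)) =
    (2 * (1 - Complex.I * (s : ℂ))⁻¹ - 1) ^ 2 := by
  have h1 : Complex.exp (Complex.I * ((4 * arctan s : ℝ) : ℂ)) =
      Complex.exp ((arctan s : ℝ) * Complex.I) ^ 4 := by
    rw [← Complex.exp_nat_mul]; push_cast; ring_nf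
  rw [h1, Complex.exp_mul_I, ← Complex.ofReal_cos, ← Complex.ofReal_sin, cos_arctan, sin_arctan]
  have hq : 0 < √(1 + s ^ 2) := Real.sqrt_pos.2 (by positivity)
  have hq2 : ((√(1 + s ^ 2) : ℝ) : ℂ) ^ 2 = (1 + Complex.I * s) * (1 - Complex.I * s) := by
    rw [← Complex.ofReal_pow, Real.sq_sqrt (by positivity)]
    push_cast
    linear_combination ((s : ℂ) ^ 2) * Complex.I_mul_I
  have hq' : ((√(1 + s ^ 2) : ℝ) : ℂ) ≠ 0 := by exact_mod_cast hq.ne'
  have hd := den_ne s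
  have hd' : 1 + Complex.I * (s : ℂ) ≠ 0 := by simpa using den_ne (-s)
  rw [Complex.ofReal_div, Complex.ofReal_div]
  generalize ((√(1 + s ^ 2) : ℝ) : ℂ) = q at *
  have e1 : ((1 : ℝ) : ℂ) / q + s / q * Complex.I = (1 + Complex.I * s) / q := by
    push_cast; field_simp
  have e2 : q ^ 4 = ((1 + Complex.I * s) * (1 - Complex.I * s)) ^ 2 := by rw [← hq2]; ring
  rw [e1, div_pow, e2]
  field_simp
  ring

lemma exp_I_th (c x : ℝ) : Complex.exp (Complex.I * (th c x : ℝ)) = (2 * ww c x - 1) ^ 2 :=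
  exp_I_arctan _

lemma temperate_phase (c : ℝ) (n : ℕ) :
    (fun x => Complex.exp (Complex.I * (th c x : ℝ)) ^ n).HasTemperateGrowth := by
  simp_rw [exp_I_th]
  have := temperate_ww c
  fun_prop

lemma mm_mul_phase {k : ℝ} (hk : 0 < k) (x : ℝ) :
    mm k (2 * π * x + (k / 2 : ℝ) * Complex.I) *
      Complex.exp (Complex.I * (th (2 * π ^ 2 / k) x : ℝ)) = 1 := by
  have hl : |(2 * π * x + (k / 2 : ℝ) * Complex.I : ℂ).im| ≤ k / 2 := by
    simp only [Complex.add_im, Complex.mul_im, Complex.mul_re, Complex.ofReal_re,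
      Complex.ofReal_im, Complex.I_im, Complex.I_re]
    simp [abs_of_pos (half_pos hk)]
  have hc := cosh_ne_zero hk hl
  rw [mm_eq hk hl, exp_I_th, ww]
  set z : ℂ := π * (2 * π * x + (k / 2 : ℝ) * Complex.I) / (2 * k) with hz
  set s : ℝ := exp (2 * π ^ 2 / k * x) with hs
  have hk' : (k : ℂ) ≠ 0 := by exact_mod_cast hk.ne'
  have e1 : Complex.exp z ^ 2 = Complex.I * s := by
    rw [← Complex.exp_nat_mul, hs, Complex.ofReal_exp, ← Complex.exp_pi_div_two_mul_I,
      ← Complex.exp_add]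
    congr 1
    rw [hz]; push_cast; field_simp; ring
  have hE := Complex.exp_ne_zero z
  have a1 : Complex.sinh z = (Complex.I * s - 1) / (2 * Complex.exp z) := by
    rw [← e1, Complex.sinh, Complex.exp_neg]; field_simp
  have a2 : Complex.cosh z = (Complex.I * s + 1) / (2 * Complex.exp z) := by
    rw [← e1, Complex.cosh, Complex.exp_neg]; field_simp
  have hd := den_ne s
  have hd' : Complex.I * (s : ℂ) + 1 ≠ 0 := by
    rw [add_comm]; simpa using den_ne (-s)
  rw [a1, a2]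
  field_simp
  ring

end Pool.Agent.MP_e4fe74_an
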