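import Pool.Agent.MP_e4fe74_an.Schur

noncomputable section

namespace Pool.Agent.MP_e4fe74_an

open MeasureTheory Set Real Filter Topology
open scoped ENNReal

variable {E : Type} [NormedAddCommGroup E] [InnerProductSpace ℝ E] [FiniteDimensional ℝ E]
  [MeasurableSpace E] [BorelSpace E] [Fact (Module.finrank ℝ E = 3)]

set_option linter.unusedSectionVars false

lemma measurable_poisson (b : E) (s : ℂ) :
    Measurable fun x : E => ((lor (lift x) (1, b) : ℝ) : ℂ) ^ s := by
  have hP : Measurable fun x : E => lor (lift x) (1, b) :=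
    (continuous_lor.comp (continuous_lift.prodMk continuous_const)).measurable
  fun_prop

lemma enorm_poisson {b : E} (hb : ‖b‖ = 1) (s : ℂ) (x : E) :
    ‖((lor (lift x) (1, b) : ℝ) : ℂ) ^ s‖ₑ = ENNReal.ofReal (lor (lift x) (1, b) ^ s.re) := by
  rw [← ofReal_norm, Complex.norm_cpow_eq_rpow_re_of_pos (lor_null_pos hb x)]

lemma symbol_Sf {k : ℝ} (hk : 0 < k) {b : E} (hb : ‖b‖ = 1) {s : ℂ} (hs : |(s + 1).re| < k)
    {f : E → ℂ} (hf : Measurable f)
    (hi : Integrable (fun x => f x * ((lor (lift x) (1, b) : ℝ) : ℂ) ^ s) (hypVol E)) :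
    Integrable (fun x => Sf k f x * ((lor (lift x) (1, b) : ℝ) : ℂ) ^ s) (hypVol E) ∧
      ∫ x, Sf k f x * ((lor (lift x) (1, b) : ℝ) : ℂ) ^ s ∂(hypVol E) =
        1 / Complex.cos (π * (s + 1) / (2 * k)) *
          ∫ x, f x * ((lor (lift x) (1, b) : ℝ) : ℂ) ^ s ∂(hypVol E) := by
  have hK := measurable_KK (E := E) k
  have hP := measurable_poisson b s
  set e : E → ℂ := fun x => ((lor (lift x) (1, b) : ℝ) : ℂ) ^ s with he
  have hm : Measurable fun z : E × E => (KK k z.1 z.2 : ℂ) * f z.2 * e z.1 := by fun_prop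
  have hprod : Integrable (fun z : E × E => (KK k z.1 z.2 : ℂ) * f z.2 * e z.1)
      ((hypVol E).prod (hypVol E)) := by
    refine ⟨hm.aestronglyMeasurable, ?_⟩
    rw [hasFiniteIntegral_iff_enorm, lintegral_prod_symm _ hm.enorm.aemeasurable]
    have : ∀ x, ∫⁻ y, ‖(KK k y x : ℂ) * f x * e y‖ₑ ∂(hypVol E) =
        ENNReal.ofReal (1 / cos (π * (s.re + 1) / (2 * k))) * ‖f x * e x‖ₑ := by
      intro x
      have h1 : ∀ y, ‖(KK k y x : ℂ) * f x * e y‖ₑ =
          ENNReal.ofReal (KK k x y) * ENNReal.ofReal (lor (lift y) (1, b) ^ s.re) * ‖f x‖ₑ := by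
        intro y
        rw [enorm_mul, enorm_KK_mul, he]
        simp only
        rw [enorm_poisson hb, KK_comm]; ring
      simp_rw [h1]
      rw [lintegral_mul_const' _ _ enorm_ne_top, eigen_real hk hb (by simpa using hs), enorm_mul,
        he]
      simp only
      rw [enorm_poisson hb]; ring
    simp_rw [this]
    rw [lintegral_const_mul' _ _ ENNReal.ofReal_ne_top]
    exact ENNReal.mul_lt_top ENNReal.ofReal_lt_top hi.2
  have e1 : (fun y => Sf k f y * e y) = fun y => ∫ x, (KK k y x : ℂ) * f x * e y ∂(hypVol E) := by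
    ext y; rw [integral_mul_const]; rfl
  change Integrable (fun y => Sf k f y * e y) (hypVol E) ∧ ∫ y, Sf k f y * e y ∂(hypVol E) = _
  rw [e1]
  refine ⟨hprod.integral_prod_left, ?_⟩
  rw [integral_integral_swap hprod, ← integral_const_mul]
  congr 1
  ext x
  have h2 := (eigen hk hb hs x).2
  have h3 : ∀ y, (KK k y x : ℂ) * f x * e y = f x * ((KK k x y : ℂ) * e y) := by
    intro y; rw [KK_comm]; ring
  simp_rw [h3]
  rw [integral_const_mul, he]
  simp only
  rw [h2]; ring

end Pool.Agent.MP_e4fe74_an
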