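import Pool.Agent.MP_e4fe74_an.Packet
import Pool.Agent.MP_e4fe74_an.Symbol

noncomputable section

namespace Pool.Agent.MP_e4fe74_an

open MeasureTheory Set Real Filter Topology FourierTransform SchwartzMap
open scoped ENNReal ContDiff

variable {E : Type} [NormedAddCommGroup E] [InnerProductSpace ℝ E] [FiniteDimensional ℝ E]
  [MeasurableSpace E] [BorelSpace E] [Fact (Module.finrank ℝ E = 3)]

set_option linter.unusedSectionVars false

/-- the `p`-th power of the norm of a radial function -/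
def Nrm (p : ℝ) (G : ℝ → ℂ) : ℝ≥0∞ :=
  ∫⁻ r in Ioi (0 : ℝ), ENNReal.ofReal (4 * π * sinh r ^ 2) * ‖G r / (sinh r : ℝ)‖ₑ ^ p

lemma lintegral_dst (z : E) (G : ℝ → ℝ≥0∞) (hG : Measurable G) :
    ∫⁻ x, G (dst x z) ∂(hypVol E) =
      ∫⁻ r in Ioi (0 : ℝ), ENNReal.ofReal (4 * π * sinh r ^ 2) * G r := by
  have hg := isLorentz_swap z
  rw [← lintegral_rad (E := E) G hG, ← hg.measurePreserving.lintegral_comp_emb
    hg.measurableEmbedding]
  congr 1
  ext x
  rw [← hg.dst_act, act_swap_swap, act_swap_self, dst_zero]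

lemma lintegral_UU (p : ℝ) {G : ℝ → ℂ} (hG : Measurable G) (z : E) :
    ∫⁻ x, ‖UU G x z‖ₑ ^ p ∂(hypVol E) = Nrm p G :=
  lintegral_dst z (fun r => ‖G r / (sinh r : ℝ)‖ₑ ^ p) (by fun_prop)

lemma Nrm_le {p : ℝ} (hp : 2 < p) {G : ℝ → ℂ} {H : ℝ → ℝ} {C δ D : ℝ} (hD : 0 ≤ D)
    (h1 : ∀ r ∈ Ioc (0 : ℝ) 1, ‖G r‖ ≤ C * sinh r)
    (h2 : ∀ r, 0 < r → ‖G r‖ ≤ exp ((1 - 2 / p) * r) * H r) (h3 : ∀ r, 0 < r → H r ≤ δ)
    (h4 : ∫⁻ r in Ioi (0 : ℝ), ENNReal.ofReal (H r ^ 2) ≤ ENNReal.ofReal D) :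
    Nrm p G ≤ ENNReal.ofReal (4 * π * C ^ (p - 2) * (exp 1 * δ) ^ 2 +
      4 * π * (4 * δ) ^ (p - 2) * D) := by
  have hH : ∀ r, 0 < r → 0 ≤ H r := fun r hr =>
    nonneg_of_mul_nonneg_right ((norm_nonneg _).trans (h2 r hr)) (exp_pos _)
  have hδ : 0 ≤ δ := (hH 1 one_pos).trans (h3 1 one_pos)
  have hC : 0 ≤ C := nonneg_of_mul_nonneg_left ((norm_nonneg _).trans (h1 1 (by simp)))
    (sinh_pos_iff.2 one_pos)
  have hb1 : 1 - 2 / p ≤ 1 := by have : 0 ≤ 2 / p := by positivity
                                 linarith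
  have hb0 : 0 ≤ 1 - 2 / p := by rw [sub_nonneg, div_le_one (by linarith)]; linarith
  set A := 4 * π * C ^ (p - 2) * (exp 1 * δ) ^ 2 with hA
  set B := 4 * π * (4 * δ) ^ (p - 2) with hB
  have pt : ∀ r ∈ Ioi (0 : ℝ), ENNReal.ofReal (4 * π * sinh r ^ 2) * ‖G r / (sinh r : ℝ)‖ₑ ^ p ≤
      (Ioc (0 : ℝ) 1).indicator (fun _ => ENNReal.ofReal A) r +
        ENNReal.ofReal B * ENNReal.ofReal (H r ^ 2) := by
    intro r hr
    have hr0 : 0 < r := hr
    have hs : 0 < sinh r := sinh_pos_iff.2 hr0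
    have e : ENNReal.ofReal (4 * π * sinh r ^ 2) * ‖G r / (sinh r : ℝ)‖ₑ ^ p =
        ENNReal.ofReal (4 * π * (‖G r‖ / sinh r) ^ (p - 2) * ‖G r‖ ^ 2) := by
      rw [← ofReal_norm, norm_div, Complex.norm_real, Real.norm_of_nonneg hs.le,
        ENNReal.ofReal_rpow_of_nonneg (by positivity) (by linarith),
        ← ENNReal.ofReal_mul (by positivity)]
      congr 1
      have : (‖G r‖ / sinh r) ^ p = (‖G r‖ / sinh r) ^ (p - 2) * (‖G r‖ / sinh r) ^ 2 := by
        rw [← rpow_natCast, ← rpow_add' (by positivity) (by push_cast; linarith)]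
        congr 1; push_cast; ring
      rw [this]; field_simp
    rw [e]
    by_cases hr1 : r ≤ 1
    · rw [indicator_of_mem (show r ∈ Ioc (0 : ℝ) 1 from ⟨hr0, hr1⟩)]
      refine le_trans (ENNReal.ofReal_le_ofReal ?_) le_self_add
      have a1 : ‖G r‖ / sinh r ≤ C := by rw [div_le_iff₀ hs]; exact h1 r ⟨hr0, hr1⟩
      have a2 : ‖G r‖ ≤ exp 1 * δ := by
        refine (h2 r hr0).trans (mul_le_mul ?_ (h3 r hr0) (hH r hr0) (exp_pos _).le)
        rw [exp_le_exp]; nlinarith
      rw [hA]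
      gcongr
    · refine le_trans ?_ le_add_self
      rw [← ENNReal.ofReal_mul (by positivity)]
      apply ENNReal.ofReal_le_ofReal
      push Not at hr1
      have a0 : exp r / 4 ≤ sinh r := by
        rw [sinh_eq]
        have b1 : exp (-r) ≤ 1 := exp_le_one_iff.2 (by linarith)
        have b2 : r + 1 ≤ exp r := add_one_le_exp r
        linarith
      have a1 : ‖G r‖ / sinh r ≤ 4 * δ * exp (-(2 / p) * r) := by
        rw [div_le_iff₀ hs]
        calc ‖G r‖ ≤ exp ((1 - 2 / p) * r) * δ := (h2 r hr0).trans (by gcongr; exact h3 r hr0)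
          _ = 4 * δ * exp (-(2 / p) * r) * (exp r / 4) := by
              have : (1 - 2 / p) * r = -(2 / p) * r + r := by ring
              rw [this, exp_add]; ring
          _ ≤ _ := by gcongr
      calc 4 * π * (‖G r‖ / sinh r) ^ (p - 2) * ‖G r‖ ^ 2
          ≤ 4 * π * (4 * δ * exp (-(2 / p) * r)) ^ (p - 2) * (exp ((1 - 2 / p) * r) * H r) ^ 2 := by
            gcongr
            exact h2 r hr0
        _ = B * H r ^ 2 * (exp (-(2 / p) * r * (p - 2)) * exp ((1 - 2 / p) * r) ^ 2) := by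
            rw [mul_rpow (by positivity) (exp_pos _).le, ← exp_mul, hB]; ring
        _ = B * H r ^ 2 := by
            rw [← exp_nat_mul, ← exp_add]
            have : -(2 / p) * r * (p - 2) + ((2 : ℕ) : ℝ) * ((1 - 2 / p) * r) = 0 := by
              push_cast; field_simp; ring
            rw [this, exp_zero, mul_one]
  calc Nrm p G ≤ ∫⁻ r in Ioi (0 : ℝ), ((Ioc (0 : ℝ) 1).indicator (fun _ => ENNReal.ofReal A) r +
        ENNReal.ofReal B * ENNReal.ofReal (H r ^ 2)) :=
        setLIntegral_mono' measurableSet_Ioi pt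
    _ ≤ ENNReal.ofReal A + ENNReal.ofReal B * ENNReal.ofReal D := by
        rw [lintegral_add_left (measurable_const.indicator measurableSet_Ioc),
          lintegral_const_mul' _ _ ENNReal.ofReal_ne_top]
        gcongr
        refine (setLIntegral_le_lintegral _ _).trans ?_
        rw [lintegral_indicator_const measurableSet_Ioc]
        simp
    _ = _ := by
        rw [← ENNReal.ofReal_mul (by positivity), ← ENNReal.ofReal_add (by positivity)
          (by positivity)]

lemma tendsto_bound {p : ℝ} (hp : 2 < p) (C D : ℝ) :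
    Tendsto (fun δ : ℝ => ENNReal.ofReal (4 * π * C ^ (p - 2) * (exp 1 * δ) ^ 2 +
      4 * π * (4 * δ) ^ (p - 2) * D)) (𝓝 0) (𝓝 0) := by
  have h : Continuous fun δ : ℝ => 4 * π * C ^ (p - 2) * (exp 1 * δ) ^ 2 +
      4 * π * (4 * δ) ^ (p - 2) * D := by
    have : Continuous fun δ : ℝ => (4 * δ) ^ (p - 2) :=
      (continuous_const.mul continuous_id).rpow_const fun _ => Or.inr (by linarith)
    fun_prop
  have := ENNReal.continuous_ofReal.continuousAt.tendsto.comp (h.tendsto 0)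
  simpa [zero_rpow (by linarith : p - 2 ≠ 0), Function.comp_def] using this

lemma sinh_mul_le {b r : ℝ} (hb : b ≤ 1) (hr : 0 ≤ r) : sinh (b * |r|) ≤ sinh r := by
  rw [sinh_le_sinh, abs_of_nonneg hr]; nlinarith

/-- backward orbit: norms tend to zero -/
lemma tendsto_Nrm_amp {p : ℝ} (hp : 2 < p) {c : ℝ} (hc : 0 < c) (a : 𝓢(ℝ, ℂ)) :
    Tendsto (fun n => Nrm p (WP (1 - 2 / p) (amp c a n))) atTop (𝓝 0) := by
  have hb1 : 1 - 2 / p ≤ 1 := by have : 0 ≤ 2 / p := by positivity
                                 linarith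
  have hb0 : 0 < 1 - 2 / p := by rw [sub_pos, div_lt_one (by linarith)]; linarith
  set b := 1 - 2 / p with hb
  rw [ENNReal.tendsto_nhds_zero]
  intro ε hε
  obtain ⟨δ, hδ, hδ0⟩ := (((ENNReal.tendsto_nhds_zero.1
    (tendsto_bound hp (NA a * (2 * π / b + 1)) (∫ x, ‖a x‖ ^ 2)) ε hε).filter_mono
    nhdsWithin_le_nhds).and (self_mem_nhdsWithin (s := Ioi (0 : ℝ)))).exists
  filter_upwards [fourier_amp_small hc a hδ0] with n hn
  refine le_trans ?_ hδ
  have hg := good_schwartz (amp c a n)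
  set V := 𝓕 (amp c a n) with hV
  have hV2 : Integrable fun r => ‖V r‖ ^ 2 := by
    have := (V.memLp 2 volume).integrable_norm_pow (by norm_num)
    exact this
  apply Nrm_le hp (H := fun r => (‖V r‖ + ‖V (-r)‖) / 2)
    (integral_nonneg fun x => by positivity)
  · intro r hr
    refine (norm_WP_le hg hb0 (by rw [abs_of_pos hb0]) r).trans ?_
    rw [NA_amp]
    have := NA_nonneg a
    gcongr
    exact sinh_mul_le hb1 hr.1.le
  · intro r hr
    rw [WP_eq_fourier hg, ← SchwartzMap.fourier_coe, ← hV, norm_mul, norm_div, Complex.norm_I]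
    have h1 : exp (-(b * r)) ≤ exp (b * r) := exp_le_exp.2 (by nlinarith)
    have h2 := norm_sub_le ((exp (b * r) : ℝ) * V r) ((exp (-(b * r)) : ℝ) * V (-r))
    rw [norm_mul, norm_mul, Complex.norm_real, Complex.norm_real,
      Real.norm_of_nonneg (exp_pos _).le, Real.norm_of_nonneg (exp_pos _).le] at h2
    have h3 : exp (-(b * r)) * ‖V (-r)‖ ≤ exp (b * r) * ‖V (-r)‖ := by gcongr
    simp only [Complex.norm_ofNat]
    linarith
  · intro r _
    linarith [hn r, hn (-r)]
  · refine (setLIntegral_le_lintegral _ _).trans ?_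
    have hi : Integrable fun r => (‖V r‖ ^ 2 + ‖V (-r)‖ ^ 2) / 2 :=
      (hV2.add hV2.comp_neg).div_const 2
    calc ∫⁻ r, ENNReal.ofReal (((‖V r‖ + ‖V (-r)‖) / 2) ^ 2)
        ≤ ∫⁻ r, ENNReal.ofReal ((‖V r‖ ^ 2 + ‖V (-r)‖ ^ 2) / 2) :=
          lintegral_mono fun r => ENNReal.ofReal_le_ofReal (by
            nlinarith [sq_nonneg (‖V r‖ - ‖V (-r)‖)])
      _ = _ := by
          rw [← ofReal_integral_eq_lintegral_ofReal hi (Eventually.of_forall fun r => by
            positivity), integral_div, integral_add hV2 hV2.comp_neg,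
            integral_neg_eq_self (fun r => ‖V r‖ ^ 2), hV, integral_sq_fourier_amp]
          congr 1; ring

lemma Nrm_WP_zero_le {p : ℝ} (hp : 2 < p) {a : ℝ → ℂ} (ha : Good a) {M : ℝ} (hM : NA a ≤ M) :
    Nrm p (WP 0 a) ≤ ENNReal.ofReal (4 * π * (2 * π * M) ^ (p - 2) *
      (exp 1 * (NA a * (4 * π / (1 - 2 / p)))) ^ 2 +
      4 * π * (4 * (NA a * (4 * π / (1 - 2 / p)))) ^ (p - 2) *
        ((M * (4 * π / (1 - 2 / p))) ^ 2 / (1 - 2 / p))) := by
  have hb0 : 0 < 1 - 2 / p := by rw [sub_pos, div_lt_one (by linarith)]; linarith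
  set b := 1 - 2 / p with hb
  have hN := NA_nonneg a
  have hM0 : 0 ≤ M := hN.trans hM
  apply Nrm_le hp (H := fun r => NA a * (4 * π / b) * exp (-(b / 2 * r))) (by positivity)
  · intro r hr
    refine (norm_WP_zero_le ha r).trans ?_
    have : r ≤ sinh r := self_le_sinh_iff.2 hr.1.le
    rw [abs_of_pos hr.1]
    calc NA a * (2 * π * r) ≤ M * (2 * π * sinh r) := by
          have := hr.1.le
          gcongr
      _ = _ := by ring
  · intro r hr
    refine (norm_WP_zero_le ha r).trans ?_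
    rw [abs_of_pos hr]
    have h1 : b / 2 * r ≤ exp (b / 2 * r) := by linarith [add_one_le_exp (b / 2 * r)]
    have h2 : exp (b * r) * (NA a * (4 * π / b) * exp (-(b / 2 * r))) =
        NA a * (4 * π / b * exp (b / 2 * r)) := by
      have : b * r = b / 2 * r + b / 2 * r := by ring
      rw [this, exp_add, exp_neg]; field_simp
    rw [h2]
    refine mul_le_mul_of_nonneg_left ?_ hN
    calc 2 * π * r = 4 * π / b * (b / 2 * r) := by field_simp; ring
      _ ≤ _ := by gcongr
  · intro r hr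
    have : exp (-(b / 2 * r)) ≤ 1 := exp_le_one_iff.2 (by nlinarith)
    exact mul_le_of_le_one_right (by positivity) this
  · have hi : IntegrableOn (fun r => (M * (4 * π / b)) ^ 2 * exp (-b * r)) (Ioi 0) :=
      (integrableOn_exp_mul_Ioi (by linarith) 0).const_mul _
    calc ∫⁻ r in Ioi (0 : ℝ), ENNReal.ofReal ((NA a * (4 * π / b) * exp (-(b / 2 * r))) ^ 2)
        ≤ ∫⁻ r in Ioi (0 : ℝ), ENNReal.ofReal ((M * (4 * π / b)) ^ 2 * exp (-b * r)) := by
          refine lintegral_mono fun r => ENNReal.ofReal_le_ofReal ?_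
          rw [mul_pow, ← exp_nat_mul]
          have : ((2 : ℕ) : ℝ) * -(b / 2 * r) = -b * r := by push_cast; ring
          rw [this]
          gcongr
      _ = _ := by
          rw [← ofReal_integral_eq_lintegral_ofReal hi (Eventually.of_forall fun r => by
            positivity), integral_const_mul, integral_exp_mul_Ioi (by linarith)]
          congr 1
          simp; field_simp

/-- forward orbit: norms tend to zero -/
lemma tendsto_Nrm_forward {p : ℝ} (hp : 2 < p) {k : ℝ} (hk : 0 < k) {a : ℝ → ℂ} (ha : Good a) :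
    Tendsto (fun n : ℕ => Nrm p (WP 0 fun x => mm k (lam 0 x) ^ n * a x)) atTop (𝓝 0) := by
  have hm : Measurable fun x => mm k (lam 0 x) :=
    (measurable_mm k).comp (continuous_lam 0).measurable
  have hlt : ∀ x, ‖mm k (lam 0 x)‖ < 1 := fun x => norm_mm_lt hk (lam_im 0 x)
  have hle : ∀ (n : ℕ) x, ‖mm k (lam 0 x) ^ n‖ ≤ 1 := fun n x => by
    rw [norm_pow]; exact pow_le_one₀ (norm_nonneg _) (hlt x).le
  have hg : ∀ n : ℕ, Good fun x => mm k (lam 0 x) ^ n * a x := fun n =>
    ha.mul (hm.pow_const n) (hle n)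
  have hN : Tendsto (fun n : ℕ => NA fun x => mm k (lam 0 x) ^ n * a x) atTop (𝓝 0) := by
    have := tendsto_integral_of_dominated_convergence (μ := volume)
      (F := fun (n : ℕ) x => (1 + |x|) * ‖mm k (lam 0 x) ^ n * a x‖) (f := fun _ => 0)
      (fun x => (1 + |x|) * ‖a x‖) (fun n => (hg n).int.aestronglyMeasurable) ha.int
      (fun n => Eventually.of_forall fun x => by
        rw [Real.norm_of_nonneg (by positivity), norm_mul]
        gcongr
        exact mul_le_of_le_one_left (norm_nonneg _) (hle n x))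
      (Eventually.of_forall fun x => by
        have := ((tendsto_pow_atTop_nhds_zero_of_norm_lt_one (hlt x)).mul_const (a x)).norm.const_mul
          (1 + |x|)
        simpa using this)
    simpa [NA] using this
  have h2 := (tendsto_bound hp (2 * π * NA a)
    ((NA a * (4 * π / (1 - 2 / p))) ^ 2 / (1 - 2 / p))).comp
    (by simpa using hN.mul_const (4 * π / (1 - 2 / p)))
  exact tendsto_of_tendsto_of_tendsto_of_le_of_le tendsto_const_nhds h2 (fun _ => zero_le)
    fun n => Nrm_WP_zero_le hp (hg n) (NA_mul_le ha (hm.pow_const n) (hle n))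

end Pool.Agent.MP_e4fe74_an
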