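import Mathlib

noncomputable section

namespace Pool.Agent.MP_e4fe74_an

open MeasureTheory Set Real Filter Topology
open scoped ENNReal

/-- Van der Corput's second derivative estimate with an amplitude. -/
lemma vdc {φ φ' φ'' : ℝ → ℝ} {a a' : ℝ → ℂ} (h1 : ∀ x, HasDerivAt φ (φ' x) x)
    (h2 : ∀ x, HasDerivAt φ' (φ'' x) x) (h3 : Continuous φ'') (ha : ∀ x, HasDerivAt a (a' x) x)
    (ha' : Continuous a') {A L ε α β : ℝ} (hA : ∀ x, ‖a x‖ ≤ A) (hA' : ∀ x, ‖a' x‖ ≤ A)
    (hL : 0 < L) (hε : ε = 1 ∨ ε = -1) (hαβ : α ≤ β) (hφ : ∀ x ∈ Icc α β, L ^ 2 ≤ ε * φ'' x) :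
    ‖∫ x in α..β, a x * Complex.exp (Complex.I * φ x)‖ ≤ A * (1 + (β - α) + 2 * π) / L := by
  have hA0 : 0 ≤ A := (norm_nonneg _).trans (hA 0)
  have c0 : Continuous φ := continuous_iff_continuousAt.2 fun x => (h1 x).continuousAt
  have c1 : Continuous φ' := continuous_iff_continuousAt.2 fun x => (h2 x).continuousAt
  have ca : Continuous a := continuous_iff_continuousAt.2 fun x => (ha x).continuousAt
  have hD : ∀ x, 0 < φ' x ^ 2 + L ^ 2 := fun x => by positivity
  let w : ℝ → ℝ := fun x => φ' x / (φ' x ^ 2 + L ^ 2)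
  let w' : ℝ → ℝ := fun x => φ'' x * (L ^ 2 - φ' x ^ 2) / (φ' x ^ 2 + L ^ 2) ^ 2
  have hw : ∀ x, HasDerivAt w (w' x) x := by
    intro x
    have := (h2 x).div (((h2 x).pow 2).add_const (L ^ 2)) (hD x).ne'
    refine this.congr_deriv ?_
    simp only [w', Pi.pow_apply]
    congr 1
    simp; ring
  have cw : Continuous w := continuous_iff_continuousAt.2 fun x => (hw x).continuousAt
  have cw' : Continuous w' := by
    unfold w'
    exact Continuous.div (by fun_prop) (by fun_prop) fun x => (pow_pos (hD x) 2).ne'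
  have bw : ∀ x, |w x| ≤ 1 / (2 * L) := by
    intro x
    simp only [w]
    rw [abs_div, abs_of_pos (hD x), div_le_div_iff₀ (hD x) (by positivity)]
    nlinarith [sq_nonneg (|φ' x| - L), sq_abs (φ' x)]
  let E : ℝ → ℂ := fun x => Complex.exp (Complex.I * φ x)
  have hE : ∀ x, HasDerivAt E (E x * (Complex.I * φ' x)) x := fun x =>
    ((h1 x).ofReal_comp.const_mul Complex.I).cexp
  have nE : ∀ x, ‖E x‖ = 1 := fun x => by
    simp only [E]; rw [mul_comm, Complex.norm_exp_ofReal_mul_I]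
  have cE : Continuous E := continuous_iff_continuousAt.2 fun x => (hE x).continuousAt
  let Ψ : ℝ → ℂ := fun x => -Complex.I * (E x * (a x * w x))
  let R : ℝ → ℂ := fun x => Complex.I * (E x * (a' x * w x + a x * w' x)) +
    a x * E x * ((L ^ 2 / (φ' x ^ 2 + L ^ 2) : ℝ) : ℂ)
  have cR : Continuous R := by
    have : Continuous fun x => L ^ 2 / (φ' x ^ 2 + L ^ 2) :=
      Continuous.div (by fun_prop) (by fun_prop) fun x => (hD x).ne'
    unfold R; fun_prop
  have hΨ : ∀ x, HasDerivAt Ψ (a x * E x - R x) x := by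
    intro x
    have := ((hE x).mul ((ha x).mul (hw x).ofReal_comp)).const_mul (-Complex.I)
    refine this.congr_deriv ?_
    have hD' : ((φ' x ^ 2 + L ^ 2 : ℝ) : ℂ) ≠ 0 := by exact_mod_cast (hD x).ne'
    have e1 : ((L ^ 2 / (φ' x ^ 2 + L ^ 2) : ℝ) : ℂ) = 1 - φ' x * w x := by
      have : L ^ 2 / (φ' x ^ 2 + L ^ 2) = 1 - φ' x * w x := by
        have := hD x
        simp only [w]; field_simp; ring
      rw [this]; push_cast; ring
    simp only [R, e1, Pi.mul_apply]
    linear_combination (-(E x * φ' x * a x * w x)) * Complex.I_mul_I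
  have hint := intervalIntegral.integral_eq_sub_of_hasDerivAt (fun x _ => hΨ x)
    (((ca.mul cE).sub cR).intervalIntegrable α β)
  rw [intervalIntegral.integral_sub (f := fun y => a y * E y) ((ca.mul cE).intervalIntegrable α β)
    (cR.intervalIntegrable α β)] at hint
  have bΨ : ∀ x, ‖Ψ x‖ ≤ A / (2 * L) := by
    intro x
    simp only [Ψ, norm_mul, norm_neg, Complex.norm_I, nE, one_mul, Complex.norm_real,
      Real.norm_eq_abs]
    calc ‖a x‖ * |w x| ≤ A * (1 / (2 * L)) := by gcongr; exacts [hA x, bw x]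
      _ = _ := by ring
  let B : ℝ → ℝ := fun x => A / (2 * L) * x + 2 * A * (ε * (arctan (φ' x / L) / L))
  let B' : ℝ → ℝ := fun x => A / (2 * L) + 2 * A * (ε * φ'' x / (φ' x ^ 2 + L ^ 2))
  have hB : ∀ x, HasDerivAt B (B' x) x := by
    intro x
    have := ((hasDerivAt_id x).const_mul (A / (2 * L))).add
      ((((((h2 x).div_const L).arctan).div_const L).const_mul ε).const_mul (2 * A))
    refine this.congr_deriv ?_
    have := hD x
    simp only [B']
    field_simp
    ring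
  have cB' : Continuous B' := by
    have : Continuous fun x => ε * φ'' x / (φ' x ^ 2 + L ^ 2) :=
      Continuous.div (by fun_prop) (by fun_prop) fun x => (hD x).ne'
    unfold B'; fun_prop
  have hintB := intervalIntegral.integral_eq_sub_of_hasDerivAt (fun x _ => hB x)
    (cB'.intervalIntegrable α β)
  have bR : ∀ x ∈ Icc α β, ‖R x‖ ≤ B' x := by
    intro x hx
    have hx' := hφ x hx
    have hDx := hD x
    have habs : |φ'' x| = ε * φ'' x := by
      have : 0 < ε * φ'' x := lt_of_lt_of_le (by positivity) hx'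
      rcases hε with rfl | rfl
      · rw [one_mul] at this ⊢; exact abs_of_pos this
      · rw [neg_one_mul] at this ⊢; exact abs_of_neg (by linarith)
    have bw' : |w' x| ≤ ε * φ'' x / (φ' x ^ 2 + L ^ 2) := by
      simp only [w']
      rw [abs_div, abs_mul, habs, abs_of_pos (pow_pos hDx 2), div_le_div_iff₀ (pow_pos hDx 2) hDx]
      have : |L ^ 2 - φ' x ^ 2| ≤ φ' x ^ 2 + L ^ 2 := by
        rw [abs_le]; constructor <;> nlinarith [sq_nonneg L, sq_nonneg (φ' x)]
      have h0 : 0 ≤ ε * φ'' x := le_trans (by positivity) hx'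
      calc ε * φ'' x * |L ^ 2 - φ' x ^ 2| * (φ' x ^ 2 + L ^ 2)
          ≤ ε * φ'' x * (φ' x ^ 2 + L ^ 2) * (φ' x ^ 2 + L ^ 2) := by gcongr
        _ = _ := by ring
    have b3 : L ^ 2 / (φ' x ^ 2 + L ^ 2) ≤ ε * φ'' x / (φ' x ^ 2 + L ^ 2) := by gcongr
    calc ‖R x‖ ≤ ‖Complex.I * (E x * (a' x * w x + a x * w' x))‖ +
          ‖a x * E x * ((L ^ 2 / (φ' x ^ 2 + L ^ 2) : ℝ) : ℂ)‖ := norm_add_le _ _
      _ ≤ (‖a' x‖ * |w x| + ‖a x‖ * |w' x|) + ‖a x‖ * (L ^ 2 / (φ' x ^ 2 + L ^ 2)) := by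
          gcongr
          · rw [norm_mul, norm_mul, Complex.norm_I, nE, one_mul, one_mul]
            refine (norm_add_le _ _).trans (le_of_eq ?_)
            simp only [norm_mul, Complex.norm_real, Real.norm_eq_abs]
          · rw [norm_mul, norm_mul, nE, mul_one, Complex.norm_real,
              Real.norm_of_nonneg (by positivity)]
      _ ≤ (A * (1 / (2 * L)) + A * (ε * φ'' x / (φ' x ^ 2 + L ^ 2))) +
            A * (ε * φ'' x / (φ' x ^ 2 + L ^ 2)) := by
          gcongr
          exacts [hA' x, bw x, hA x, hA x]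
      _ = B' x := by simp only [B']; ring
  have bI : ‖∫ x in α..β, R x‖ ≤ B β - B α := by
    rw [← hintB]
    exact intervalIntegral.norm_integral_le_of_norm_le hαβ
      (Eventually.of_forall fun x hx => bR x (Ioc_subset_Icc_self hx))
      (cB'.intervalIntegrable α β)
  have bB : B β - B α ≤ A * (β - α) / (2 * L) + 2 * A * (π / L) := by
    have e1 : B β - B α = A * (β - α) / (2 * L) +
        2 * A * (ε * (arctan (φ' β / L) - arctan (φ' α / L)) / L) := by
      simp only [B]; ring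
    rw [e1]
    gcongr
    have a1 := arctan_lt_pi_div_two (φ' β / L)
    have a2 := arctan_lt_pi_div_two (φ' α / L)
    have a3 := neg_pi_div_two_lt_arctan (φ' β / L)
    have a4 := neg_pi_div_two_lt_arctan (φ' α / L)
    rcases hε with rfl | rfl <;> linarith
  have : ∫ x in α..β, a x * E x = (Ψ β - Ψ α) + ∫ x in α..β, R x := by rw [← hint]; ring
  change ‖∫ x in α..β, a x * E x‖ ≤ _
  rw [this]
  calc ‖(Ψ β - Ψ α) + ∫ x in α..β, R x‖ ≤ (‖Ψ β‖ + ‖Ψ α‖) + ‖∫ x in α..β, R x‖ :=
        (norm_add_le _ _).trans (by gcongr; exact norm_sub_le _ _)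
    _ ≤ (A / (2 * L) + A / (2 * L)) + (A * (β - α) / (2 * L) + 2 * A * (π / L)) := by
        gcongr
        exacts [bΨ β, bΨ α, bI.trans bB]
    _ ≤ _ := by
        have : 0 ≤ A * (β - α) / (2 * L) := by
          have := sub_nonneg.2 hαβ; positivity
        have e : A * (1 + (β - α) + 2 * π) / L = (A / (2 * L) + A / (2 * L)) +
          (A * (β - α) / (2 * L) + 2 * A * (π / L)) + A * (β - α) / (2 * L) := by
          field_simp; ring
        rw [e]; linarith

/-- Uniform dispersive decay. -/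
lemma dispersion {θ θ' θ'' : ℝ → ℝ} {a a' : ℝ → ℂ} (h1 : ∀ x, HasDerivAt θ (θ' x) x)
    (h2 : ∀ x, HasDerivAt θ' (θ'' x) x) (h3 : Continuous θ'') (hneg : ∀ x, 0 < x → θ'' x < 0)
    (hpos : ∀ x, x < 0 → 0 < θ'' x) (ha : ∀ x, HasDerivAt a (a' x) x)
    (ha' : Continuous a') {A : ℝ} (hA : ∀ x, ‖a x‖ ≤ A) (hA' : ∀ x, ‖a' x‖ ≤ A)
    (hi : Integrable a) {η : ℝ} (hη : 0 < η) :
    ∀ᶠ n : ℕ in atTop, ∀ r : ℝ,
      ‖∫ x, a x * Complex.exp (Complex.I * ((n * θ x + r * x : ℝ) : ℂ))‖ ≤ η := by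
  have hA0 : 0 ≤ A := (norm_nonneg _).trans (hA 0)
  have c0 : Continuous θ := continuous_iff_continuousAt.2 fun x => (h1 x).continuousAt
  have ca : Continuous a := continuous_iff_continuousAt.2 fun x => (ha x).continuousAt
  have ht := intervalIntegral_tendsto_integral hi.norm (tendsto_neg_atTop_atBot (G := ℝ)) tendsto_id
  obtain ⟨R, hR1, hR⟩ : ∃ R : ℝ, 1 ≤ R ∧ (∫ x, ‖a x‖) - η / 4 ≤ ∫ x in -R..R, ‖a x‖ :=
    ((eventually_ge_atTop 1).and (ht.eventually_const_le (by linarith))).exists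
  obtain ⟨δ, hδ0, hδ1, hδ⟩ : ∃ δ : ℝ, 0 < δ ∧ δ ≤ 1 ∧ A * (2 * δ) ≤ η / 4 := by
    refine ⟨min 1 (η / (8 * (A + 1))), by positivity, min_le_left _ _, ?_⟩
    calc A * (2 * min 1 (η / (8 * (A + 1)))) ≤ (A + 1) * (2 * (η / (8 * (A + 1)))) := by
          gcongr
          · linarith
          · exact min_le_right _ _
      _ = η / 4 := by field_simp; ring
  have hδR : δ ≤ R := hδ1.trans hR1
  obtain ⟨x1, hx1, hm1⟩ := (isCompact_Icc (a := δ) (b := R)).exists_isMinOn
    (nonempty_Icc.2 hδR) (f := fun x => -θ'' x) (by fun_prop)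
  obtain ⟨x2, hx2, hm2⟩ := (isCompact_Icc (a := -R) (b := -δ)).exists_isMinOn
    (nonempty_Icc.2 (by linarith)) (f := fun x => θ'' x) (by fun_prop)
  set κ := min (-θ'' x1) (θ'' x2) with hκ
  have hκ0 : 0 < κ := lt_min (neg_pos.2 (hneg _ (by linarith [hx1.1]))) (hpos _ (by linarith [hx2.2]))
  have hlim : Tendsto (fun n : ℕ => A * (1 + (R - δ) + 2 * π) / √(n * κ)) atTop (𝓝 0) := by
    apply Tendsto.div_atTop tendsto_const_nhds
    exact tendsto_sqrt_atTop.comp (tendsto_natCast_atTop_atTop.atTop_mul_const hκ0)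
  filter_upwards [hlim.eventually_le_const (by linarith : (0 : ℝ) < η / 4),
    eventually_gt_atTop 0] with n hn hn0 r
  have hn0' : (0 : ℝ) < n := by exact_mod_cast hn0
  have hL : 0 < √(n * κ) := Real.sqrt_pos.2 (by positivity)
  have hL2 : √(n * κ) ^ 2 = n * κ := Real.sq_sqrt (by positivity)
  have d1 : ∀ x, HasDerivAt (fun x => n * θ x + r * x) (n * θ' x + r) x := fun x =>
    (((h1 x).const_mul (n : ℝ)).add ((hasDerivAt_id x).const_mul r)).congr_deriv (by simp)
  have d2 : ∀ x, HasDerivAt (fun x => n * θ' x + r) (n * θ'' x) x := fun x =>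
    ((h2 x).const_mul (n : ℝ)).add_const r
  have v1 := vdc d1 d2 (by fun_prop) ha ha' hA hA' hL (Or.inr rfl) hδR (fun x hx => by
    have h : -θ'' x1 ≤ -θ'' x := hm1 hx
    have : κ ≤ -θ'' x := (min_le_left _ _).trans h
    rw [hL2]; nlinarith)
  have v2 := vdc d1 d2 (by fun_prop) ha ha' hA hA' hL (Or.inl rfl) (by linarith : -R ≤ -δ)
    (fun x hx => by
    have h : θ'' x2 ≤ θ'' x := hm2 hx
    have : κ ≤ θ'' x := (min_le_right _ _).trans h
    rw [hL2]; nlinarith)
  set f : ℝ → ℂ := fun x => a x * Complex.exp (Complex.I * ((n * θ x + r * x : ℝ) : ℂ)) with hf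
  have nf : ∀ x, ‖f x‖ = ‖a x‖ := fun x => by
    simp only [f]; rw [norm_mul, mul_comm Complex.I, Complex.norm_exp_ofReal_mul_I, mul_one]
  have cf : Continuous f := by unfold f; fun_prop
  have hfi : Integrable f := hi.norm.mono' cf.aestronglyMeasurable
    (Eventually.of_forall fun x => (nf x).le)
  have v3 : ‖∫ x in -δ..δ, f x‖ ≤ η / 4 := by
    refine (intervalIntegral.norm_integral_le_of_norm_le_const (C := A)
      fun x _ => (nf x).le.trans (hA x)).trans ?_
    rw [abs_of_nonneg (by linarith)]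
    calc A * (δ - -δ) = A * (2 * δ) := by ring
      _ ≤ _ := hδ
  have v4 : ‖(∫ x, f x) - ∫ x in -R..R, f x‖ ≤ η / 4 := by
    rw [intervalIntegral.integral_of_le (by linarith)] at hR ⊢
    rw [← integral_add_compl measurableSet_Ioc hfi (s := Ioc (-R) R), add_sub_cancel_left]
    rw [← integral_add_compl measurableSet_Ioc hi.norm (s := Ioc (-R) R)] at hR
    refine (norm_integral_le_integral_norm _).trans ?_
    simp_rw [nf]
    linarith
  have split : ∫ x in -R..R, f x =
      (∫ x in -R..-δ, f x) + (∫ x in -δ..δ, f x) + ∫ x in δ..R, f x := by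
    rw [intervalIntegral.integral_add_adjacent_intervals (cf.intervalIntegrable _ _)
      (cf.intervalIntegrable _ _), intervalIntegral.integral_add_adjacent_intervals
      (cf.intervalIntegrable _ _) (cf.intervalIntegrable _ _)]
  have e2 : (-δ - -R) = R - δ := by ring
  rw [e2] at v2
  calc ‖∫ x, f x‖ = ‖((∫ x, f x) - ∫ x in -R..R, f x) +
        ((∫ x in -R..-δ, f x) + (∫ x in -δ..δ, f x) + ∫ x in δ..R, f x)‖ := by
        rw [← split]; simp
    _ ≤ η / 4 + (η / 4 + η / 4 + η / 4) := by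
        refine (norm_add_le _ _).trans (add_le_add v4 ?_)
        refine (norm_add₃_le).trans ?_
        gcongr
        exacts [v2.trans hn, v1.trans hn]
    _ = η := by ring

end Pool.Agent.MP_e4fe74_an
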