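import Pool.Agent.MP_e4fe74_an.Eigen
import Pool.Agent.MP_e4fe74_an.Mult
import Pool.Agent.MP_e4fe74_an.VdC

noncomputable section

namespace Pool.Agent.MP_e4fe74_an

open MeasureTheory Set Real Filter Topology FourierTransform SchwartzMap
open scoped ENNReal ContDiff

/-- the spectral parameter on the horizontal line of height `β` -/
def lam (β x : ℝ) : ℂ := 2 * π * x + β * Complex.I

lemma lam_im (β x : ℝ) : (lam β x).im = β := by simp [lam]

lemma continuous_lam (β : ℝ) : Continuous (lam β) := by unfold lam; fun_prop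

/-- wave packets -/
def WP (β : ℝ) (a : ℝ → ℂ) (r : ℝ) : ℂ := ∫ x, a x * Complex.sin (lam β x * r)

/-- admissible amplitudes -/
structure Good (a : ℝ → ℂ) : Prop where
  meas : Measurable a
  int : Integrable fun x => (1 + |x|) * ‖a x‖

/-- size of an amplitude -/
def NA (a : ℝ → ℂ) : ℝ := ∫ x, (1 + |x|) * ‖a x‖

lemma NA_nonneg (a : ℝ → ℂ) : 0 ≤ NA a := integral_nonneg fun x => by positivity

lemma Good.integrable {a : ℝ → ℂ} (h : Good a) : Integrable a :=
  h.int.mono' h.meas.aestronglyMeasurable (Eventually.of_forall fun x => by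
    nlinarith [abs_nonneg x, norm_nonneg (a x)])

lemma Good.mul {a u : ℝ → ℂ} (h : Good a) (hu : Measurable u) {C : ℝ} (hC : ∀ x, ‖u x‖ ≤ C) :
    Good fun x => u x * a x := by
  have := h.meas
  refine ⟨hu.mul h.meas, (h.int.const_mul C).mono' (by fun_prop) (Eventually.of_forall fun x => ?_)⟩
  rw [Real.norm_of_nonneg (by positivity), norm_mul]
  calc (1 + |x|) * (‖u x‖ * ‖a x‖) ≤ (1 + |x|) * (C * ‖a x‖) := by gcongr; exact hC x
    _ = _ := by ring

lemma NA_mul_le {a u : ℝ → ℂ} (h : Good a) (hu : Measurable u) (hC : ∀ x, ‖u x‖ ≤ 1) :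
    NA (fun x => u x * a x) ≤ NA a := by
  refine integral_mono (h.mul hu hC).int h.int fun x => ?_
  simp only [norm_mul]
  gcongr
  exact mul_le_of_le_one_left (norm_nonneg _) (hC x)

lemma good_schwartz (a : 𝓢(ℝ, ℂ)) : Good a := by
  refine ⟨a.continuous.measurable, ?_⟩
  have h1 := a.integrable_pow_mul volume 1
  have h0 := a.integrable_pow_mul volume 0
  refine (h0.add h1).congr (Eventually.of_forall fun x => ?_)
  simp; ring

lemma norm_sin_lam_le (β x r : ℝ) :
    ‖Complex.sin (lam β x * r)‖ ≤ 2 * π * |x| * |r| + sinh (|β| * |r|) := by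
  have e : lam β x * r = ((2 * π * x * r : ℝ) : ℂ) + ((β * r : ℝ) : ℂ) * Complex.I := by
    unfold lam; push_cast; ring
  have h1 : |sin (2 * π * x * r)| ≤ 2 * π * |x| * |r| := by
    refine abs_sin_le_abs.trans (le_of_eq ?_)
    rw [abs_mul, abs_mul, abs_of_pos (by positivity : 0 < 2 * π)]
  have h2 : |sinh (β * r)| = sinh (|β| * |r|) := by rw [abs_sinh, abs_mul]
  rw [← h2, ← pow_le_pow_iff_left₀ (norm_nonneg _) (by positivity) two_ne_zero, e, normSq_sin,
    ← sq_abs (sin _), ← sq_abs (sinh _)]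
  have h3 := abs_nonneg (sin (2 * π * x * r))
  have h4 := abs_nonneg (sinh (β * r))
  nlinarith

lemma norm_sin_lam_le' {β b : ℝ} (hb : 0 < b) (hβ : |β| ≤ b) (x r : ℝ) :
    ‖Complex.sin (lam β x * r)‖ ≤ (1 + |x|) * ((2 * π / b + 1) * sinh (b * |r|)) := by
  refine (norm_sin_lam_le β x r).trans ?_
  have h1 : b * |r| ≤ sinh (b * |r|) := self_le_sinh_iff.2 (by positivity)
  have h2 : sinh (|β| * |r|) ≤ sinh (b * |r|) := sinh_le_sinh.2 (by gcongr)
  have h3 : |r| ≤ sinh (b * |r|) / b := by rw [le_div_iff₀ hb]; linarith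
  have h4 : 0 ≤ sinh (b * |r|) := le_trans (by positivity) h1
  calc 2 * π * |x| * |r| + sinh (|β| * |r|)
      ≤ 2 * π * (1 + |x|) * (sinh (b * |r|) / b) + (1 + |x|) * sinh (b * |r|) := by
        gcongr
        · linarith
        · nlinarith [abs_nonneg x]
    _ = _ := by ring

lemma Good.integrable_WP {a : ℝ → ℂ} (h : Good a) (β r : ℝ) :
    Integrable fun x => a x * Complex.sin (lam β x * r) := by
  have := h.meas
  have := continuous_lam β
  refine (h.int.mul_const ((2 * π / (|β| + 1) + 1) * sinh ((|β| + 1) * |r|))).mono' (by fun_prop)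
    (Eventually.of_forall fun x => ?_)
  rw [norm_mul, mul_right_comm, mul_comm]
  gcongr
  exact norm_sin_lam_le' (by positivity) (by linarith) x r

lemma measurable_WP {a : ℝ → ℂ} (h : Measurable a) (β : ℝ) : Measurable (WP β a) := by
  have := continuous_lam β
  apply StronglyMeasurable.measurable
  apply StronglyMeasurable.integral_prod_right
    (f := fun (r : ℝ) x => a x * Complex.sin (lam β x * r))
  apply Measurable.stronglyMeasurable
  unfold Function.uncurry
  fun_prop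

lemma WP_neg (β : ℝ) (a : ℝ → ℂ) (r : ℝ) : WP β a (-r) = -WP β a r := by
  simp [WP, integral_neg]

lemma norm_WP_le {a : ℝ → ℂ} (h : Good a) {β b : ℝ} (hb : 0 < b) (hβ : |β| ≤ b) (r : ℝ) :
    ‖WP β a r‖ ≤ NA a * (2 * π / b + 1) * sinh (b * |r|) := by
  rw [mul_assoc, NA, ← integral_mul_const]
  refine norm_integral_le_of_norm_le (h.int.mul_const _) (Eventually.of_forall fun x => ?_)
  rw [norm_mul, mul_right_comm, mul_comm]
  gcongr
  exact norm_sin_lam_le' hb hβ x r

lemma norm_WP_zero_le {a : ℝ → ℂ} (h : Good a) (r : ℝ) :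
    ‖WP 0 a r‖ ≤ NA a * (2 * π * |r|) := by
  rw [NA, ← integral_mul_const]
  refine norm_integral_le_of_norm_le (h.int.mul_const _) (Eventually.of_forall fun x => ?_)
  rw [norm_mul, mul_right_comm, mul_comm]
  gcongr
  refine (norm_sin_lam_le 0 x r).trans ?_
  simp only [abs_zero, zero_mul, sinh_zero, add_zero]
  have : 0 ≤ 2 * π * |r| := by positivity
  nlinarith

lemma sinh_le_exp (t : ℝ) : sinh t ≤ exp t := by
  rw [sinh_eq]; linarith [exp_pos t, exp_pos (-t)]

lemma norm_WP_le_exp {a : ℝ → ℂ} (h : Good a) {β b : ℝ} (hb : 0 < b) (hβ : |β| ≤ b) (r : ℝ) :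
    ‖WP β a r‖ ≤ NA a * (2 * π / b + 1) * exp (b * |r|) := by
  refine (norm_WP_le h hb hβ r).trans ?_
  have := NA_nonneg a
  gcongr
  exact sinh_le_exp _

lemma cv_sin {k : ℝ} (hk : 0 < k) {l : ℂ} (hl : |l.im| < k) (s : ℝ) :
    ∫ r : ℝ, (gk k (r - s) : ℂ) * Complex.sin (l * r) = sg k l * Complex.sin (l * s) := by
  rw [← integral_add_right_eq_self _ s]
  have e : ∀ r : ℝ, (gk k (r + s - s) : ℂ) * Complex.sin (l * (r + s : ℝ)) =
      ((gk k r : ℂ) * Complex.exp (-(l * Complex.I) * r) * Complex.exp (-(l * s) * Complex.I) -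
        (gk k r : ℂ) * Complex.exp (l * Complex.I * r) * Complex.exp (l * s * Complex.I)) *
        (Complex.I / 2) := by
    intro r
    rw [add_sub_cancel_right, Complex.sin, mul_assoc (gk k r : ℂ), mul_assoc (gk k r : ℂ),
      ← Complex.exp_add, ← Complex.exp_add]
    push_cast
    ring_nf
  have h1 : |(-(l * Complex.I)).re| < k := by simpa using hl
  have h2 : |(l * Complex.I).re| < k := by simpa using hl
  simp_rw [e]
  rw [integral_mul_const, integral_sub ((integrable_gk_mul_cexp hk h1).mul_const _)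
    ((integrable_gk_mul_cexp hk h2).mul_const _), integral_mul_const, integral_mul_const,
    integral_gk_mul_cexp hk h1, integral_gk_mul_cexp hk h2]
  have c1 : (π : ℂ) * (l * Complex.I) / (2 * k) = π * l / (2 * k) * Complex.I := by ring
  have c2 : (π : ℂ) * -(l * Complex.I) / (2 * k) = -(π * l / (2 * k) * Complex.I) := by ring
  rw [c1, c2, Complex.cos_neg, Complex.cos_mul_I, sg, Complex.sin]
  ring

lemma cv_WP {k β : ℝ} (hk : 0 < k) (hβ : |β| ≤ k / 2) {a : ℝ → ℂ} (h : Good a) :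
    cv k (WP β a) = WP β fun x => sg k (lam β x) * a x := by
  ext s
  have := h.meas
  have := continuous_lam β
  have := continuous_gk k
  have hi : Integrable (fun z : ℝ × ℝ =>
      (gk k (z.1 - s) : ℂ) * (a z.2 * Complex.sin (lam β z.2 * z.1))) (volume.prod volume) := by
    have i1 := integrable_cv (c := k / 2) (C := 1) hk (by positivity) (by linarith)
      (F := fun r => ((exp (k / 2 * |r|) : ℝ) : ℂ)) (by fun_prop) (fun r => by
        rw [Complex.norm_real, Real.norm_of_nonneg (exp_pos _).le, one_mul]) s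
    have i2 := (i1.norm.mul_prod (h.int.mul_const (2 * π / (k / 2) + 1)))
    refine i2.mono' (Measurable.aestronglyMeasurable (by fun_prop)) (Eventually.of_forall fun z => ?_)
    simp only [norm_mul, Complex.norm_real, Real.norm_of_nonneg (exp_pos _).le]
    have h1 := norm_sin_lam_le' (half_pos hk) hβ z.2 z.1
    have h2 := sinh_le_exp (k / 2 * |z.1|)
    calc ‖gk k (z.1 - s)‖ * (‖a z.2‖ * ‖Complex.sin (lam β z.2 * z.1)‖)
        ≤ ‖gk k (z.1 - s)‖ * (‖a z.2‖ *
          ((1 + |z.2|) * ((2 * π / (k / 2) + 1) * exp (k / 2 * |z.1|)))) := by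
          gcongr
          exact h1.trans (by gcongr)
      _ = _ := by ring
  unfold cv WP
  simp_rw [← integral_const_mul]
  rw [integral_integral_swap hi]
  congr 1
  ext x
  have e : ∀ r : ℝ, (gk k (r - s) : ℂ) * (a x * Complex.sin (lam β x * r)) =
      a x * ((gk k (r - s) : ℂ) * Complex.sin (lam β x * r)) := fun r => by ring
  simp_rw [e]
  rw [integral_const_mul, cv_sin hk (by rw [lam_im]; linarith)]
  ring

lemma WP_sub {a a' : ℝ → ℂ} (h : Good a) (h' : Good a') (β r : ℝ) :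
    WP β (fun x => a x - a' x) r = WP β a r - WP β a' r := by
  unfold WP
  rw [← integral_sub (h.integrable_WP β r) (h'.integrable_WP β r)]
  simp_rw [sub_mul]

lemma WP_eq_fourier {a : ℝ → ℂ} (h : Good a) (β r : ℝ) :
    WP β a r = ((exp (β * r) : ℝ) * 𝓕 a r - (exp (-(β * r)) : ℝ) * 𝓕 a (-r)) * (Complex.I / 2) := by
  have hm := h.meas
  have hi : ∀ w : ℝ, Integrable fun v : ℝ =>
      Complex.exp (↑(-2 * π * v * w) * Complex.I) • a v := by
    intro w
    refine h.integrable.norm.mono' (by fun_prop) (Eventually.of_forall fun v => ?_)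
    rw [norm_smul, Complex.norm_exp_ofReal_mul_I, one_mul]
  rw [fourier_real_eq_integral_exp_smul, fourier_real_eq_integral_exp_smul, ← integral_const_mul,
    ← integral_const_mul, ← integral_sub ((hi r).const_mul _) ((hi (-r)).const_mul _),
    ← integral_mul_const, WP]
  congr 1
  ext x
  simp only [smul_eq_mul]
  rw [Complex.sin, Complex.ofReal_exp, Complex.ofReal_exp, ← mul_assoc, ← mul_assoc,
    ← Complex.exp_add, ← Complex.exp_add]
  have e1 : -(lam β x * r) * Complex.I = ((β * r : ℝ) : ℂ) + ((-2 * π * x * r : ℝ) : ℂ) * Complex.I := by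
    unfold lam; push_cast
    linear_combination (-(β * r : ℂ)) * Complex.I_mul_I
  have e2 : lam β x * r * Complex.I =
      ((-(β * r) : ℝ) : ℂ) + ((-2 * π * x * -r : ℝ) : ℂ) * Complex.I := by
    unfold lam; push_cast
    linear_combination ((β * r : ℂ)) * Complex.I_mul_I
  rw [e1, e2]; ring

lemma exists_WP_eq {G : ℝ → ℂ} (hG : ContDiff ℝ ∞ G) (hc : HasCompactSupport G)
    (hodd : ∀ r, G (-r) = -G r) (β : ℝ) : ∃ a : 𝓢(ℝ, ℂ), WP β a = G := by
  have h1 : ContDiff ℝ ∞ fun r : ℝ => ((exp (-(β * r)) : ℝ) : ℂ) :=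
    Complex.ofRealCLM.contDiff.comp (f := fun r : ℝ => exp (-(β * r))) (by fun_prop)
  have h2 : ContDiff ℝ ∞ fun r : ℝ => -Complex.I * ((exp (-(β * r)) : ℝ) : ℂ) * G r := by fun_prop
  have h3 : HasCompactSupport fun r : ℝ => -Complex.I * ((exp (-(β * r)) : ℝ) : ℂ) * G r :=
    hc.mul_left
  refine ⟨𝓕⁻ (h3.toSchwartzMap h2), ?_⟩
  ext r
  rw [WP_eq_fourier (good_schwartz _), ← SchwartzMap.fourier_coe, fourier_fourierInv_eq]
  simp only [HasCompactSupport.toSchwartzMap_toFun, hodd, mul_neg, neg_neg]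
  have e : ((exp (β * r) : ℝ) : ℂ) * ((exp (-(β * r)) : ℝ) : ℂ) = 1 := by
    rw [← Complex.ofReal_mul, ← exp_add]; simp
  linear_combination (G r) * e - (G r * ((exp (β * r) : ℝ) : ℂ) * ((exp (-(β * r)) : ℝ) : ℂ)) *
    Complex.I_mul_I

/-- the amplitudes of the backward orbit -/
def amp (c : ℝ) (a : 𝓢(ℝ, ℂ)) (n : ℕ) : 𝓢(ℝ, ℂ) :=
  smulLeftCLM ℂ (fun x => Complex.exp (Complex.I * (th c x : ℝ)) ^ n) a

lemma amp_apply (c : ℝ) (a : 𝓢(ℝ, ℂ)) (n : ℕ) (x : ℝ) :
    amp c a n x = Complex.exp (Complex.I * (th c x : ℝ)) ^ n * a x := by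
  rw [amp, smulLeftCLM_apply_apply (temperate_phase c n), smul_eq_mul]

lemma norm_amp (c : ℝ) (a : 𝓢(ℝ, ℂ)) (n : ℕ) (x : ℝ) : ‖amp c a n x‖ = ‖a x‖ := by
  rw [amp_apply, norm_mul, norm_pow, mul_comm Complex.I, Complex.norm_exp_ofReal_mul_I]; simp

lemma NA_amp (c : ℝ) (a : 𝓢(ℝ, ℂ)) (n : ℕ) : NA (amp c a n) = NA a := by
  simp [NA, norm_amp]

lemma integral_sq_fourier_amp (c : ℝ) (a : 𝓢(ℝ, ℂ)) (n : ℕ) :
    ∫ r, ‖𝓕 (amp c a n) r‖ ^ 2 = ∫ x, ‖a x‖ ^ 2 := by
  rw [integral_norm_sq_fourier]; simp_rw [norm_amp]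

lemma fourier_amp_small {c : ℝ} (hc : 0 < c) (a : 𝓢(ℝ, ℂ)) {η : ℝ} (hη : 0 < η) :
    ∀ᶠ n : ℕ in atTop, ∀ r : ℝ, ‖𝓕 (amp c a n) r‖ ≤ η := by
  have := dispersion (hasDerivAt_th c) (hasDerivAt_th' c) (continuous_th'' c)
    (fun x => th''_neg hc) (fun x => th''_pos hc) a.hasDerivAt (derivCLM ℂ ℂ a).continuous
    (A := max (SchwartzMap.seminorm ℂ 0 0 a) (SchwartzMap.seminorm ℂ 0 0 (derivCLM ℂ ℂ a)))
    (fun x => (a.norm_le_seminorm ℂ x).trans (le_max_left _ _))
    (fun x => ((derivCLM ℂ ℂ a).norm_le_seminorm ℂ x).trans (le_max_right _ _))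
    a.integrable hη
  filter_upwards [this] with n hn r
  have h := hn (-2 * π * r)
  rw [SchwartzMap.fourier_coe, fourier_real_eq_integral_exp_smul]
  refine le_of_eq_of_le ?_ h
  congr 2
  ext x
  rw [amp_apply, smul_eq_mul, ← Complex.exp_nat_mul, ← mul_assoc, ← Complex.exp_add, mul_comm]
  congr 2
  push_cast; ring

end Pool.Agent.MP_e4fe74_an
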