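import Pool.Agent.MP_e4fe74_an.Eigen

noncomputable section

namespace Pool.Agent.MP_e4fe74_an

open MeasureTheory Set Real Filter Topology
open scoped ENNReal

variable {E : Type} [NormedAddCommGroup E] [InnerProductSpace ℝ E] [FiniteDimensional ℝ E]
  [MeasurableSpace E] [BorelSpace E] [Fact (Module.finrank ℝ E = 3)]

set_option linter.unusedSectionVars false

/-- Weighted Schur test. -/
lemma schur_test {α : Type*} [MeasurableSpace α] {μ : Measure α} [SFinite μ] {p q : ℝ}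
    (hpq : p.HolderConjugate q) {K : α → α → ℝ≥0∞} (hK : Measurable fun z : α × α => K z.1 z.2)
    {w : α → ℝ≥0∞} (hw : Measurable w) (hw0 : ∀ x, w x ≠ 0) (hw1 : ∀ x, w x ≠ ⊤) {C : ℝ≥0∞}
    (h1 : ∀ y, ∫⁻ x, K y x * w x ^ q ∂μ ≤ C * w y ^ q)
    (h2 : ∀ x, ∫⁻ y, K y x * w y ^ p ∂μ ≤ C * w x ^ p) {F : α → ℝ≥0∞} (hF : Measurable F) :
    ∫⁻ y, (∫⁻ x, K y x * F x ∂μ) ^ p ∂μ ≤ C ^ p * ∫⁻ x, F x ^ p ∂μ := by
  have hp := hpq.pos
  have hq := hpq.symm.pos
  have hKy : ∀ y, Measurable fun x => K y x := fun y => hK.comp measurable_prodMk_left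
  have hKx : ∀ x, Measurable fun y => K y x := fun x => hK.comp measurable_prodMk_right
  have step : ∀ y, (∫⁻ x, K y x * F x ∂μ) ^ p ≤
      C ^ (p / q) * ∫⁻ x, K y x * w y ^ p * ((F x / w x) ^ p) ∂μ := by
    intro y
    have hy := hKy y
    have hH := ENNReal.lintegral_mul_le_Lp_mul_Lq μ hpq
      (f := fun x => K y x ^ (1 / p) * (F x / w x)) (g := fun x => K y x ^ (1 / q) * w x)
      (by fun_prop) (by fun_prop)
    have e1 : ∀ x, ((fun x => K y x ^ (1 / p) * (F x / w x)) *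
        fun x => K y x ^ (1 / q) * w x) x = K y x * F x := by
      intro x
      simp only [Pi.mul_apply]
      rw [mul_mul_mul_comm, ← ENNReal.rpow_add_of_nonneg _ _ (by positivity) (by positivity),
        hpq.one_div_add_one_div, div_one, ENNReal.rpow_one, ENNReal.div_mul_cancel (hw0 x) (hw1 x)]
    have e2 : ∀ x, (K y x ^ (1 / p) * (F x / w x)) ^ p = K y x * (F x / w x) ^ p := by
      intro x
      rw [ENNReal.mul_rpow_of_nonneg _ _ hp.le, ← ENNReal.rpow_mul, one_div_mul_cancel hp.ne',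
        ENNReal.rpow_one]
    have e3 : ∀ x, (K y x ^ (1 / q) * w x) ^ q = K y x * w x ^ q := by
      intro x
      rw [ENNReal.mul_rpow_of_nonneg _ _ hq.le, ← ENNReal.rpow_mul, one_div_mul_cancel hq.ne',
        ENNReal.rpow_one]
    simp_rw [e1, e2, e3] at hH
    calc (∫⁻ x, K y x * F x ∂μ) ^ p
        ≤ ((∫⁻ x, K y x * (F x / w x) ^ p ∂μ) ^ (1 / p) * (C * w y ^ q) ^ (1 / q)) ^ p := by
          gcongr
          exact hH.trans (by gcongr; exact h1 y)
      _ = C ^ (p / q) * (w y ^ p * ∫⁻ x, K y x * (F x / w x) ^ p ∂μ) := by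
          rw [ENNReal.mul_rpow_of_nonneg _ _ hp.le, ← ENNReal.rpow_mul, one_div_mul_cancel hp.ne',
            ENNReal.rpow_one, ← ENNReal.rpow_mul,
            ENNReal.mul_rpow_of_nonneg _ _ (by positivity), ← ENNReal.rpow_mul]
          have a1 : 1 / q * p = p / q := by ring
          have a2 : q * (p / q) = p := by field_simp
          rw [a1, a2]; ring
      _ = _ := by
          rw [← lintegral_const_mul _ (by fun_prop)]
          congr 2; ext x; ring
  calc ∫⁻ y, (∫⁻ x, K y x * F x ∂μ) ^ p ∂μ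
      ≤ ∫⁻ y, C ^ (p / q) * ∫⁻ x, K y x * w y ^ p * ((F x / w x) ^ p) ∂μ ∂μ := lintegral_mono step
    _ = C ^ (p / q) * ∫⁻ x, ∫⁻ y, K y x * w y ^ p * ((F x / w x) ^ p) ∂μ ∂μ := by
        rw [lintegral_const_mul _ (Measurable.lintegral_prod_right (by fun_prop)),
          lintegral_lintegral_swap (by fun_prop)]
    _ ≤ C ^ (p / q) * ∫⁻ x, C * F x ^ p ∂μ := by
        gcongr with x
        have := hKx x
        rw [lintegral_mul_const _ (by fun_prop)]
        calc (∫⁻ y, K y x * w y ^ p ∂μ) * (F x / w x) ^ p ≤ C * w x ^ p * (F x / w x) ^ p := by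
              gcongr; exact h2 x
          _ = C * F x ^ p := by
              rw [mul_assoc, ← ENNReal.mul_rpow_of_nonneg _ _ hp.le,
                ENNReal.mul_div_cancel (hw0 x) (hw1 x)]
    _ = C ^ p * ∫⁻ x, F x ^ p ∂μ := by
        rw [lintegral_const_mul _ (by fun_prop), ← mul_assoc]
        congr 1
        nth_rw 2 [← ENNReal.rpow_one C]
        rw [← ENNReal.rpow_add_of_nonneg _ _ (by positivity) zero_le_one,
          hpq.div_conj_eq_sub_one, sub_add_cancel]

lemma hypVol_le : (hypVol E) ≤ (volume : Measure E) := by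
  unfold hypVol
  nth_rw 2 [← withDensity_one (μ := (volume : Measure E))]
  apply withDensity_mono
  refine Eventually.of_forall fun x => ?_
  simp only [Pi.one_apply, ENNReal.ofReal_le_one]
  exact (div_le_one (x0_pos x)).2 (one_le_x0 x)

instance : IsLocallyFiniteMeasure (hypVol E) := Measure.isLocallyFiniteMeasure_of_le hypVol_le

instance : NullSingletonClass (hypVol E) := by
  have : Nontrivial E := Module.nontrivial_of_finrank_pos (R := ℝ) (by
    rw [(Fact.out : Module.finrank ℝ E = 3)]; norm_num)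
  unfold hypVol; infer_instance

/-- a fixed boundary point -/
def e0 : E := onb E 0

lemma norm_e0 : ‖(e0 : E)‖ = 1 := by simp [e0]

/-- The pointwise convolution operator. -/
def Sf (k : ℝ) (f : E → ℂ) (y : E) : ℂ := ∫ x, (KK k y x : ℂ) * f x ∂(hypVol E)

lemma schur_KK {p : ℝ} (hp : 2 < p) {F : E → ℝ≥0∞} (hF : Measurable F) :
    ∫⁻ y, (∫⁻ x, ENNReal.ofReal (KK (2 * (1 - 2 / p)) y x) * F x ∂(hypVol E)) ^ p ∂(hypVol E) ≤
      ENNReal.ofReal (1 / cos (π / 4)) ^ p * ∫⁻ x, F x ^ p ∂(hypVol E) := by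
  have hpq : p.HolderConjugate (p / (p - 1)) :=
    (Real.holderConjugate_iff_eq_conjExponent (by linarith)).2 rfl
  set q := p / (p - 1) with hq
  have hp1 : 0 < p - 1 := by linarith
  have hb : 0 < 1 - 2 / p := by
    rw [sub_pos, div_lt_one (by linarith)]; exact hp
  have hK := measurable_KK (E := E) (2 * (1 - 2 / p))
  have hP : Measurable fun x : E => lor (lift x) (1, e0) :=
    (continuous_lor.comp (continuous_lift.prodMk continuous_const)).measurable
  have hpow : ∀ (x : E) (t : ℝ), 0 ≤ t →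
      ENNReal.ofReal (lor (lift x) (1, e0) ^ (-2 / (p * q))) ^ t =
        ENNReal.ofReal (lor (lift x) (1, e0) ^ (-2 / (p * q) * t)) := by
    intro x t ht
    rw [ENNReal.ofReal_rpow_of_nonneg (rpow_nonneg (lor_null_pos norm_e0 x).le _) ht,
      ← rpow_mul (lor_null_pos norm_e0 x).le]
  apply schur_test hpq (w := fun x => ENNReal.ofReal (lor (lift x) (1, e0) ^ (-2 / (p * q))))
    (by fun_prop) (by fun_prop)
    (fun x => (ENNReal.ofReal_pos.2 (rpow_pos_of_pos (lor_null_pos norm_e0 x) _)).ne')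
    (fun x => ENNReal.ofReal_ne_top) _ _ hF
  · intro y
    simp_rw [hpow _ q hpq.symm.pos.le]
    have a1 : -2 / (p * q) * q + 1 = 1 - 2 / p := by
      have := hpq.symm.pos
      field_simp; ring
    rw [eigen_real (by positivity) norm_e0 (by rw [a1, abs_of_pos hb]; linarith), a1]
    have a2 : π * (1 - 2 / p) / (2 * (2 * (1 - 2 / p))) = π / 4 := by
      generalize 1 - 2 / p = b at hb
      field_simp; ring
    rw [a2]
  · intro x
    simp_rw [hpow _ p hpq.pos.le]
    rw [lintegral_congr (fun y => by rw [KK_comm _ y x])]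
    have a1 : -2 / (p * q) * p + 1 = -(1 - 2 / p) := by
      rw [hq]; field_simp; ring
    rw [eigen_real (by positivity) norm_e0 (by rw [a1, abs_neg, abs_of_pos hb]; linarith), a1]
    have a2 : π * -(1 - 2 / p) / (2 * (2 * (1 - 2 / p))) = -(π / 4) := by
      generalize 1 - 2 / p = b at hb
      field_simp; ring
    rw [a2, cos_neg]

lemma stronglyMeasurable_Sf (k : ℝ) {f : E → ℂ} (hf : StronglyMeasurable f) :
    StronglyMeasurable (Sf k f) := by
  have hK := measurable_KK (E := E) k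
  have hf' := hf.measurable
  apply StronglyMeasurable.integral_prod_right (f := fun y x => (KK k y x : ℂ) * f x)
  apply Measurable.stronglyMeasurable
  unfold Function.uncurry
  fun_prop

lemma enorm_KK_mul (k : ℝ) (y x : E) (c : ℂ) :
    ‖(KK k y x : ℂ) * c‖ₑ = ENNReal.ofReal (KK k y x) * ‖c‖ₑ := by
  rw [enorm_mul, ← ofReal_norm (KK k y x : ℂ), Complex.norm_real,
    Real.norm_of_nonneg (KK_nonneg _ _ _)]

lemma Sf_congr (k : ℝ) {f g : E → ℂ} (h : f =ᵐ[(hypVol E)] g) : Sf k f = Sf k g := by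
  ext y
  apply integral_congr_ae
  filter_upwards [h] with x hx
  rw [hx]

variable {p : ℝ≥0∞}

/-- the parameter of the kernel attached to `p` -/
def kp (p : ℝ≥0∞) : ℝ := 2 * (1 - 2 / p.toReal)

lemma two_lt_toReal (h2 : 2 < p) (ht : p ≠ ⊤) : 2 < p.toReal := by
  have := (ENNReal.toReal_lt_toReal ENNReal.ofNat_ne_top ht).2 h2
  simpa using this

lemma eLpNorm_Sf_le (h2 : 2 < p) (ht : p ≠ ⊤) {f : E → ℂ} (hf : StronglyMeasurable f) :
    eLpNorm (Sf (kp p) f) p (hypVol E) ≤ ENNReal.ofReal (1 / cos (π / 4)) * eLpNorm f p (hypVol E) := by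
  have hp := two_lt_toReal h2 ht
  have h0 : p ≠ 0 := (lt_trans (by norm_num) h2).ne'
  rw [eLpNorm_eq_lintegral_rpow_enorm_toReal h0 ht, eLpNorm_eq_lintegral_rpow_enorm_toReal h0 ht]
  have h := schur_KK hp hf.measurable.enorm
  calc (∫⁻ y, ‖Sf (kp p) f y‖ₑ ^ p.toReal ∂(hypVol E)) ^ (1 / p.toReal)
      ≤ (ENNReal.ofReal (1 / cos (π / 4)) ^ p.toReal *
          ∫⁻ x, ‖f x‖ₑ ^ p.toReal ∂(hypVol E)) ^ (1 / p.toReal) := by
        gcongr
        refine le_trans (lintegral_mono fun y => ?_) h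
        gcongr
        refine (enorm_integral_le_lintegral_enorm _).trans (le_of_eq ?_)
        simp_rw [enorm_KK_mul]; rfl
    _ = _ := by
        rw [ENNReal.mul_rpow_of_nonneg _ _ (by positivity), ← ENNReal.rpow_mul,
          mul_one_div_cancel (by linarith), ENNReal.rpow_one]

lemma ae_integrable_KK (h2 : 2 < p) (ht : p ≠ ⊤) {f : E → ℂ} (hf : StronglyMeasurable f)
    (hm : MemLp f p (hypVol E)) :
    ∀ᵐ y ∂(hypVol E), Integrable (fun x => (KK (kp p) y x : ℂ) * f x) (hypVol E) := by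
  have hp := two_lt_toReal h2 ht
  have h0 : p ≠ 0 := (lt_trans (by norm_num) h2).ne'
  have h := schur_KK hp hf.measurable.enorm
  have hK := measurable_KK (E := E) (kp p)
  have hf' := hf.measurable
  have hfin : ∫⁻ x, ‖f x‖ₑ ^ p.toReal ∂(hypVol E) < ⊤ :=
    (eLpNorm_lt_top_iff_lintegral_rpow_enorm_lt_top h0 ht).1 hm.2
  have h3 := ae_lt_top ((Measurable.lintegral_prod_right
    (f := fun y x => ENNReal.ofReal (KK (kp p) y x) * ‖f x‖ₑ) (by
      unfold Function.uncurry; fun_prop)).pow_const p.toReal)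
    (h.trans_lt (ENNReal.mul_lt_top (ENNReal.rpow_lt_top_of_nonneg (by positivity)
      ENNReal.ofReal_ne_top) hfin)).ne
  filter_upwards [h3] with y hy
  have hy' := measurable_KK_right (kp p) y
  refine ⟨by fun_prop, ?_⟩
  rw [hasFiniteIntegral_iff_enorm]
  simp_rw [enorm_KK_mul]
  exact (ENNReal.rpow_lt_top_iff_of_pos (by linarith)).1 hy

lemma memLp_Sf (h2 : 2 < p) (ht : p ≠ ⊤) (F : Lp ℂ p (hypVol E)) : MemLp (Sf (kp p) F) p (hypVol E) :=
  ⟨(stronglyMeasurable_Sf _ (Lp.stronglyMeasurable F)).aestronglyMeasurable,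
    (eLpNorm_Sf_le h2 ht (Lp.stronglyMeasurable F)).trans_lt
      (ENNReal.mul_lt_top ENNReal.ofReal_lt_top (Lp.eLpNorm_lt_top F))⟩

/-- The convolution operator as a linear map on `L^p`. -/
def Slin (h2 : 2 < p) (ht : p ≠ ⊤) : Lp ℂ p (hypVol E) →ₗ[ℂ] Lp ℂ p (hypVol E) where
  toFun F := (memLp_Sf h2 ht F).toLp _
  map_add' F G := by
    rw [← MemLp.toLp_add, MemLp.toLp_eq_toLp_iff, Sf_congr _ (Lp.coeFn_add F G)]
    filter_upwards [ae_integrable_KK h2 ht (Lp.stronglyMeasurable F) (Lp.memLp F),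
      ae_integrable_KK h2 ht (Lp.stronglyMeasurable G) (Lp.memLp G)] with y h1 h2
    simp only [Sf, Pi.add_apply, mul_add]
    exact integral_add h1 h2
  map_smul' c F := by
    rw [RingHom.id_apply, ← MemLp.toLp_const_smul, MemLp.toLp_eq_toLp_iff,
      Sf_congr _ (Lp.coeFn_smul c F)]
    refine Eventually.of_forall fun y => ?_
    simp only [Sf, Pi.smul_apply, smul_eq_mul]
    rw [← integral_const_mul]
    congr 1; ext x; ring

/-- The convolution operator on `L^p`. -/
def Sop [Fact (1 ≤ p)] (h2 : 2 < p) (ht : p ≠ ⊤) : Lp ℂ p (hypVol E) →L[ℂ] Lp ℂ p (hypVol E) :=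
  (Slin h2 ht).mkContinuous (1 / cos (π / 4)) fun F => by
    have hc : 0 < cos (π / 4) := by rw [cos_pi_div_four]; positivity
    change ‖(memLp_Sf h2 ht F).toLp _‖ ≤ _
    rw [Lp.norm_toLp, Lp.norm_def, ← ENNReal.toReal_ofReal (by positivity : 0 ≤ 1 / cos (π / 4)),
      ← ENNReal.toReal_mul]
    exact ENNReal.toReal_mono (ENNReal.mul_ne_top ENNReal.ofReal_ne_top (Lp.eLpNorm_ne_top F))
      (eLpNorm_Sf_le h2 ht (Lp.stronglyMeasurable F))

lemma coeFn_Sop [Fact (1 ≤ p)] (h2 : 2 < p) (ht : p ≠ ⊤) (F : Lp ℂ p (hypVol E)) {f : E → ℂ}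
    (h : F =ᵐ[(hypVol E)] f) : Sop h2 ht F =ᵐ[(hypVol E)] Sf (kp p) f := by
  rw [← Sf_congr _ h]
  exact (memLp_Sf h2 ht F).coeFn_toLp

lemma IsLorentz.Sf_act {g : (ℝ × E) →ₗ[ℝ] (ℝ × E)} (hg : IsLorentz g) (k : ℝ) (f : E → ℂ) :
    Sf k (f ∘ act g) = Sf k f ∘ act g := by
  ext y
  simp only [Sf, Function.comp_apply]
  rw [← hg.measurePreserving.integral_comp hg.measurableEmbedding
    (fun x => (KK k (act g y) x : ℂ) * f x)]
  simp_rw [hg.KK_act]

end Pool.Agent.MP_e4fe74_an
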